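import Pool.Agent.H53.BE.CntA
import Pool.Agent.H9.SH.Defs

/-!
# CNT': the count of a label, Shannon half

`CntQ m d` is the count of the cells which are met by `G (x)` when the line `(x, v)` satisfies
polynomial inequalities with a lower bound for the Jacobians at `m + 1` times.  From it, `cnt`:
the entropy of the point in the coordinates `G` of a context, given a label whose body has
Jacobian at least `1 / ρ` somewhere on its interval `[α, α + h]`.
-/

set_option autoImplicit false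

namespace Pool.CNT

open Finset Real MvPolynomial
open Pool.Agent.H49.Ent Pool.Agent.H32.Dense Pool.STK
open Pool.SH (Ln lpos)
open Pool.Agent.H50.PW (jac)

/-- **The count of the cells** (form of `helper85`). -/
def CntQ (m d : ℕ) : Prop :=
  ∃ C : ℝ, 1 ≤ C ∧ ∀ (k : ℕ) (G : Fin m → MvPolynomial (Fin m) ℝ)
    (F : Fin (m + 1) → Fin m → MvPolynomial (Fin m) ℝ) (s : Fin (m + 1) → ℝ) (h j₀ ρ : ℝ)
    (Y : Finset ((Fin m → ℝ) × (Fin m → ℝ))),
    (∀ i, (G i).totalDegree ≤ d) → (∀ j i, (F j i).totalDegree ≤ d) →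
    0 < h → 0 < j₀ → 0 < ρ → (∀ i, |s i| ≤ 2) → (∀ i j, i ≠ j → h ≤ |s i - s j|) →
    (∀ y ∈ Y, (∀ i, |eval y.1 (G i)| ≤ 1) ∧
      (∀ j i, |eval (fun a => y.1 a + s j * y.2 a) (F j i)| ≤ 1) ∧
      (∀ j, 1 / ρ ≤ |(Matrix.of fun i i' => eval (fun a => y.1 a + s j * y.2 a)
        (pderiv i' (F j i))).det|) ∧
      |(Matrix.of fun i i' => eval y.1 (pderiv i' (G i))).det| ≤ j₀) →
    ((Y.image fun y i => ⌊(2 : ℝ) ^ k * eval y.1 (G i)⌋).card : ℝ) ≤
      C * (2 ^ (k * m) * j₀ * ρ * (1 / h) ^ m + 2 ^ (k * (m - 1)))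

variable {m N : ℕ}

theorem card_shift {A : Type} (Y : Finset A) (f g : A → Fin m → ℤ) (c : Fin m → ℤ)
    (h : ∀ a ∈ Y, ∀ i, f a i = g a i + c i ∨ f a i = g a i + c i + 1) :
    (Y.image f).card ≤ 2 ^ m * (Y.image g).card := by
  classical
  have h1 : Y.image f ⊆ ((Y.image g) ×ˢ (Fintype.piFinset fun _ : Fin m => ({0, 1} : Finset ℤ))).image
      (fun q => fun i => q.1 i + c i + q.2 i) := by
    intro x hx
    obtain ⟨a, ha, rfl⟩ := Finset.mem_image.1 hx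
    rw [Finset.mem_image]
    refine ⟨(g a, fun i => f a i - g a i - c i), ?_, ?_⟩
    · rw [Finset.mem_product]
      refine ⟨Finset.mem_image_of_mem _ ha, ?_⟩
      rw [Fintype.mem_piFinset]
      intro i
      rw [Finset.mem_insert, Finset.mem_singleton]
      rcases h a ha i with h2 | h2
      · left
        simp only
        omega
      · right
        simp only
        omega
    · funext i
      simp only
      ring
  refine (Finset.card_le_card h1).trans (Finset.card_image_le.trans ?_)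
  rw [Finset.card_product, Fintype.card_piFinset, Finset.prod_const, Finset.card_univ,
    Fintype.card_fin, mul_comm]
  refine Nat.mul_le_mul_right _ ?_
  refine le_of_eq ?_
  congr 1

theorem floor_shift (a b : ℝ) : ⌊a⌋ = ⌊a - b⌋ + ⌊b⌋ ∨ ⌊a⌋ = ⌊a - b⌋ + ⌊b⌋ + 1 := by
  have h1 := Int.le_floor_add (a - b) b
  have h2 := Int.le_floor_add_floor (a - b) b
  rw [sub_add_cancel] at h1 h2
  omega

/-- The nodes are separated. -/
theorem nod_sep (D m : ℕ) {α h : ℝ} (hh : 0 < h) {n n' : ℕ} (hne : n ≠ n') :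
    h / ((D + m + 1 : ℕ) : ℝ) ≤ |nod D m α h n - nod D m α h n'| := by
  have hM : (0 : ℝ) < ((D + m + 1 : ℕ) : ℝ) := by positivity
  have e : nod D m α h n - nod D m α h n' = h / ((D + m + 1 : ℕ) : ℝ) * ((n : ℝ) - n') := by
    unfold nod
    field_simp
    ring
  rw [e, abs_mul, abs_of_pos (by positivity : 0 < h / ((D + m + 1 : ℕ) : ℝ))]
  have h1 : (1 : ℝ) ≤ |(n : ℝ) - n'| := by
    have h8 : (1 : ℤ) ≤ |(n : ℤ) - n'| := Int.one_le_abs (sub_ne_zero.2 (by exact_mod_cast hne))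
    exact_mod_cast h8
  have h2 : 0 < h / ((D + m + 1 : ℕ) : ℝ) := by positivity
  nlinarith

theorem nod_mem (D m : ℕ) {α h : ℝ} (hh : 0 < h) {n : ℕ} (hn : n < D + m + 2) :
    α ≤ nod D m α h n ∧ nod D m α h n ≤ α + h := by
  have hM : (0 : ℝ) < ((D + m + 1 : ℕ) : ℝ) := by positivity
  have h1 : (n : ℝ) / ((D + m + 1 : ℕ) : ℝ) ≤ 1 := by
    rw [div_le_one hM]
    exact_mod_cast (by omega : n ≤ D + m + 1)
  have h2 : 0 ≤ (n : ℝ) / ((D + m + 1 : ℕ) : ℝ) := by positivity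
  unfold nod
  constructor
  · have := mul_nonneg hh.le h2
    linarith
  · have := mul_le_mul_of_nonneg_left h1 hh.le
    linarith

/-- The Jacobian of shifted functions. -/
theorem jac_sub (t : ℝ) (F : Fin m → MvPolynomial (Option (Fin m)) ℝ) (c : Fin m → ℝ)
    (x : Fin m → ℝ) :
    (jac (fun i => tx t (F i) - C (c i)) x).det = eval (tp t x) (dP F) := by
  rw [eval_dP]
  congr 1
  ext i j
  simp only [jac, Matrix.of_apply]
  rw [map_sub, pderiv_C, sub_zero]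

/-- The count for one class. -/
theorem count_class {E : ℕ} {C₀ : ℝ}
    (hC : ∀ (k : ℕ) (G : Fin m → MvPolynomial (Fin m) ℝ)
    (F : Fin (m + 1) → Fin m → MvPolynomial (Fin m) ℝ) (s : Fin (m + 1) → ℝ) (h j₀ ρ : ℝ)
    (Y : Finset ((Fin m → ℝ) × (Fin m → ℝ))),
    (∀ i, (G i).totalDegree ≤ E) → (∀ j i, (F j i).totalDegree ≤ E) →
    0 < h → 0 < j₀ → 0 < ρ → (∀ i, |s i| ≤ 2) → (∀ i j, i ≠ j → h ≤ |s i - s j|) →
    (∀ y ∈ Y, (∀ i, |eval y.1 (G i)| ≤ 1) ∧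
      (∀ j i, |eval (fun a => y.1 a + s j * y.2 a) (F j i)| ≤ 1) ∧
      (∀ j, 1 / ρ ≤ |(Matrix.of fun i i' => eval (fun a => y.1 a + s j * y.2 a)
        (pderiv i' (F j i))).det|) ∧
      |(Matrix.of fun i i' => eval y.1 (pderiv i' (G i))).det| ≤ j₀) →
    ((Y.image fun y i => ⌊(2 : ℝ) ^ k * eval y.1 (G i)⌋).card : ℝ) ≤
      C₀ * (2 ^ (k * m) * j₀ * ρ * (1 / h) ^ m + 2 ^ (k * (m - 1))))
    (k : ℕ) (G : Fin m → MvPolynomial (Option (Fin m)) ℝ)
    (F : Fin m → MvPolynomial (Option (Fin m)) ℝ) (hG : ∀ i, (G i).totalDegree ≤ E)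
    (hF : ∀ i, (F i).totalDegree ≤ E) {α h t j₀ ρ : ℝ} (hα : 0 ≤ α) (hh : 0 < h)
    (hαh : α + h ≤ 1) (ht0 : 0 ≤ t) (ht1 : t ≤ 1) (hj : 0 < j₀) (hρ : 0 < ρ)
    (e : Fin (m + 1) → Fin (m * E + m + 2)) (he : Function.Injective e) (Y : Finset (Ln m))
    (l₀ : Ln m)
    (hGc : ∀ l ∈ Y, ∀ i, |eval (tp t (lpos l t)) (G i) - eval (tp t (lpos l₀ t)) (G i)| ≤ 1)
    (hFc : ∀ l ∈ Y, ∀ s, α ≤ s → s ≤ α + h → ∀ i,
      |eval (tp s (lpos l s)) (F i) - eval (tp s (lpos l₀ s)) (F i)| ≤ 1)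
    (hGj : ∀ l ∈ Y, |eval (tp t (lpos l t)) (dP G)| ≤ j₀)
    (hFj : ∀ l ∈ Y, ∀ j, 1 / ρ ≤ |eval (tp (nod (m * E) m α h (e j))
      (lpos l (nod (m * E) m α h (e j)))) (dP F)|) :
    ((Y.image fun l i => ⌊(2 : ℝ) ^ k * eval (tp t (lpos l t)) (G i)⌋).card : ℝ) ≤
      2 ^ m * (C₀ * (((m * E + m + 1 : ℕ) : ℝ) ^ m *
        (2 ^ (k * m) * j₀ * ρ / h ^ m) + 2 ^ (k * (m - 1)))) := by
  classical
  set sn : Fin (m + 1) → ℝ := fun j => nod (m * E) m α h (e j) with hsn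
  have hsn1 : ∀ j, α ≤ sn j ∧ sn j ≤ α + h := fun j => nod_mem (m * E) m hh (e j).2
  set Y' : Finset ((Fin m → ℝ) × (Fin m → ℝ)) := Y.image (fun l => (lpos l t, l.2)) with hY'
  have hpos : ∀ (l : Ln m) (s : ℝ), (fun a => lpos l t a + (s - t) * l.2 a) = lpos l s := by
    intro l s
    funext a
    unfold lpos
    ring
  have hM : (0 : ℝ) < ((m * E + m + 1 : ℕ) : ℝ) := by positivity
  have h1 := hC k (fun i => tx t (G i) - C (eval (tp t (lpos l₀ t)) (G i)))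
    (fun j i => tx (sn j) (F i) - C (eval (tp (sn j) (lpos l₀ (sn j))) (F i)))
    (fun j => sn j - t) (h / ((m * E + m + 1 : ℕ) : ℝ)) j₀ ρ Y' (fun i => by
      refine (totalDegree_sub _ _).trans (max_le ?_ ?_)
      · exact (degree_tx _ _).trans (hG i)
      · rw [totalDegree_C]; omega) (fun j i => by
      refine (totalDegree_sub _ _).trans (max_le ?_ ?_)
      · exact (degree_tx _ _).trans (hF i)
      · rw [totalDegree_C]; omega) (by positivity) hj hρ (fun j => by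
      have := hsn1 j
      rw [abs_le]
      constructor <;> linarith) (fun i j hij => by
      have h2 := nod_sep (m * E) m (α := α) hh (n := (e i : ℕ)) (n' := (e j : ℕ)) (fun h3 =>
        hij (he (Fin.ext h3)))
      have e1 : sn i - t - (sn j - t) = sn i - sn j := by ring
      rw [e1]
      exact h2) (by
      intro y hy
      obtain ⟨l, hl, rfl⟩ := Finset.mem_image.1 hy
      refine ⟨fun i => ?_, fun j i => ?_, fun j => ?_, ?_⟩
      · simp only
        rw [map_sub, eval_C, eval_tx]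
        exact hGc l hl i
      · simp only
        rw [hpos, map_sub, eval_C, eval_tx]
        exact hFc l hl (sn j) (hsn1 j).1 (hsn1 j).2 i
      · simp only
        rw [hpos]
        have h3 := jac_sub (sn j) F (fun i => eval (tp (sn j) (lpos l₀ (sn j))) (F i))
          (lpos l (sn j))
        unfold jac at h3
        rw [h3]
        exact hFj l hl j
      · have h3 := jac_sub t G (fun i => eval (tp t (lpos l₀ t)) (G i)) (lpos l t)
        unfold jac at h3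
        simp only
        rw [h3]
        exact hGj l hl)
  have h2 : (Y'.image fun y i => ⌊(2 : ℝ) ^ k *
      eval y.1 (tx t (G i) - C (eval (tp t (lpos l₀ t)) (G i)))⌋) =
      Y.image fun l i => ⌊(2 : ℝ) ^ k * eval (tp t (lpos l t)) (G i) -
        (2 : ℝ) ^ k * eval (tp t (lpos l₀ t)) (G i)⌋ := by
    rw [hY', Finset.image_image]
    refine Finset.image_congr fun l _ => ?_
    funext i
    simp only [Function.comp_apply]
    rw [map_sub, eval_C, eval_tx, mul_sub]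
  rw [h2] at h1
  have h3 := card_shift Y (fun l i => ⌊(2 : ℝ) ^ k * eval (tp t (lpos l t)) (G i)⌋)
    (fun l i => ⌊(2 : ℝ) ^ k * eval (tp t (lpos l t)) (G i) -
        (2 : ℝ) ^ k * eval (tp t (lpos l₀ t)) (G i)⌋)
    (fun i => ⌊(2 : ℝ) ^ k * eval (tp t (lpos l₀ t)) (G i)⌋) (fun l _ i => floor_shift _ _)
  have h4 : ((Y.image fun l i => ⌊(2 : ℝ) ^ k * eval (tp t (lpos l t)) (G i)⌋).card : ℝ) ≤
      2 ^ m * ((Y.image fun l i => ⌊(2 : ℝ) ^ k * eval (tp t (lpos l t)) (G i) -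
        (2 : ℝ) ^ k * eval (tp t (lpos l₀ t)) (G i)⌋).card : ℝ) := by
    exact_mod_cast h3
  have h5 : (2 : ℝ) ^ (k * m) * j₀ * ρ * (1 / (h / ((m * E + m + 1 : ℕ) : ℝ))) ^ m =
      ((m * E + m + 1 : ℕ) : ℝ) ^ m * (2 ^ (k * m) * j₀ * ρ / h ^ m) := by
    rw [one_div_div, div_pow]
    ring
  rw [h5] at h1
  exact h4.trans (mul_le_mul_of_nonneg_left h1 (by positivity))

/-- **(CNT')**, Shannon half. -/
theorem cnt (m N N' E : ℕ) (hm : 1 ≤ m) (hCnt : CntQ m E) (c₀ : ℝ)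
    (hc₀ : 0 ≤ c₀) :
    ∃ C : ℝ, 0 ≤ C ∧ ∀ (Ω γ τ : Type) [Fintype Ω] (p : Ω → ℝ) (_ : IsLaw p) (k : ℕ)
      (l : Ω → Ln m) (T : Ω → τ) (t : Ω → ℝ) (W : Ω → γ)
      (G : γ → Fin N → MvPolynomial (Option (Fin m)) ℝ)
      (F : γ → Fin N' → MvPolynomial (Option (Fin m)) ℝ) (α h ρ : γ → ℝ)
      (S : Ω → Fin m → Fin N) (j : Ω → ℝ),
      (∀ z i, (G z i).totalDegree ≤ E) → (∀ b i, (F b i).totalDegree ≤ E) →
      (∀ ω ω', 0 < p ω → 0 < p ω' → W ω = W ω' → T ω = T ω' → t ω = t ω') →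
      (∀ ω, 0 < p ω → 0 ≤ t ω ∧ t ω ≤ 1) →
      (∀ ω, 0 < p ω → 0 ≤ α (W ω) ∧ 0 < h (W ω) ∧ α (W ω) + h (W ω) ≤ 1 ∧ 0 < ρ (W ω)) →
      (∀ ω ω', 0 < p ω → 0 < p ω' → W ω = W ω' → T ω = T ω' → ∀ i,
        |eval (tp (t ω) (lpos (l ω) (t ω))) (G (W ω) i) -
          eval (tp (t ω) (lpos (l ω') (t ω))) (G (W ω) i)| ≤ 1) →
      (∀ ω ω', 0 < p ω → 0 < p ω' → W ω = W ω' →
        ∀ s, α (W ω) ≤ s → s ≤ α (W ω) + h (W ω) → ∀ i,
        |eval (tp s (lpos (l ω) s)) (F (W ω) i) - eval (tp s (lpos (l ω') s)) (F (W ω) i)| ≤ 1) →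
      (∀ ω, 0 < p ω → ∃ s, α (W ω) ≤ s ∧ s ≤ α (W ω) + h (W ω) ∧ ∃ S' : Fin m → Fin N',
        1 / ρ (W ω) ≤ |eval (tp s (lpos (l ω) s)) (dP fun i => F (W ω) (S' i))|) →
      (∀ ω, 0 < p ω → 0 < j ω ∧
        |eval (tp (t ω) (lpos (l ω) (t ω))) (dP fun i => G (W ω) (S ω i))| ≤ j ω) →
      (∀ ω, 0 < p ω → h (W ω) ^ m ≤ c₀ * (2 ^ k * j ω * ρ (W ω))) →
      CH p (fun ω => (S ω, T ω, fun i : Fin m => ⌊(2 : ℝ) ^ k *
          eval (tp (t ω) (lpos (l ω) (t ω))) (G (W ω) (S ω i))⌋)) W ≤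
      CH p T W + CH p j W +
        Ex p (fun ω => ((k * m : ℕ) : ℝ) * Real.log 2 + Real.log (j ω) + Real.log (ρ (W ω)) -
          m * Real.log (h (W ω))) + C := by
  classical
  obtain ⟨C₀, hC₀1, hC₀⟩ := hCnt
  obtain ⟨c, hc⟩ : ∃ c : ℝ, c = cN (m * E) m := ⟨_, rfl⟩
  have hc1 : 1 ≤ c := by rw [hc]; exact one_le_cN _ _
  obtain ⟨dm, hdm⟩ : ∃ dm : ℝ, dm = ((m * E + m + 1 : ℕ) : ℝ) ^ m := ⟨_, rfl⟩
  have hdm1 : 1 ≤ dm := by
    rw [hdm]
    exact one_le_pow₀ (by exact_mod_cast Nat.succ_le_succ (Nat.zero_le _))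
  obtain ⟨nc, hnc⟩ : ∃ nc : ℕ, nc = Fintype.card ((Fin m → Fin N) × (Fin m → Fin N') ×
      (Fin (m + 1) → Fin (m * E + m + 2))) := ⟨_, rfl⟩
  obtain ⟨C₁, hC₁⟩ : ∃ C₁ : ℝ, C₁ = 2 ^ m * (C₀ * (dm * c + c₀)) := ⟨_, rfl⟩
  have hC₁1 : 1 ≤ C₁ := by
    have h1 : (1 : ℝ) ≤ 2 ^ m := one_le_pow₀ (by norm_num)
    have h3 : 1 ≤ dm * c := by nlinarith
    have h2 : 1 ≤ C₀ * (dm * c + c₀) := by nlinarith
    rw [hC₁]
    nlinarith
  refine ⟨Real.log nc + Real.log C₁, add_nonneg (Real.log_natCast_nonneg _)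
    (Real.log_nonneg hC₁1), ?_⟩
  intro Ω γ τ _ p hp k l T t W G F α h ρ S j hGd hFd htT ht01 hI hGc hFc hFj hGj hdom
  have hp0 := hp.nonneg
  -- the classes
  have hcl : ∀ ω, ∃ q : (Fin m → Fin N') × (Fin (m + 1) → Fin (m * E + m + 2)), 0 < p ω →
      Function.Injective q.2 ∧ ∀ i, 1 / (c * ρ (W ω)) ≤
        |eval (tp (nod (m * E) m (α (W ω)) (h (W ω)) (q.2 i))
          (lpos (l ω) (nod (m * E) m (α (W ω)) (h (W ω)) (q.2 i)))) (dP fun i => F (W ω) (q.1 i))| := by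
    intro ω
    by_cases hω : 0 < p ω
    · obtain ⟨s, ht0, ht1, S', hS'⟩ := hFj ω hω
      obtain ⟨hi0, hi1, hi2, hi3⟩ := hI ω hω
      have h1 := good_nodes (m * E) m (lnP (l ω).1 (l ω).2 (dP fun i => F (W ω) (S' i)))
        (natDegree_lnP _ _ _ (degree_dP _ fun i => hFd _ _)) hi1 ht0 ht1
        (r := 1 / ρ (W ω)) (by positivity) (by
          rw [eval_lnP]
          exact hS')
      obtain ⟨e, he1, he2⟩ := h1
      refine ⟨(S', e), fun _ => ⟨he1, fun i => ?_⟩⟩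
      have h2 := he2 i
      rw [eval_lnP] at h2
      refine le_trans (le_of_eq ?_) h2
      rw [← hc]
      field_simp
    · obtain ⟨ω', hω'⟩ : ∃ ω', 0 < p ω' := by
        by_contra hcon
        push Not at hcon
        have h1 : ∑ ω, p ω ≤ 0 := Finset.sum_nonpos fun ω _ => hcon ω
        rw [hp.sum_one] at h1
        linarith
      obtain ⟨s, ht0, ht1, S', hS'⟩ := hFj ω' hω'
      exact ⟨(S', fun _ => ⟨0, by omega⟩), fun h => absurd h hω⟩
  choose q hq using hcl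
  -- the variables
  set cube : Ω → Fin m → ℤ := fun ω i => ⌊(2 : ℝ) ^ k *
    eval (tp (t ω) (lpos (l ω) (t ω))) (G (W ω) (S ω i))⌋ with hcube
  have hchain : CH p (fun ω => (S ω, T ω, cube ω)) W ≤
      CH p T W + CH p j W + Real.log nc +
        CH p cube (fun ω => ((S ω, q ω), (j ω, (T ω, W ω)))) := by
    have h1 : CH p (fun ω => (S ω, T ω, cube ω)) W ≤
        CH p (fun ω => (cube ω, ((S ω, q ω), (j ω, T ω)))) W := by
      refine CH_mono_left hp0 ?_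
      intro ω ω' _ _ h2
      simp only [Prod.mk.injEq] at h2 ⊢
      exact ⟨h2.1.2.1.1, h2.1.2.2.2, h2.1.1⟩
    have h2 := CH_chain hp0 cube (fun ω => ((S ω, q ω), (j ω, T ω))) W
    have h3 := CH_chain hp0 (fun ω => (S ω, q ω)) (fun ω => (j ω, T ω)) W
    have h4 := CH_subadd hp0 j T W
    have h5 : CH p (fun ω => (S ω, q ω)) (fun ω => ((j ω, T ω), W ω)) ≤ Real.log nc := by
      have h6 := CH_le_card hp0 hp.sum_one (fun ω => (S ω, q ω))
        (fun ω => ((j ω, T ω), W ω)) (fun _ => Finset.univ) (fun ω _ => Finset.mem_univ _)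
      refine h6.trans (le_of_eq ?_)
      rw [Finset.card_univ, Ex_const hp.sum_one, hnc]
    have h7 : CH p cube (fun ω => (((S ω, q ω), (j ω, T ω)), W ω)) ≤
        CH p cube (fun ω => ((S ω, q ω), (j ω, (T ω, W ω)))) := by
      refine CH_mono_cond hp0 ?_
      intro ω ω' _ _ h8
      simp only [Prod.mk.injEq] at h8 ⊢
      exact ⟨h8.1.1, h8.1.2.1, h8.1.2.2, h8.2⟩
    linarith
  -- the cubes given the variables
  set V : Ω → ((Fin m → Fin N) × (Fin m → Fin N') × (Fin (m + 1) → Fin (m * E + m + 2))) ×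
      (ℝ × (τ × γ)) := fun ω => ((S ω, q ω), (j ω, (T ω, W ω))) with hV
  have hent : CH p cube V ≤ Ex p (fun ω => ((k * m : ℕ) : ℝ) * Real.log 2 + Real.log (j ω) +
      Real.log (ρ (W ω)) - m * Real.log (h (W ω))) + Real.log C₁ := by
    have h1 := CH_le_card hp0 hp.sum_one cube V
      (fun w => (Finset.univ.filter fun ω => 0 < p ω ∧ V ω = w).image cube)
      (fun ω hω => Finset.mem_image_of_mem _ (Finset.mem_filter.2 ⟨Finset.mem_univ _, hω, rfl⟩))
    refine h1.trans ?_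
    have h2 : Real.log C₁ = Ex p (fun _ => Real.log C₁) := (Ex_const hp.sum_one _).symm
    rw [h2, ← Ex_add]
    refine Ex_mono hp0 fun ω hω => ?_
    obtain ⟨hi0, hi1, hi2, hi3⟩ := hI ω hω
    obtain ⟨hj0, hj1⟩ := hGj ω hω
    obtain ⟨hq1, hq2⟩ := hq ω hω
    obtain ⟨hT0, hT1⟩ := ht01 ω hω
    -- the lines of the class
    set A : Finset Ω := Finset.univ.filter fun ω' => 0 < p ω' ∧ V ω' = V ω with hA
    have hAm : ∀ ω' ∈ A, 0 < p ω' ∧ S ω' = S ω ∧ q ω' = q ω ∧ j ω' = j ω ∧ T ω' = T ω ∧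
        W ω' = W ω ∧ t ω' = t ω := by
      intro ω' hω'
      obtain ⟨-, h3, h4⟩ := Finset.mem_filter.1 hω'
      rw [hV] at h4
      simp only [Prod.mk.injEq] at h4
      exact ⟨h3, h4.1.1, h4.1.2, h4.2.1, h4.2.2.1, h4.2.2.2,
        htT _ _ h3 hω h4.2.2.2 h4.2.2.1⟩
    have h3 : A.image cube = (A.image l).image (fun l' i => ⌊(2 : ℝ) ^ k *
        eval (tp (t ω) (lpos l' (t ω))) (G (W ω) (S ω i))⌋) := by
      rw [Finset.image_image]
      refine Finset.image_congr fun ω' hω' => ?_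
      obtain ⟨-, g1, -, -, g4, g5, g6⟩ := hAm ω' (Finset.mem_coe.1 hω')
      rw [hcube]
      simp only [Function.comp_apply, g1, g5, g6]
    have h4 := count_class (C₀ := C₀) hC₀ k (fun i => G (W ω) (S ω i))
      (fun i => F (W ω) ((q ω).1 i)) (fun i => hGd _ _) (fun i => hFd _ _) hi0 hi1 hi2 hT0 hT1 hj0
      (ρ := c * ρ (W ω)) (by positivity) (q ω).2 hq1 (A.image l) (l ω)
      (by
        intro l' hl' i
        obtain ⟨ω', hω', rfl⟩ := Finset.mem_image.1 hl'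
        obtain ⟨g0, g1, g2, g3, g4, g5, g6⟩ := hAm ω' hω'
        have h5 := hGc ω' ω g0 hω g5 g4 (S ω i)
        rw [g5, g6] at h5
        exact h5)
      (by
        intro l' hl' s hs0 hs1 i
        obtain ⟨ω', hω', rfl⟩ := Finset.mem_image.1 hl'
        obtain ⟨g0, g1, g2, g3, g4, g5, g6⟩ := hAm ω' hω'
        have h5 := hFc ω' ω g0 hω g5 s (by rw [g5]; exact hs0) (by rw [g5]; exact hs1)
          ((q ω).1 i)
        rw [g5] at h5
        exact h5)
      (by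
        intro l' hl'
        obtain ⟨ω', hω', rfl⟩ := Finset.mem_image.1 hl'
        obtain ⟨g0, g1, g2, g3, g4, g5, g6⟩ := hAm ω' hω'
        have h5 := (hGj ω' g0).2
        rw [g1, g3, g5, g6] at h5
        exact h5)
      (by
        intro l' hl' i
        obtain ⟨ω', hω', rfl⟩ := Finset.mem_image.1 hl'
        obtain ⟨g0, g1, g2, g3, g4, g5, g6⟩ := hAm ω' hω'
        have h5 := (hq ω' g0).2 i
        rw [g2, g5] at h5
        exact h5)
    rw [← h3, ← hdm] at h4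
    -- the main term
    have hhm : 0 < h (W ω) ^ m := by positivity
    obtain ⟨mt, hmt⟩ : ∃ mt : ℝ, mt = 2 ^ (k * m) * j ω * ρ (W ω) / h (W ω) ^ m := ⟨_, rfl⟩
    have hmt0 : 0 < mt := by rw [hmt]; positivity
    have h5 : (2 : ℝ) ^ (k * m) * j ω * (c * ρ (W ω)) / h (W ω) ^ m = c * mt := by
      rw [hmt]
      ring
    have h6 : (2 : ℝ) ^ (k * (m - 1)) ≤ c₀ * mt := by
      have h7 := hdom ω hω
      have h8 : (2 : ℝ) ^ (k * m) = 2 ^ (k * (m - 1)) * 2 ^ k := by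
        rw [← pow_add]
        congr 1
        obtain ⟨m', rfl⟩ : ∃ m', m = m' + 1 := ⟨m - 1, by omega⟩
        simp only [Nat.add_sub_cancel]
        ring
      have h9 : c₀ * mt = 2 ^ (k * (m - 1)) * (c₀ * (2 ^ k * j ω * ρ (W ω)) / h (W ω) ^ m) := by
        rw [hmt, h8]
        ring
      rw [h9]
      have h10 : 1 ≤ c₀ * (2 ^ k * j ω * ρ (W ω)) / h (W ω) ^ m := by
        rw [le_div_iff₀ hhm, one_mul]
        exact h7
      have h11 : (0 : ℝ) < 2 ^ (k * (m - 1)) := by positivity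
      nlinarith
    have h7 : (((A.image cube).card : ℕ) : ℝ) ≤ C₁ * mt := by
      refine h4.trans ?_
      rw [h5, hC₁]
      have h8 : C₀ * (dm * (c * mt) + 2 ^ (k * (m - 1))) ≤ C₀ * ((dm * c + c₀) * mt) := by
        refine mul_le_mul_of_nonneg_left ?_ (by linarith)
        nlinarith
      calc (2 : ℝ) ^ m * (C₀ * (dm * (c * mt) + 2 ^ (k * (m - 1))))
          ≤ 2 ^ m * (C₀ * ((dm * c + c₀) * mt)) := mul_le_mul_of_nonneg_left h8 (by positivity)
        _ = 2 ^ m * (C₀ * (dm * c + c₀)) * mt := by ring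
    have h8 : 0 < (A.image cube).card := by
      refine Finset.card_pos.2 ⟨cube ω, Finset.mem_image_of_mem _ ?_⟩
      exact Finset.mem_filter.2 ⟨Finset.mem_univ _, hω, rfl⟩
    have h9 : Real.log (((A.image cube).card : ℕ) : ℝ) ≤ Real.log (C₁ * mt) :=
      Real.log_le_log (by exact_mod_cast h8) h7
    have h10 : Real.log mt = ((k * m : ℕ) : ℝ) * Real.log 2 + Real.log (j ω) +
        Real.log (ρ (W ω)) - m * Real.log (h (W ω)) := by
      rw [hmt, Real.log_div (by positivity) hhm.ne', Real.log_mul (by positivity) hi3.ne',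
        Real.log_mul (by positivity) hj0.ne', Real.log_pow, Real.log_pow]
    rw [Real.log_mul (by linarith) hmt0.ne', h10] at h9
    refine h9.trans (le_of_eq ?_)
    ring
  linarith

end Pool.CNT
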