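import Pool.Agent.H95.GN.Lag
import Pool.Agent.H50.PW.Det

/-!
# CNT, preparations: good nodes of a polynomial, the Jacobian along a line

`good_nodes`: a polynomial of degree at most `D` which is at least `r` at some point of an interval
is at least `r / C` at `m + 1` of the `D + m + 1` equidistant points of the interval.
`dtx`: the Jacobian determinant in the space variables of `m` polynomials of space-time, and the
polynomial of its values along a line.
-/

set_option autoImplicit false

namespace Pool.CNT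

open Finset MvPolynomial
open Pool.Agent.H50.PW (jac totalDegree_pderiv_le)
open Pool.UNJ (natDegree_aeval_le eval_aeval_poly)

/-- Few nodes are bad. -/
theorem bad_nodes (D M : ℕ) (hM : 1 ≤ M) (q : Polynomial ℝ) (hq : q.natDegree ≤ D) {α h t r : ℝ}
    (hh : 0 < h) (ht0 : α ≤ t) (ht1 : t ≤ α + h) (hr : 0 < r) (hqt : r ≤ |q.eval t|) :
    ((range (M + 1)).filter fun n : ℕ =>
      |q.eval (α + h * ((n : ℝ) / M))| < r / (((D : ℝ) + 1) * (M : ℝ) ^ D)).card ≤ D := by
  classical
  by_contra hcon
  rw [not_le] at hcon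
  have hM0 : (0 : ℝ) < M := by exact_mod_cast hM
  obtain ⟨B, hB1, hB2⟩ := Finset.exists_subset_card_eq (Nat.succ_le_of_lt hcon)
  set v : ℕ → ℝ := fun n => α + h * ((n : ℝ) / M) with hv
  have hvd : ∀ i j : ℕ, v i - v j = h / M * ((i : ℝ) - j) := by
    intro i j
    rw [hv]
    field_simp
    ring
  have hinj : Set.InjOn v (B : Set ℕ) := by
    intro i _ j _ hij
    have h1 := hvd i j
    rw [hij, sub_self] at h1
    have h2 : (i : ℝ) - j = 0 := by
      rcases mul_eq_zero.1 h1.symm with h3 | h3
      · exact absurd h3 (by positivity)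
      · exact h3
    exact_mod_cast sub_eq_zero.1 h2
  have hdeg : q.degree < B.card := by
    rw [hB2]
    refine lt_of_le_of_lt Polynomial.degree_le_natDegree ?_
    exact_mod_cast Nat.lt_succ_of_le hq
  have h1 := Lagrange.eq_interpolate hinj hdeg
  have h2 : q.eval t = ∑ i ∈ B, q.eval (v i) * ∏ j ∈ B.erase i, ((t - v j) / (v i - v j)) := by
    conv_lhs => rw [h1]
    rw [Lagrange.interpolate_apply, Polynomial.eval_finsetSum]
    refine Finset.sum_congr rfl fun i _ => ?_
    rw [Polynomial.eval_mul, Polynomial.eval_C, Lagrange.basis, Polynomial.eval_prod]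
    congr 1
    refine Finset.prod_congr rfl fun j _ => ?_
    rw [Lagrange.basisDivisor]
    simp only [Polynomial.eval_mul, Polynomial.eval_C, Polynomial.eval_sub, Polynomial.eval_X]
    rw [div_eq_inv_mul]
  have hmem : ∀ i ∈ B, i ≤ M := by
    intro i hi
    have := (Finset.mem_filter.1 (hB1 hi)).1
    rw [Finset.mem_range] at this
    omega
  have h3 : ∀ i ∈ B, |∏ j ∈ B.erase i, ((t - v j) / (v i - v j))| ≤ (M : ℝ) ^ D := by
    intro i hi
    rw [Finset.abs_prod]
    have h4 : ∀ j ∈ B.erase i, |(t - v j) / (v i - v j)| ≤ M := by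
      intro j hj
      obtain ⟨hne, hjB⟩ := Finset.mem_erase.1 hj
      have h5 : |t - v j| ≤ h := by
        have h6 : (j : ℝ) / M ≤ 1 := by
          rw [div_le_one hM0]
          exact_mod_cast hmem j hjB
        have h7 : 0 ≤ (j : ℝ) / M := by positivity
        have h8 := mul_le_mul_of_nonneg_left h6 hh.le
        have h9 := mul_nonneg hh.le h7
        rw [hv, abs_le]
        simp only
        constructor <;> linarith
      have h6 : h / M ≤ |v i - v j| := by
        rw [hvd, abs_mul, abs_of_pos (by positivity : 0 < h / (M : ℝ))]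
        have h7 : (1 : ℝ) ≤ |(i : ℝ) - j| := by
          have h8 : (1 : ℤ) ≤ |(i : ℤ) - j| :=
            Int.one_le_abs (sub_ne_zero.2 (by exact_mod_cast (Ne.symm hne)))
          exact_mod_cast h8
        have h8 : 0 < h / (M : ℝ) := by positivity
        nlinarith
      have h7 : 0 < |v i - v j| := lt_of_lt_of_le (by positivity) h6
      rw [abs_div, div_le_iff₀ h7]
      refine h5.trans ?_
      have h8 : h = M * (h / M) := by field_simp
      exact (le_of_eq h8).trans (mul_le_mul_of_nonneg_left h6 hM0.le)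
    refine (Finset.prod_le_prod (fun j _ => abs_nonneg _) h4).trans (le_of_eq ?_)
    rw [Finset.prod_const, Finset.card_erase_of_mem hi, hB2]
    rfl
  have hC : (0 : ℝ) < ((D : ℝ) + 1) * (M : ℝ) ^ D := by positivity
  have hBne : B.Nonempty := Finset.card_pos.1 (by omega)
  have h5 : |q.eval t| < r := by
    rw [h2]
    refine lt_of_le_of_lt (Finset.abs_sum_le_sum_abs _ _) ?_
    have h6 : ∀ i ∈ B, |q.eval (v i) * ∏ j ∈ B.erase i, ((t - v j) / (v i - v j))| <
        r / ((D : ℝ) + 1) := by
      intro i hi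
      rw [abs_mul]
      have h7 := (Finset.mem_filter.1 (hB1 hi)).2
      have h8 := h3 i hi
      have hMD : (0 : ℝ) < (M : ℝ) ^ D := by positivity
      calc |q.eval (v i)| * |∏ j ∈ B.erase i, ((t - v j) / (v i - v j))|
          ≤ |q.eval (v i)| * (M : ℝ) ^ D := mul_le_mul_of_nonneg_left h8 (abs_nonneg _)
        _ < r / (((D : ℝ) + 1) * (M : ℝ) ^ D) * (M : ℝ) ^ D := mul_lt_mul_of_pos_right h7 hMD
        _ = r / ((D : ℝ) + 1) := by field_simp
    refine (Finset.sum_lt_sum_of_nonempty hBne h6).trans_le (le_of_eq ?_)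
    rw [Finset.sum_const, hB2, nsmul_eq_mul]
    push_cast
    field_simp
  linarith

/-- The constant of the good nodes. -/
noncomputable def cN (D m : ℕ) : ℝ := ((D : ℝ) + 1) * ((D + m + 1 : ℕ) : ℝ) ^ D

theorem one_le_cN (D m : ℕ) : 1 ≤ cN D m := by
  unfold cN
  have h1 : (1 : ℝ) ≤ ((D + m + 1 : ℕ) : ℝ) := by exact_mod_cast Nat.succ_le_succ (Nat.zero_le _)
  have h2 : (1 : ℝ) ≤ ((D + m + 1 : ℕ) : ℝ) ^ D := one_le_pow₀ h1
  have h3 : (0 : ℝ) ≤ D := Nat.cast_nonneg _
  nlinarith

/-- The node. -/
noncomputable def nod (D m : ℕ) (α h : ℝ) (n : ℕ) : ℝ := α + h * ((n : ℝ) / ((D + m + 1 : ℕ) : ℝ))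

/-- **Many nodes are good.** -/
theorem good_nodes (D m : ℕ) (q : Polynomial ℝ) (hq : q.natDegree ≤ D) {α h t r : ℝ}
    (hh : 0 < h) (ht0 : α ≤ t) (ht1 : t ≤ α + h) (hr : 0 < r) (hqt : r ≤ |q.eval t|) :
    ∃ e : Fin (m + 1) → Fin (D + m + 2), Function.Injective e ∧
      ∀ j, r / cN D m ≤ |q.eval (nod D m α h (e j))| := by
  classical
  have h1 := bad_nodes D (D + m + 1) (by omega) q hq hh ht0 ht1 hr hqt
  obtain ⟨Bd, hBd⟩ : ∃ Bd : Finset ℕ, Bd = (range (D + m + 1 + 1)).filter fun n : ℕ =>
      |q.eval (α + h * ((n : ℝ) / ((D + m + 1 : ℕ) : ℝ)))| <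
        r / (((D : ℝ) + 1) * ((D + m + 1 : ℕ) : ℝ) ^ D) := ⟨_, rfl⟩
  rw [← hBd] at h1
  have h2 : m + 1 ≤ ((range (D + m + 1 + 1)) \ Bd).card := by
    have h3 : Bd ⊆ range (D + m + 1 + 1) := by rw [hBd]; exact Finset.filter_subset _ _
    rw [Finset.card_sdiff_of_subset h3, Finset.card_range]
    omega
  obtain ⟨Gd, hG1, hG2⟩ := Finset.exists_subset_card_eq h2
  have hG3 : ∀ n ∈ Gd, n < D + m + 2 := by
    intro n hn
    have := (Finset.mem_sdiff.1 (hG1 hn)).1
    rw [Finset.mem_range] at this
    omega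
  refine ⟨fun j => ⟨(Gd.equivFinOfCardEq hG2).symm j, hG3 _ (Finset.coe_mem _)⟩, ?_, ?_⟩
  · intro i j hij
    have h4 := congrArg (fun x : Fin (D + m + 2) => (x : ℕ)) hij
    simp only at h4
    exact (Gd.equivFinOfCardEq hG2).symm.injective (Subtype.ext h4)
  · intro j
    have h4 := (Gd.equivFinOfCardEq hG2).symm j
    have h5 := (Finset.mem_sdiff.1 (hG1 ((Gd.equivFinOfCardEq hG2).symm j).2))
    by_contra hcon
    rw [not_le] at hcon
    refine h5.2 ?_
    rw [hBd, Finset.mem_filter]
    exact ⟨h5.1, hcon⟩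

/-! ### Polynomials of space-time -/

variable {m : ℕ}

/-- The point of space-time. -/
def tp (t : ℝ) (x : Fin m → ℝ) (o : Option (Fin m)) : ℝ := o.elim t x

/-- The polynomial at a fixed time. -/
noncomputable def tx (t : ℝ) (P : MvPolynomial (Option (Fin m)) ℝ) : MvPolynomial (Fin m) ℝ :=
  bind₁ (fun o : Option (Fin m) => o.elim (C t) X) P

theorem eval_bind {σ τ : Type} (L : σ → MvPolynomial τ ℝ) (q : MvPolynomial σ ℝ)
    (x : τ → ℝ) : eval x (bind₁ L q) = eval (fun k => eval x (L k)) q := by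
  induction q using MvPolynomial.induction_on with
  | C a => simp only [bind₁_C_right, eval_C]
  | add p q hp hq => rw [map_add, map_add, map_add, hp, hq]
  | mul_X p n hp => rw [map_mul, map_mul, map_mul, hp, bind₁_X_right, eval_X]

theorem eval_tx (t : ℝ) (P : MvPolynomial (Option (Fin m)) ℝ) (x : Fin m → ℝ) :
    eval x (tx t P) = eval (tp t x) P := by
  unfold tx
  rw [eval_bind]
  congr 2
  funext o
  rcases o with _ | k
  · simp [tp]
  · simp [tp]

theorem degree_tx (t : ℝ) (P : MvPolynomial (Option (Fin m)) ℝ) :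
    (tx t P).totalDegree ≤ P.totalDegree := by
  unfold tx
  rw [← MvPolynomial.aeval_eq_bind₁, MvPolynomial.aeval_def, MvPolynomial.eval₂_eq]
  refine (totalDegree_finsetSum _ _).trans (Finset.sup_le fun α hα => ?_)
  refine (totalDegree_mul _ _).trans ?_
  have h1 : (algebraMap ℝ (MvPolynomial (Fin m) ℝ) (MvPolynomial.coeff α P)).totalDegree = 0 :=
    totalDegree_C _
  rw [h1, zero_add]
  refine (totalDegree_finsetProd _ _).trans ?_
  refine le_trans (Finset.sum_le_sum fun i _ => ?_) (MvPolynomial.le_totalDegree hα)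
  refine (totalDegree_pow _ _).trans ?_
  have h2 : ((i : Option (Fin m)).elim (C t) X : MvPolynomial (Fin m) ℝ).totalDegree ≤ 1 := by
    rcases i with _ | k
    · simp
    · simp
  have := Nat.mul_le_mul_left (α i) h2
  simpa using this

theorem pderiv_tx (t : ℝ) (P : MvPolynomial (Option (Fin m)) ℝ) (j : Fin m) :
    pderiv j (tx t P) = tx t (pderiv (some j) P) := by
  unfold tx
  induction P using MvPolynomial.induction_on with
  | C a => simp
  | add p q hp hq => simp only [map_add, hp, hq]
  | mul_X p n hp =>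
    rw [map_mul, bind₁_X_right, Derivation.leibniz, Derivation.leibniz, hp]
    simp only [smul_eq_mul, map_add, map_mul, bind₁_X_right]
    congr 1
    rcases n with _ | k
    · simp
    · by_cases hk : k = j
      · subst hk; simp
      · rw [Option.elim_some, pderiv_X_of_ne hk, pderiv_X_of_ne (by simpa using hk)]
        simp

/-- The Jacobian determinant in the space variables, as a polynomial of space-time. -/
noncomputable def dP (F : Fin m → MvPolynomial (Option (Fin m)) ℝ) :
    MvPolynomial (Option (Fin m)) ℝ :=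
  (Matrix.of fun i j => pderiv (some j) (F i)).det

theorem eval_dP (F : Fin m → MvPolynomial (Option (Fin m)) ℝ) (t : ℝ) (x : Fin m → ℝ) :
    eval (tp t x) (dP F) = (jac (fun i => tx t (F i)) x).det := by
  rw [dP, RingHom.map_det]
  congr 1
  ext i j
  simp only [RingHom.mapMatrix_apply, Matrix.map_apply, Matrix.of_apply, jac]
  rw [pderiv_tx, eval_tx]

theorem degree_dP {E : ℕ} (F : Fin m → MvPolynomial (Option (Fin m)) ℝ)
    (hF : ∀ i, (F i).totalDegree ≤ E) : (dP F).totalDegree ≤ m * E := by
  rw [dP, Matrix.det_apply']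
  refine (totalDegree_finsetSum _ _).trans (Finset.sup_le fun σ _ => ?_)
  refine (totalDegree_mul _ _).trans ?_
  have h1 : (((Equiv.Perm.sign σ : ℤ) : MvPolynomial (Option (Fin m)) ℝ)).totalDegree = 0 := by
    rcases Int.units_eq_one_or (Equiv.Perm.sign σ) with h | h
    · rw [h]; simp
    · rw [h]; simp
  rw [h1, zero_add]
  refine (totalDegree_finsetProd _ _).trans ?_
  refine (Finset.sum_le_card_nsmul _ _ E fun i _ => ?_).trans ?_
  · exact (totalDegree_pderiv_le _ _).trans (hF _)
  · simp

/-- The values along a line, as a polynomial of the time. -/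
noncomputable def lnP (u d : Fin m → ℝ) (P : MvPolynomial (Option (Fin m)) ℝ) : Polynomial ℝ :=
  MvPolynomial.aeval (fun o : Option (Fin m) => o.elim Polynomial.X
    fun i => Polynomial.C (u i) + Polynomial.X * Polynomial.C (d i)) P

theorem eval_lnP (u d : Fin m → ℝ) (P : MvPolynomial (Option (Fin m)) ℝ) (t : ℝ) :
    (lnP u d P).eval t = eval (tp t fun k => u k + t * d k) P := by
  unfold lnP
  rw [eval_aeval_poly]
  congr 2
  funext o
  rcases o with _ | k
  · simp [tp]
  · simp [tp]
    ring

theorem natDegree_lnP (u d : Fin m → ℝ) (P : MvPolynomial (Option (Fin m)) ℝ) {D : ℕ}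
    (h : P.totalDegree ≤ D) : (lnP u d P).natDegree ≤ D := by
  refine natDegree_aeval_le P _ (fun o => ?_) h
  rcases o with _ | k
  · simp
  · simp only [Option.elim_some]
    refine (Polynomial.natDegree_add_le _ _).trans (max_le ?_ ?_)
    · simp
    · refine Polynomial.natDegree_mul_le.trans ?_
      rw [Polynomial.natDegree_X, Polynomial.natDegree_C]

end Pool.CNT
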