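import Pool.Agent.H53.BE.Cnt
import Pool.Agent.H85.CNT.CntP

/-!
# CNT': the count of a label, final form
-/

set_option autoImplicit false

namespace Pool.CNT

/-- The pure count of `helper85` is the one which `cnt` uses. -/
theorem cntQ (m d : ℕ) : CntQ m d := cntP m d

/-- **CNT'**: `cnt` without hypothesis. -/
theorem cnt' (m N N' E : ℕ) (hm : 1 ≤ m) (c₀ : ℝ) (hc₀ : 0 ≤ c₀) :
    type_of% (cnt m N N' E hm (cntQ m E) c₀ hc₀) :=
  cnt m N N' E hm (cntQ m E) c₀ hc₀

end Pool.CNT
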