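import Pool.Agent.H53.BE.Krm

/-!
# FIL: a law on the lines of a body which fills the section at one time

`fil_law`: for a set of lines of bounded degree and a time `t₀` there is a finite law on the lines
of the doubled set, with weights `w ω s`, such that the cells of the point at the time `s`,
weighted by `w ω s`, have mass at most `C / n`, `n` the number of cells of the section at `t₀`,
and such that the weights are, in the logarithmic mean over the times, at least as large as the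
polynomials of degree at most `m` with value one at `t₀`.  In particular the law of the cell at
`t₀` is at most `C / n` (`w ω t₀ = 1`).

`fil_ent`: the entropy of the cell at the time `s` is at least `log n + E log (w ω s + κ) - C`.
`fil`: the mean over the times of the entropies is at least `log n - C`.
-/

set_option autoImplicit false

namespace Pool.FIL

open Finset Real MvPolynomial MeasureTheory
open Pool.Agent.H49.Ent Pool.Agent.H32.Dense Pool.STK Pool.KA Pool.BE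
open Pool.SH (Ln lpos lsec)
open Pool.Agent.H50.PW (good measurableSet_good jac Yi Hes card_mul_le_volume)

variable {m M : ℕ}

/-- The dyadic cube. -/
def cub (J : ℕ) (Q : Fin m ⊕ Fin m → ℤ) : Set (Fin m ⊕ Fin m → ℝ) :=
  {x | ∀ a, ⌊(2 : ℝ) ^ J * x a⌋ = Q a}

theorem cub_meas (J : ℕ) (Q : Fin m ⊕ Fin m → ℤ) : MeasurableSet (cub J Q) := by
  unfold cub
  rw [Set.ofPred_forall]
  refine MeasurableSet.iInter fun a => ?_
  have h : Measurable fun x : Fin m ⊕ Fin m → ℝ => ⌊(2 : ℝ) ^ J * x a⌋ :=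
    Int.measurable_floor.comp ((measurable_pi_apply a).const_mul _)
  exact h (measurableSet_singleton (Q a))

theorem cub_near {J : ℕ} {Q : Fin m ⊕ Fin m → ℤ} {x x' : Fin m ⊕ Fin m → ℝ} (h : x ∈ cub J Q)
    (h' : x' ∈ cub J Q) (a : Fin m ⊕ Fin m) : |x' a - x a| ≤ 1 / 2 ^ J := by
  have hJ : (0 : ℝ) < 2 ^ J := by positivity
  have h1 : (Q a : ℝ) ≤ 2 ^ J * x a := by rw [← h a]; exact Int.floor_le _
  have h2 : 2 ^ J * x a < (Q a : ℝ) + 1 := by rw [← h a]; exact Int.lt_floor_add_one _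
  have h3 : (Q a : ℝ) ≤ 2 ^ J * x' a := by rw [← h' a]; exact Int.floor_le _
  have h4 : 2 ^ J * x' a < (Q a : ℝ) + 1 := by rw [← h' a]; exact Int.lt_floor_add_one _
  rw [le_div_iff₀ hJ, ← abs_of_pos hJ, ← abs_mul, abs_le]
  constructor
  · nlinarith
  · nlinarith

/-- Additivity over cubes. -/
theorem ar_sum (P : MvPolynomial (Fin m ⊕ Fin m) ℝ) (s : ℝ) (J : ℕ)
    (T : Finset (Fin m ⊕ Fin m → ℤ)) :
    ar P s (⋃ Q ∈ T, cub J Q) = ∑ Q ∈ T, ar P s (cub J Q) := by
  unfold ar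
  have h1 : (⋃ Q ∈ T, cub J Q) ∩ good P Set.univ = ⋃ Q ∈ T, (cub J Q ∩ good P Set.univ) := by
    rw [Set.iUnion₂_inter]
  rw [h1, lintegral_biUnion_finset]
  · intro Q _ Q' _ hne
    refine Set.disjoint_left.2 fun x hx hx' => hne ?_
    funext a
    rw [← hx.1 a, ← hx'.1 a]
  · exact fun Q _ => (cub_meas J Q).inter (measurableSet_good P .univ)

/-- The line of the pair (point at the time `t₀`, direction). -/
noncomputable def lin0 (t₀ : ℝ) (x : Fin m ⊕ Fin m → ℝ) : Ln m :=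
  (fun k => x (Sum.inl k) - t₀ * x (Sum.inr k), fun k => x (Sum.inr k))

theorem lpos_lin0 (t₀ s : ℝ) (x : Fin m ⊕ Fin m → ℝ) (k : Fin m) :
    lpos (lin0 t₀ x) s k = x (Sum.inl k) + (s - t₀) * x (Sum.inr k) := by
  unfold lpos lin0
  ring

/-- The number of cells of the section and the volume. -/
theorem sec_vol (p : ℕ) (J : ℕ) (hJ2 : 2 ≤ J) (f : Fin M → MvPolynomial (Fin m ⊕ Fin m) ℝ)
    (hL : LpJ J f) (t : ℝ) (ht0 : 0 ≤ t) (ht1 : t ≤ 1) :
    ((lsec J t (LLn f 1)).ncard : ENNReal) * ENNReal.ofReal (1 / 2 ^ J) ^ m ≤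
      volume {y : Fin m → ℝ | y ∈ Set.univ ∧
        ∃ A : Fin m → ℝ, ‖A‖ ≤ 1 ∧ eval (Sum.elim y A) (bind₁ (thr m t) (pol p f)) ≤ 1} := by
  classical
  have hfin : (lsec J t (LLn f 1)).Finite :=
    lsec_fin ht0 ht1 ((LLn_mono f one_le_two).trans (LLn_sub f))
  have hJ : (0 : ℝ) < 2 ^ J := by positivity
  have h2J : (2 : ℝ) / 2 ^ J ≤ 1 / 2 := by
    have h4 : (4 : ℝ) ≤ 2 ^ J := by
      calc (4 : ℝ) = 2 ^ 2 := by norm_num
        _ ≤ 2 ^ J := pow_le_pow_right₀ (by norm_num) hJ2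
    rw [div_le_div_iff₀ hJ (by norm_num)]
    linarith
  obtain ⟨𝓥, h𝓥⟩ : ∃ 𝓥 : Finset (Fin m → ℤ), 𝓥 = hfin.toFinset := ⟨_, rfl⟩
  have hcv : (lsec J t (LLn f 1)).ncard = 𝓥.card := by
    rw [h𝓥, Set.ncard_eq_toFinset_card _ hfin]
  have h1 := card_mul_le_volume (𝓥.image (fun v k => (v k : ℝ) * (1 / 2 ^ J)))
    (δ := 1 / 2 ^ J) (by positivity) (cells_sep J 𝓥)
    {y : Fin m → ℝ | y ∈ Set.univ ∧
        ∃ A : Fin m → ℝ, ‖A‖ ≤ 1 ∧ eval (Sum.elim y A) (bind₁ (thr m t) (pol p f)) ≤ 1} (by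
      intro D hD y' hy'
      obtain ⟨v, hv, rfl⟩ := Finset.mem_image.1 hD
      rw [h𝓥, Set.Finite.mem_toFinset] at hv
      obtain ⟨l, hl, rfl⟩ := hv
      rw [Metric.mem_ball] at hy'
      have h2 := near_cell hy'
      have h2' : ∀ k, |(y' k - t * l.2 k) - l.1 k| ≤ 2 / 2 ^ J := by
        intro k
        have e : (y' k - t * l.2 k) - l.1 k = y' k - lpos l t k := by
          unfold lpos
          ring
        rw [e]
        exact h2 k
      refine ⟨Set.mem_univ _, l.2, ?_, ?_⟩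
      · rw [pi_norm_le_iff_of_nonneg zero_le_one]
        exact fun k => hl.1.2 k
      · rw [eval_thr]
        refine pol_le p f _ (fun i => ?_) ?_
        · exact hL l (fun k => y' k - t * l.2 k, l.2) hl h2'
            (fun k => by rw [sub_self, abs_zero]; positivity) i
        · rintro (k | k)
          · simp only [Sum.elim_inl]
            have := hl.1.2 k
            linarith only [this]
          · simp only [Sum.elim_inr]
            have h3 := h2' k
            have h4 := hl.1.1 k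
            have e : y' k - t * l.2 k = ((y' k - t * l.2 k) - l.1 k) + l.1 k := by ring
            rw [e]
            refine (abs_add_le _ _).trans ?_
            linarith only [h3, h4, h2J])
  rw [Finset.card_image_of_injective 𝓥 (cells_inj J), Fintype.card_fin, ← hcv] at h1
  exact h1

/-- **(FIL), the law.** -/
theorem fil_law (m M E : ℕ) : ∃ C : ℝ, 1 ≤ C ∧ ∀ (J : ℕ)
    (f : Fin M → MvPolynomial (Fin m ⊕ Fin m) ℝ), (∀ i, (f i).totalDegree ≤ E) → LpJ J f →
    (LLn f 1).Nonempty → ∀ t₀ : ℝ, 0 ≤ t₀ → t₀ ≤ 1 →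
    ∃ (Ω : Type) (_ : Fintype Ω) (p : Ω → ℝ) (l : Ω → Ln m) (w : Ω → ℝ → ℝ),
      IsLaw p ∧ (∀ ω, 0 < p ω) ∧ (∀ ω, l ω ∈ LLn f 2) ∧ (∀ ω s, 0 ≤ w ω s) ∧
      (∀ ω, w ω t₀ = 1) ∧
      (∀ s : ℝ, 0 ≤ s → s ≤ 1 → ∀ c : Fin m → ℤ,
        (∑ ω, if fl J (lpos (l ω) s) = c then p ω * w ω s else 0) ≤
          C / (lsec J t₀ (LLn f 1)).ncard) ∧
      (∀ ω (ι : Type) [Fintype ι] (τ σ : ι → ℝ) (κ c : ℝ), (∀ i, 0 ≤ τ i) → 0 < κ →
        (∀ q : Polynomial ℝ, q.natDegree ≤ m → q.eval t₀ = 1 →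
          c ≤ ∑ i, τ i * Real.log (|q.eval (σ i)| + κ)) →
        c ≤ ∑ i, τ i * Real.log (w ω (σ i) + κ)) := by
  classical
  obtain ⟨p, hp1, hp⟩ := exists_pow m M
  obtain ⟨d, hd⟩ : ∃ d : ℕ, d = 2 * p * (E + 1) := ⟨_, rfl⟩
  have hd1 : 1 ≤ d := by rw [hd]; exact Nat.succ_le_of_lt (by positivity)
  obtain ⟨N, hN⟩ : ∃ N : ℕ, N = (d + 1) ^ (m + m) := ⟨_, rfl⟩
  have h26 : (1 : ℝ) ≤ 26 ^ m := one_le_pow₀ (by norm_num)
  have hN5 : (0 : ℝ) ≤ N * 5 ^ m := by positivity
  refine ⟨26 ^ m + N * 5 ^ m, by linarith, ?_⟩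
  intro J f hf hL hne t₀ ht0 ht1
  have hfin : (lsec J t₀ (LLn f 1)).Finite :=
    lsec_fin ht0 ht1 ((LLn_mono f one_le_two).trans (LLn_sub f))
  obtain ⟨n, hn⟩ : ∃ n : ℕ, n = (lsec J t₀ (LLn f 1)).ncard := ⟨_, rfl⟩
  have hn1 : 1 ≤ n := by
    rw [hn]
    exact (Set.ncard_pos hfin).2 (hne.image _)
  have hn0 : (0 : ℝ) < n := by exact_mod_cast hn1
  rw [← hn]
  rcases Nat.lt_or_ge J 2 with hJ2 | hJ2
  · -- few digits
    obtain ⟨l, hl⟩ := hne
    refine ⟨Unit, inferInstance, fun _ => 1, fun _ => l, fun _ _ => 1,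
      ⟨fun _ => zero_le_one, by simp⟩, fun _ => one_pos, fun _ => LLn_mono f one_le_two hl,
      fun _ _ => zero_le_one, fun _ => rfl, ?_, ?_⟩
    · intro s _ _ c
      have h2 : n ≤ 26 ^ m := by
        rw [hn]
        refine (lsec_box ht0 ht1 ((LLn_mono f one_le_two).trans (LLn_sub f))).2.trans ?_
        refine Nat.pow_le_pow_left ?_ m
        have : J ≤ 1 := by omega
        calc 13 * 2 ^ J ≤ 13 * 2 ^ 1 := Nat.mul_le_mul_left _ (Nat.pow_le_pow_right (by norm_num) this)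
          _ = 26 := by norm_num
      have h2' : (n : ℝ) ≤ 26 ^ m := by exact_mod_cast h2
      have h3 : (1 : ℝ) ≤ (26 ^ m + N * 5 ^ m) / n := by
        rw [le_div_iff₀ hn0]
        linarith
      refine le_trans ?_ h3
      simp only [Finset.univ_unique, Finset.sum_singleton, mul_one]
      split_ifs <;> norm_num
    · intro ω ι _ τ σ κ c _ _ h
      have h1 := h 1 (by simp) (by simp)
      simpa using h1
  have hJ : (0 : ℝ) < 2 ^ J := by positivity
  obtain ⟨P, hP⟩ : ∃ P : MvPolynomial (Fin m ⊕ Fin m) ℝ, P = bind₁ (thr m t₀) (pol p f) :=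
    ⟨_, rfl⟩
  have hPd : P.totalDegree ≤ d := by
    rw [hP, hd]
    exact (Pool.Agent.H50.PW.totalDegree_bind₁_le _ (deg_thr t₀) _).trans (deg_pol p E f hf)
  have hPe : ∀ x : Fin m ⊕ Fin m → ℝ, eval x P =
      eval (Sum.elim (lin0 t₀ x).2 (lin0 t₀ x).1) (pol p f) := by
    intro x
    have e : x = Sum.elim (fun k => x (Sum.inl k)) (fun k => x (Sum.inr k)) := by
      funext b
      rcases b with k | k <;> rfl
    conv_lhs => rw [e]
    rw [hP, eval_thr]
    rfl
  have hP0 : ∀ x, 0 ≤ eval x P := fun x => by rw [hPe]; exact pol_nonneg p f _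
  have hgood : ∀ x ∈ good P Set.univ, lin0 t₀ x ∈ LLn f 2 := by
    intro x hx
    have h1 := hx.2.2.1
    rw [Fintype.card_fin, hPe] at h1
    obtain ⟨g1, g2⟩ := pol_ge p hp hp1 f _ h1
    exact ⟨⟨fun k => g2 (Sum.inr k), fun k => g2 (Sum.inl k)⟩, g1⟩
  have hbd : ∀ x ∈ good P Set.univ, ∀ a, |x a| ≤ 4 := by
    intro x hx a
    have h1 := (hgood x hx).1
    rcases a with k | k
    · have h2 := h1.1 k
      have h3 := h1.2 k
      simp only [lin0] at h2 h3
      have e : x (Sum.inl k) = (x (Sum.inl k) - t₀ * x (Sum.inr k)) + t₀ * x (Sum.inr k) := by ring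
      rw [e]
      refine (abs_add_le _ _).trans ?_
      rw [abs_mul, abs_of_nonneg ht0]
      have h4 : t₀ * |x (Sum.inr k)| ≤ 1 * 2 := mul_le_mul ht1 h3 (abs_nonneg _) zero_le_one
      linarith
    · have h3 := h1.2 k
      simp only [lin0] at h3
      linarith
  -- the volume of the unit ball
  obtain ⟨vB, hvB⟩ : ∃ vB : ENNReal, vB = volume (Metric.closedBall (0 : Fin m → ℝ) 1) := ⟨_, rfl⟩
  have hvB0 : vB ≠ 0 := by
    rw [hvB]
    exact (Metric.measure_closedBall_pos volume _ one_pos).ne'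
  have hvBt : vB ≠ ⊤ := by rw [hvB]; exact (isCompact_closedBall _ _).measure_lt_top.ne
  -- finiteness
  have harfin : ∀ (K : Set (Fin m ⊕ Fin m → ℝ)) (s : ℝ), MeasurableSet K → ar P s K ≠ ⊤ := by
    intro K s hK
    refine ne_top_of_le_ne_top ?_ (ar_up P hd1 hPd s K hK
      (Metric.closedBall (0 : Fin m → ℝ) (4 + |s| * 4)) ?_)
    · refine ENNReal.mul_ne_top (by exact_mod_cast ENNReal.natCast_ne_top _)
        (ENNReal.mul_ne_top (isCompact_closedBall _ _).measure_lt_top.ne ?_)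
      rw [← hvB]
      exact hvBt
    · intro x hx
      rw [mem_closedBall_zero_iff, pi_norm_le_iff_of_nonneg (by positivity)]
      intro k
      rw [Real.norm_eq_abs]
      refine (abs_add_le _ _).trans ?_
      rw [abs_mul]
      have h1 := hbd x hx.2 (Sum.inl k)
      have h2 := mul_le_mul_of_nonneg_left (hbd x hx.2 (Sum.inr k)) (abs_nonneg s)
      linarith
  -- the cubes
  obtain ⟨𝓠, h𝓠⟩ : ∃ 𝓠 : Finset (Fin m ⊕ Fin m → ℤ),
      𝓠 = (Fintype.piFinset fun _ : Fin m ⊕ Fin m => Finset.Icc (-(5 * 2 ^ J) : ℤ) (5 * 2 ^ J)) :=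
    ⟨_, rfl⟩
  have hcov : good P Set.univ ⊆ ⋃ Q ∈ 𝓠, cub J Q := by
    intro x hx
    rw [Set.mem_iUnion₂]
    refine ⟨fun a => ⌊(2 : ℝ) ^ J * x a⌋, ?_, fun a => rfl⟩
    rw [h𝓠, Fintype.mem_piFinset]
    intro a
    rw [Finset.mem_Icc]
    have h1 := abs_le.1 (hbd x hx a)
    have hJ1 : (1 : ℝ) ≤ 2 ^ J := one_le_pow₀ (by norm_num)
    constructor
    · rw [Int.le_floor]
      push_cast
      nlinarith
    · have h2 : ⌊(2 : ℝ) ^ J * x a⌋ < 5 * 2 ^ J := by
        rw [Int.floor_lt]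
        push_cast
        nlinarith
      exact h2.le
  obtain ⟨𝓡, h𝓡⟩ : ∃ 𝓡 : Finset (Fin m ⊕ Fin m → ℤ),
      𝓡 = 𝓠.filter (fun Q => ar P 0 (cub J Q) ≠ 0) := ⟨_, rfl⟩
  have h𝓡0 : ∀ Q : {Q // Q ∈ 𝓡}, ar P 0 (cub J Q.1) ≠ 0 := by
    rintro ⟨Q, hQ⟩
    rw [h𝓡, Finset.mem_filter] at hQ
    exact hQ.2
  obtain ⟨a, ha⟩ : ∃ a : {Q // Q ∈ 𝓡} → ℝ → ℝ, a = fun Q s => (ar P s (cub J Q.1)).toReal :=
    ⟨_, rfl⟩
  have ha0 : ∀ Q, 0 < a Q 0 := by
    intro Q
    rw [ha]
    exact ENNReal.toReal_pos (h𝓡0 Q) (harfin _ _ (cub_meas J Q.1))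
  have hann : ∀ Q s, 0 ≤ a Q s := by
    intro Q s
    rw [ha]
    exact ENNReal.toReal_nonneg
  obtain ⟨Mr, hMr⟩ : ∃ Mr : ℝ, Mr = ∑ Q, a Q 0 := ⟨_, rfl⟩
  -- the total mass
  have hMlow : (n : ENNReal) * ENNReal.ofReal (1 / 2 ^ J) ^ m * vB ≤ ENNReal.ofReal Mr := by
    have h1 := ar_low P hP0
    have h2 := sec_vol p J hJ2 f hL t₀ ht0 ht1
    rw [← hn, ← hP] at h2
    have h3 : ar P 0 Set.univ ≤ ∑ Q ∈ 𝓠, ar P 0 (cub J Q) := by
      rw [← ar_sum]
      unfold ar
      refine lintegral_mono_set ?_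
      rintro x ⟨-, hx⟩
      exact ⟨hcov hx, hx⟩
    have h4 : ∑ Q ∈ 𝓠, ar P 0 (cub J Q) = ∑ Q ∈ 𝓡, ar P 0 (cub J Q) := by
      rw [h𝓡, Finset.sum_filter]
      refine Finset.sum_congr rfl fun Q _ => ?_
      by_cases h : ar P 0 (cub J Q) = 0
      · rw [h, if_neg (by simp)]
      · rw [if_pos h]
    have h5 : ∑ Q ∈ 𝓡, ar P 0 (cub J Q) = ENNReal.ofReal Mr := by
      rw [hMr, ENNReal.ofReal_sum_of_nonneg fun Q _ => hann Q 0, ← Finset.sum_coe_sort 𝓡]
      refine Finset.sum_congr rfl fun Q _ => ?_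
      rw [ha]
      exact (ENNReal.ofReal_toReal (harfin _ _ (cub_meas J Q.1))).symm
    rw [← h5, ← h4]
    refine le_trans ?_ h3
    refine le_trans ?_ h1
    rw [← hvB, mul_comm vB]
    exact mul_le_mul_left h2 vB
  have hMpos : 0 < Mr := by
    have h1 : (0 : ENNReal) < ENNReal.ofReal Mr := by
      refine lt_of_lt_of_le ?_ hMlow
      refine ENNReal.mul_pos (ENNReal.mul_pos ?_ ?_).ne' hvB0
      · exact_mod_cast (by omega : n ≠ 0)
      · refine pow_ne_zero m ?_
        rw [Ne, ENNReal.ofReal_eq_zero, not_le]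
        positivity
    exact ENNReal.ofReal_pos.1 h1
  -- the representatives
  have hrep : ∀ Q : {Q // Q ∈ 𝓡}, ∃ x, x ∈ cub J Q.1 ∩ good P Set.univ := by
    intro Q
    by_contra hcon
    push Not at hcon
    refine h𝓡0 Q ?_
    unfold ar
    have h1 : cub J Q.1 ∩ good P Set.univ = ∅ := Set.eq_empty_of_forall_notMem hcon
    rw [h1, Measure.restrict_empty, lintegral_zero_measure]
  choose x hx using hrep
  refine ⟨{Q // Q ∈ 𝓡}, inferInstance, fun Q => a Q 0 / Mr, fun Q => lin0 t₀ (x Q),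
    fun Q s => a Q (s - t₀) / a Q 0, ⟨fun Q => div_nonneg (hann Q 0) hMpos.le, ?_⟩,
    fun Q => div_pos (ha0 Q) hMpos, fun Q => hgood _ (hx Q).2,
    fun Q s => div_nonneg (hann Q _) (hann Q _), fun Q => ?_, ?_, ?_⟩
  · rw [← Finset.sum_div, ← hMr, div_self hMpos.ne']
  · show a Q (t₀ - t₀) / a Q 0 = 1
    rw [sub_self, div_self (ha0 Q).ne']
  · -- the mass of a cell
    intro s hs0 hs1 c
    have h1 : (∑ Q : {Q // Q ∈ 𝓡}, if fl J (lpos (lin0 t₀ (x Q)) s) = c then
        a Q 0 / Mr * (a Q (s - t₀) / a Q 0) else 0) =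
        (∑ Q : {Q // Q ∈ 𝓡}, if fl J (lpos (lin0 t₀ (x Q)) s) = c then a Q (s - t₀) else 0) /
          Mr := by
      rw [Finset.sum_div]
      refine Finset.sum_congr rfl fun Q _ => ?_
      have := (ha0 Q).ne'
      split_ifs
      · field_simp
      · rw [zero_div]
    rw [h1, div_le_div_iff₀ hMpos hn0]
    -- the cubes over the cell
    obtain ⟨T, hT⟩ : ∃ T : Finset (Fin m ⊕ Fin m → ℤ), T = (Finset.univ.filter
      fun Q : {Q // Q ∈ 𝓡} => fl J (lpos (lin0 t₀ (x Q)) s) = c).image (fun Q => Q.1) := ⟨_, rfl⟩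
    have h2 : (∑ Q : {Q // Q ∈ 𝓡}, if fl J (lpos (lin0 t₀ (x Q)) s) = c then
        a Q (s - t₀) else 0) = (ar P (s - t₀) (⋃ Q ∈ T, cub J Q)).toReal := by
      rw [ar_sum, ENNReal.toReal_sum fun Q _ => harfin _ _ (cub_meas J Q), hT,
        Finset.sum_image fun Q _ Q' _ h => Subtype.ext h, ← Finset.sum_filter]
      refine Finset.sum_congr rfl fun Q _ => ?_
      rw [ha]
    have h3 : ar P (s - t₀) (⋃ Q ∈ T, cub J Q) ≤
        (N : ENNReal) * (ENNReal.ofReal (5 * (1 / 2 ^ J)) ^ m * vB) := by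
      have h4 := ar_up P hd1 hPd (s - t₀) (⋃ Q ∈ T, cub J Q)
        (Finset.measurableSet_biUnion _ fun Q _ => cub_meas J Q)
        (Set.Icc (fun k => ((c k : ℝ) - 2) * (1 / 2 ^ J)) (fun k => ((c k : ℝ) + 3) * (1 / 2 ^ J)))
        (by
          rintro y ⟨hy, hyg⟩
          rw [Set.mem_iUnion₂] at hy
          obtain ⟨Q, hQ, hyQ⟩ := hy
          rw [hT, Finset.mem_image] at hQ
          obtain ⟨Q, hQ, rfl⟩ := hQ
          rw [Finset.mem_filter] at hQ
          have hc := hQ.2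
          have key : ∀ k, |(y (Sum.inl k) + (s - t₀) * y (Sum.inr k)) -
              lpos (lin0 t₀ (x Q)) s k| ≤ 2 * (1 / 2 ^ J) := by
            intro k
            rw [lpos_lin0]
            have e : y (Sum.inl k) + (s - t₀) * y (Sum.inr k) -
                (x Q (Sum.inl k) + (s - t₀) * x Q (Sum.inr k)) =
                (y (Sum.inl k) - x Q (Sum.inl k)) +
                  (s - t₀) * (y (Sum.inr k) - x Q (Sum.inr k)) := by ring
            rw [e]
            refine (abs_add_le _ _).trans ?_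
            rw [abs_mul]
            have g1 := cub_near (hx Q).1 hyQ (Sum.inl k)
            have g2 := cub_near (hx Q).1 hyQ (Sum.inr k)
            have g3 : |s - t₀| ≤ 1 := by rw [abs_le]; constructor <;> linarith
            have g4 : |s - t₀| * |y (Sum.inr k) - x Q (Sum.inr k)| ≤ 1 * (1 / 2 ^ J) :=
              mul_le_mul g3 g2 (abs_nonneg _) zero_le_one
            linarith
          have hδ : (0 : ℝ) < 1 / 2 ^ J := by positivity
          have key2 : ∀ k, (c k : ℝ) * (1 / 2 ^ J) ≤ lpos (lin0 t₀ (x Q)) s k ∧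
              lpos (lin0 t₀ (x Q)) s k ≤ ((c k : ℝ) + 1) * (1 / 2 ^ J) := by
            intro k
            have e : fl J (lpos (lin0 t₀ (x Q)) s) k = ⌊2 ^ J * lpos (lin0 t₀ (x Q)) s k⌋ := rfl
            have e2 := congrFun hc k
            rw [e] at e2
            have g1 := Int.floor_le (2 ^ J * lpos (lin0 t₀ (x Q)) s k)
            have g2 := Int.lt_floor_add_one (2 ^ J * lpos (lin0 t₀ (x Q)) s k)
            rw [e2] at g1 g2
            rw [mul_one_div, mul_one_div, div_le_iff₀ hJ, le_div_iff₀ hJ]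
            constructor
            · linarith
            · linarith
          constructor
          · intro k
            have g1 := abs_le.1 (key k)
            have g2 := key2 k
            simp only
            nlinarith
          · intro k
            have g1 := abs_le.1 (key k)
            have g2 := key2 k
            simp only
            nlinarith)
      refine h4.trans (le_of_eq ?_)
      rw [← hN, ← hvB, Real.volume_Icc_pi]
      congr 2
      have h5 : ∀ k : Fin m, ENNReal.ofReal (((c k : ℝ) + 3) * (1 / 2 ^ J) -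
          ((c k : ℝ) - 2) * (1 / 2 ^ J)) = ENNReal.ofReal (5 * (1 / 2 ^ J)) := by
        intro k
        congr 1
        ring
      rw [Finset.prod_congr rfl fun k _ => h5 k, Finset.prod_const, Finset.card_univ,
        Fintype.card_fin]
    rw [h2]
    obtain ⟨S, hS⟩ : ∃ S : ℝ, S = (ar P (s - t₀) (⋃ Q ∈ T, cub J Q)).toReal := ⟨_, rfl⟩
    rw [← hS]
    have hS0 : 0 ≤ S := by rw [hS]; exact ENNReal.toReal_nonneg
    have hSe : ar P (s - t₀) (⋃ Q ∈ T, cub J Q) = ENNReal.ofReal S := by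
      rw [hS]
      exact (ENNReal.ofReal_toReal (harfin _ _
        (Finset.measurableSet_biUnion _ fun Q _ => cub_meas J Q))).symm
    rw [hSe] at h3
    -- multiply
    have h6 : ENNReal.ofReal (S * n) * vB ≤ ENNReal.ofReal (N * 5 ^ m * Mr) * vB := by
      have h7 : ENNReal.ofReal (S * n) * vB =
          ENNReal.ofReal S * ((n : ENNReal) * vB) := by
        rw [ENNReal.ofReal_mul hS0, ENNReal.ofReal_natCast]
        ring
      have h8 : ENNReal.ofReal (5 * (1 / 2 ^ J)) ^ m =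
          ENNReal.ofReal (5 ^ m) * ENNReal.ofReal (1 / 2 ^ J) ^ m := by
        rw [ENNReal.ofReal_mul (by norm_num), mul_pow, ENNReal.ofReal_pow (by norm_num)]
      rw [h7]
      refine (mul_le_mul_left h3 _).trans ?_
      rw [h8]
      have h9 : (N : ENNReal) * (ENNReal.ofReal (5 ^ m) * ENNReal.ofReal (1 / 2 ^ J) ^ m * vB) *
          ((n : ENNReal) * vB) = (N : ENNReal) * ENNReal.ofReal (5 ^ m) *
          ((n : ENNReal) * ENNReal.ofReal (1 / 2 ^ J) ^ m * vB) * vB := by ring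
      rw [h9]
      refine mul_le_mul_left ?_ _
      refine (mul_le_mul_right hMlow _).trans (le_of_eq ?_)
      rw [ENNReal.ofReal_mul (by positivity), ENNReal.ofReal_mul (Nat.cast_nonneg _),
        ENNReal.ofReal_natCast]
    have h10 := (ENNReal.mul_le_mul_iff_left hvB0 hvBt).1 h6
    rw [ENNReal.ofReal_le_ofReal_iff (by positivity)] at h10
    have h11 : (0 : ℝ) ≤ 26 ^ m * Mr := by positivity
    linarith
  · -- the logarithmic mean
    intro Q ι _ τ σ κ c hτ hκ hc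
    have h1 := ar_remez P (cub J Q.1) (h𝓡0 Q) (fun s => harfin _ _ (cub_meas J Q.1)) τ hτ
      (fun i => σ i - t₀) hκ c (by
        intro q hq1 hq2
        have h2 := hc (q.comp (Polynomial.X - Polynomial.C t₀)) (by
          rw [Polynomial.natDegree_comp, Polynomial.natDegree_X_sub_C, mul_one]
          exact hq1) (by
          rw [Polynomial.eval_comp]
          simpa using hq2)
        simpa [Polynomial.eval_comp] using h2)
    rw [ha]
    exact h1

/-- The entropy from the weights. -/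
theorem ent_of_weights {Ω S : Type} [Fintype Ω] [DecidableEq S] {p : Ω → ℝ} (hp : IsLaw p) (X : Ω → S)
    (w : Ω → ℝ) (hw : ∀ ω, 0 ≤ w ω) {n C κ : ℝ} (hn : 0 < n) (hC : 0 ≤ C) (hκ : 0 < κ)
    (hκn : κ ≤ 1 / n)
    (h : ∀ c, (∑ ω, if X ω = c then p ω * w ω else 0) ≤ C / n) :
    Real.log n + ∑ ω, p ω * Real.log (w ω + κ) - Real.log (C + 1) ≤
      Pool.Agent.H49.Ent.H p X := by
  classical
  obtain ⟨y₀, hy₀⟩ : ∃ y₀ : ℝ, y₀ = (C + 1) / n := ⟨_, rfl⟩
  have hy0 : 0 < y₀ := by rw [hy₀]; positivity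
  have hlog : Real.log y₀ = Real.log (C + 1) - Real.log n := by
    rw [hy₀, Real.log_div (by positivity) hn.ne']
  -- the mean of the weights
  have h1 : ∑ ω, p ω * ((w ω + κ) * law p X (X ω)) ≤ y₀ := by
    have h2 : ∑ ω, p ω * ((w ω + κ) * law p X (X ω)) =
        ∑ ω, p ω * w ω * law p X (X ω) + κ * ∑ ω, p ω * law p X (X ω) := by
      rw [Finset.mul_sum, ← Finset.sum_add_distrib]
      exact Finset.sum_congr rfl fun ω _ => by ring
    have h3 : ∑ ω, p ω * w ω * law p X (X ω) ≤ C / n := by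
      have h4 : ∑ ω, p ω * w ω * law p X (X ω) =
          ∑ ω', p ω' * ∑ ω, if X ω = X ω' then p ω * w ω else 0 := by
        unfold law
        simp_rw [Finset.mul_sum]
        rw [Finset.sum_comm]
        refine Finset.sum_congr rfl fun ω' _ => Finset.sum_congr rfl fun ω _ => ?_
        by_cases hX : X ω' = X ω
        · rw [if_pos hX, if_pos hX.symm]; ring
        · rw [if_neg hX, if_neg (Ne.symm hX), mul_zero, mul_zero]
      rw [h4]
      have h5 : ∑ ω', p ω' * (∑ ω, if X ω = X ω' then p ω * w ω else 0) ≤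
          ∑ ω', p ω' * (C / n) :=
        Finset.sum_le_sum fun ω' _ => mul_le_mul_of_nonneg_left (h _) (hp.nonneg ω')
      rwa [← Finset.sum_mul, hp.sum_one, one_mul] at h5
    have h6 : ∑ ω, p ω * law p X (X ω) ≤ 1 := by
      have h7 : ∑ ω, p ω * law p X (X ω) ≤ ∑ ω, p ω * 1 := by
        refine Finset.sum_le_sum fun ω _ => mul_le_mul_of_nonneg_left ?_ (hp.nonneg ω)
        have := law_le_total hp.nonneg X (X ω)
        rwa [hp.sum_one] at this
      rwa [← Finset.sum_mul, hp.sum_one, one_mul] at h7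
    rw [h2, hy₀, add_div]
    have h8 := mul_le_mul_of_nonneg_left h6 hκ.le
    linarith
  have h9 : ∑ ω, p ω * (Real.log (w ω + κ) + Real.log (law p X (X ω))) ≤ Real.log y₀ := by
    have h10 : ∀ ω, p ω * (Real.log (w ω + κ) + Real.log (law p X (X ω))) ≤
        p ω * ((w ω + κ) * law p X (X ω)) / y₀ + p ω * (Real.log y₀ - 1) := by
      intro ω
      rcases (hp.nonneg ω).lt_or_eq with hpos | hzero
      · have hl : 0 < law p X (X ω) := law_pos hp.nonneg X hpos
        have hwk : 0 < w ω + κ := by linarith [hw ω]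
        have h11 := Real.log_le_sub_one_of_pos (div_pos (mul_pos hwk hl) hy0)
        rw [Real.log_div (mul_pos hwk hl).ne' hy0.ne', Real.log_mul hwk.ne' hl.ne'] at h11
        have h12 := mul_le_mul_of_nonneg_left h11 hpos.le
        have h13 : p ω * ((w ω + κ) * law p X (X ω)) / y₀ =
            p ω * ((w ω + κ) * law p X (X ω) / y₀) := by ring
        rw [h13]
        linarith
      · rw [← hzero]
        simp
    refine (Finset.sum_le_sum fun ω _ => h10 ω).trans ?_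
    rw [Finset.sum_add_distrib, ← Finset.sum_mul, hp.sum_one, ← Finset.sum_div]
    have h14 : (∑ ω, p ω * ((w ω + κ) * law p X (X ω))) / y₀ ≤ 1 := by
      rw [div_le_one hy0]
      exact h1
    linarith
  simp_rw [mul_add] at h9
  rw [Finset.sum_add_distrib, hlog] at h9
  unfold Pool.Agent.H49.Ent.H
  linarith

/-- **(FIL)** The entropies at the times of a law whose polynomials of degree at most `m` with
value one at `t₀` have logarithmic mean at least `c`. -/
theorem fil (m M E : ℕ) : ∃ C : ℝ, 1 ≤ C ∧ ∀ (J : ℕ)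
    (f : Fin M → MvPolynomial (Fin m ⊕ Fin m) ℝ), (∀ i, (f i).totalDegree ≤ E) → LpJ J f →
    (LLn f 1).Nonempty → ∀ t₀ : ℝ, 0 ≤ t₀ → t₀ ≤ 1 →
    ∃ (Ω : Type) (_ : Fintype Ω) (p : Ω → ℝ) (l : Ω → Ln m),
      IsLaw p ∧ (∀ ω, 0 < p ω) ∧ (∀ ω, l ω ∈ LLn f 2) ∧
      (∀ c : Fin m → ℤ, law p (fun ω => fl J (lpos (l ω) t₀)) c ≤
        C / (lsec J t₀ (LLn f 1)).ncard) ∧
      (∀ (ι : Type) [Fintype ι] (τ σ : ι → ℝ) (c : ℝ), (∀ i, 0 ≤ τ i) → ∑ i, τ i = 1 →
        (∀ i, 0 ≤ σ i) → (∀ i, σ i ≤ 1) →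
        (∀ q : Polynomial ℝ, q.natDegree ≤ m → q.eval t₀ = 1 →
          c ≤ ∑ i, τ i * Real.log (|q.eval (σ i)| + 1 / ((13 * 2 ^ J) ^ m : ℕ))) →
        Real.log (lsec J t₀ (LLn f 1)).ncard + c - C ≤
          ∑ i, τ i * Pool.Agent.H49.Ent.H p (fun ω => fl J (lpos (l ω) (σ i)))) := by
  classical
  obtain ⟨C, hC1, hC⟩ := fil_law m M E
  refine ⟨C, hC1, ?_⟩
  intro J f hf hL hne t₀ ht0 ht1
  obtain ⟨Ω, hΩ, p, l, w, hp, hpos, hl, hw0, hwt, hcell, hrem⟩ := hC J f hf hL hne t₀ ht0 ht1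
  refine ⟨Ω, hΩ, p, l, hp, hpos, hl, ?_, ?_⟩
  · intro c
    have h1 := hcell t₀ ht0 ht1 c
    unfold law
    refine le_trans (le_of_eq ?_) h1
    refine Finset.sum_congr rfl fun ω _ => ?_
    rw [hwt, mul_one]
    by_cases h2 : fl J (lpos (l ω) t₀) = c
    · rw [if_pos h2, if_pos h2]
    · rw [if_neg h2, if_neg h2]
  · intro ι _ τ σ c hτ hτ1 hσ0 hσ1 hc
    have hfin : (lsec J t₀ (LLn f 1)).Finite :=
      lsec_fin ht0 ht1 ((LLn_mono f one_le_two).trans (LLn_sub f))
    have hn1 : 1 ≤ (lsec J t₀ (LLn f 1)).ncard := (Set.ncard_pos hfin).2 (hne.image _)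
    have hbox : (lsec J t₀ (LLn f 1)).ncard ≤ (13 * 2 ^ J) ^ m :=
      (lsec_box ht0 ht1 ((LLn_mono f one_le_two).trans (LLn_sub f))).2
    obtain ⟨n, hn⟩ : ∃ n : ℕ, n = (lsec J t₀ (LLn f 1)).ncard := ⟨_, rfl⟩
    rw [← hn] at hn1 hbox hcell ⊢
    have hn0 : (0 : ℝ) < n := by exact_mod_cast hn1
    obtain ⟨B, hB⟩ : ∃ B : ℕ, B = (13 * 2 ^ J) ^ m := ⟨_, rfl⟩
    rw [← hB] at hbox hc
    have hB0 : (0 : ℝ) < B := by
      rw [hB]
      positivity
    have hκ : (0 : ℝ) < 1 / B := by positivity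
    have hκn : (1 : ℝ) / B ≤ 1 / n := by
      refine one_div_le_one_div_of_le hn0 ?_
      exact_mod_cast hbox
    have h1 : ∀ i, Real.log n + ∑ ω, p ω * Real.log (w ω (σ i) + 1 / B) - Real.log (C + 1) ≤
        Pool.Agent.H49.Ent.H p (fun ω => fl J (lpos (l ω) (σ i))) := fun i =>
      ent_of_weights hp _ (fun ω => w ω (σ i)) (fun ω => hw0 ω _) hn0 (by linarith) hκ hκn
        (fun c => hcell (σ i) (hσ0 i) (hσ1 i) c)
    have h2 := Finset.sum_le_sum fun i (_ : i ∈ Finset.univ) =>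
      mul_le_mul_of_nonneg_left (h1 i) (hτ i)
    have h3 : ∑ i, τ i * (Real.log n + ∑ ω, p ω * Real.log (w ω (σ i) + 1 / B) -
        Real.log (C + 1)) = Real.log n - Real.log (C + 1) +
          ∑ ω, p ω * ∑ i, τ i * Real.log (w ω (σ i) + 1 / B) := by
      have h4 : ∀ i, τ i * (Real.log n + ∑ ω, p ω * Real.log (w ω (σ i) + 1 / B) -
          Real.log (C + 1)) = τ i * (Real.log n - Real.log (C + 1)) +
            ∑ ω, p ω * (τ i * Real.log (w ω (σ i) + 1 / B)) := by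
        intro i
        have h5 : ∑ ω, p ω * (τ i * Real.log (w ω (σ i) + 1 / B)) =
            τ i * ∑ ω, p ω * Real.log (w ω (σ i) + 1 / B) := by
          rw [Finset.mul_sum]
          exact Finset.sum_congr rfl fun ω _ => by ring
        rw [h5]
        ring
      rw [Finset.sum_congr rfl fun i _ => h4 i, Finset.sum_add_distrib, ← Finset.sum_mul, hτ1,
        one_mul, Finset.sum_comm]
      simp_rw [Finset.mul_sum]
    rw [h3] at h2
    have h6 : c ≤ ∑ ω, p ω * ∑ i, τ i * Real.log (w ω (σ i) + 1 / B) := by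
      have h7 := Finset.sum_le_sum fun ω (_ : ω ∈ Finset.univ) =>
        mul_le_mul_of_nonneg_left (hrem ω ι τ σ (1 / B) c hτ hκ hc) (hp.nonneg ω)
      rwa [← Finset.sum_mul, hp.sum_one, one_mul] at h7
    have h8 : Real.log (C + 1) ≤ C := by
      have := Real.log_le_sub_one_of_pos (by linarith : (0 : ℝ) < C + 1)
      linarith
    linarith

end Pool.FIL
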