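import Pool.Agent.H32.BE.KRS

/-!
# The Katz-Rogers law on the lines of a set of bounded degree: continuous part

`ar P s K` is the integral over the pairs (point, direction) of `K`, inside the good set of the
polynomial `P`, of the Jacobian at the time `s`.  At the time zero this is (up to constants) the
volume of the section (`ar_low`), at every time it is at most a constant times the volume of the
set which is met (`ar_up`), and the quotients `ar P s K / ar P 0 K` are, in the logarithmic mean,
at least as large as the polynomials with value one at zero (`ar_remez`).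
-/

set_option autoImplicit false

namespace Pool.FIL

open Finset Real MvPolynomial MeasureTheory
open Pool.Agent.H50.PW

variable {m : ℕ}

/-- The integral of the Jacobian at the time `s` over the good pairs of `K`. -/
noncomputable def ar (P : MvPolynomial (Fin m ⊕ Fin m) ℝ) (s : ℝ)
    (K : Set (Fin m ⊕ Fin m → ℝ)) : ENNReal :=
  ∫⁻ x in K ∩ good P Set.univ, ENNReal.ofReal |(jac (Yi P (fun k => X k) s) x).det|

theorem meas_jac (P : MvPolynomial (Fin m ⊕ Fin m) ℝ) (s : ℝ) :
    Measurable fun x : Fin m ⊕ Fin m → ℝ =>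
      ENNReal.ofReal |(jac (Yi P (fun k => X k) s) x).det| :=
  ENNReal.measurable_ofReal.comp (continuous_jac_det _).abs.measurable

/-- The polynomial of the times. -/
theorem exists_q (P : MvPolynomial (Fin m ⊕ Fin m) ℝ) (x : Fin m ⊕ Fin m → ℝ)
    (h : (Hes P x).det ≠ 0) : ∃ q : Polynomial ℝ, q.natDegree ≤ m ∧ q.eval 0 = 1 ∧
      ∀ s : ℝ, (jac (Yi P (fun k => X k) s) x).det = (Hes P x).det * q.eval s := by
  obtain ⟨B, C, hBC⟩ := jac_Yi P (fun k => X k) x
  refine ⟨(B * (Hes P x)⁻¹ * C).charpolyRev, ?_, Matrix.eval_charpolyRev, fun s => ?_⟩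
  · refine (natDegree_charpolyRev_le _).trans ?_
    rw [Fintype.card_fin]
  · rw [hBC s, det_block_one s B C _ h]

theorem jac_zero (P : MvPolynomial (Fin m ⊕ Fin m) ℝ) (x : Fin m ⊕ Fin m → ℝ) :
    (jac (Yi P (fun k => X k) 0) x).det = (Hes P x).det := by
  obtain ⟨B, C, hBC⟩ := jac_Yi P (fun k => X k) x
  rw [hBC 0, zero_smul, Matrix.det_fromBlocks_zero₁₂, Matrix.det_one, one_mul]

/-- The lower bound at the time zero. -/
theorem ar_low (P : MvPolynomial (Fin m ⊕ Fin m) ℝ) (hP0 : ∀ x, 0 ≤ eval x P) :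
    volume (Metric.closedBall (0 : Fin m → ℝ) 1) *
      volume {y : Fin m → ℝ | y ∈ Set.univ ∧
        ∃ A : Fin m → ℝ, ‖A‖ ≤ 1 ∧ eval (Sum.elim y A) P ≤ 1} ≤ ar P 0 Set.univ := by
  set B : Set (Fin m → ℝ) := Metric.closedBall (0 : Fin m → ℝ) 1 with hB
  set S₁ : Set (Fin m → ℝ) := {y | y ∈ Set.univ ∧
        ∃ A : Fin m → ℝ, ‖A‖ ≤ 1 ∧ eval (Sum.elim y A) P ≤ 1} with hS₁
  set F : (Fin m ⊕ Fin m → ℝ) → ENNReal :=
    (good P Set.univ).indicator (fun x => ENNReal.ofReal |(Hes P x).det|) with hF
  have hFm : Measurable F := (measurable_detHes P).indicator (measurableSet_good P .univ)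
  have h0 : ar P 0 Set.univ = ∫⁻ x, F x := by
    unfold ar
    rw [Set.univ_inter, hF, lintegral_indicator (measurableSet_good P .univ)]
    refine lintegral_congr fun x => ?_
    rw [jac_zero]
  rw [h0]
  set g : (Fin m → ℝ) → ENNReal := fun D => ∫⁻ A : Fin m → ℝ, F (Sum.elim D A) with hg
  have hgm : Measurable g := by
    have hj : Measurable fun z : (Fin m → ℝ) × (Fin m → ℝ) =>
        (Sum.elim z.1 z.2 : Fin m ⊕ Fin m → ℝ) := by
      refine measurable_pi_lambda _ fun a => ?_
      rcases a with i | j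
      · exact (measurable_pi_apply i).comp measurable_fst
      · exact (measurable_pi_apply j).comp measurable_snd
    exact Measurable.lintegral_prod_right' (hFm.comp hj)
  rw [lintegral_sum_pi F hFm]
  refine le_trans ?_ (mul_meas_ge_le_lintegral hgm (volume B))
  refine mul_le_mul_right ?_ _
  refine measure_mono fun D hD => ?_
  exact fibre_lower P hP0 .univ D hD.1 hD.2

/-- The upper bound at the time `s`. -/
theorem ar_up (P : MvPolynomial (Fin m ⊕ Fin m) ℝ) {d : ℕ} (hd : 1 ≤ d)
    (hP : P.totalDegree ≤ d) (s : ℝ) (K : Set (Fin m ⊕ Fin m → ℝ)) (hK : MeasurableSet K)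
    (Z : Set (Fin m → ℝ)) (hZ : ∀ x ∈ K ∩ good P Set.univ,
      (fun k => x (Sum.inl k) + s * x (Sum.inr k)) ∈ Z) :
    ar P s K ≤ ((d + 1) ^ (m + m) : ℕ) *
      (volume Z * volume (Metric.closedBall (0 : Fin m → ℝ) 1)) := by
  have h3 := lintegral_det_le (Yi P (fun k => X k) s)
    (totalDegree_Yi_le P (fun k => X k) s hd hP (fun k => by rw [totalDegree_X]; exact hd))
      (K ∩ good P Set.univ) (hK.inter (measurableSet_good P .univ))
  rw [Fintype.card_sum, Fintype.card_fin] at h3
  refine h3.trans (mul_le_mul_right ?_ _)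
  refine volume_sum_pi_le _ _ Metric.isClosed_closedBall.measurableSet _ ?_
  rintro y ⟨x, hx, rfl⟩
  refine ⟨?_, ?_⟩
  · have h4 := hZ x hx
    have h5 : (fun i => pmap (Yi P (fun k => X k) s) x (Sum.inl i)) =
        fun k => x (Sum.inl k) + s * x (Sum.inr k) := by
      funext k
      simp [pmap, Yi]
    rw [h5]
    exact h4
  · rw [mem_closedBall_zero_iff, pi_norm_le_iff_of_nonneg zero_le_one]
    intro j
    exact hx.2.2.2.2 j

/-- **The quotients are large in the logarithmic mean.** -/
theorem ar_remez (P : MvPolynomial (Fin m ⊕ Fin m) ℝ) (K : Set (Fin m ⊕ Fin m → ℝ))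
    (h0 : ar P 0 K ≠ 0) (hfin : ∀ s, ar P s K ≠ ⊤) {ι : Type} [Fintype ι]
    (τ : ι → ℝ) (hτ : ∀ i, 0 ≤ τ i) (σ : ι → ℝ) {κ : ℝ} (hκ : 0 < κ) (c : ℝ)
    (hc : ∀ q : Polynomial ℝ, q.natDegree ≤ m → q.eval 0 = 1 →
      c ≤ ∑ i, τ i * Real.log (|q.eval (σ i)| + κ)) :
    c ≤ ∑ i, τ i * Real.log ((ar P (σ i) K).toReal / (ar P 0 K).toReal + κ) := by
  classical
  set a0 : ℝ := (ar P 0 K).toReal with ha0
  have ha0' : 0 < a0 := ENNReal.toReal_pos h0 (hfin 0)
  set w : ι → ℝ := fun i => (ar P (σ i) K).toReal / a0 with hw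
  have hw0 : ∀ i, 0 ≤ w i := fun i => div_nonneg ENNReal.toReal_nonneg ha0'.le
  have hwk : ∀ i, 0 < w i + κ := fun i => by linarith [hw0 i]
  have hgoal : c ≤ ∑ i, τ i * Real.log (w i + κ) := by
    by_contra hcon
    rw [not_le] at hcon
    obtain ⟨δ, hδ⟩ : ∃ δ, δ = c - ∑ i, τ i * Real.log (w i + κ) := ⟨_, rfl⟩
    have hδ0 : 0 < δ := by rw [hδ]; linarith
    set W : ℝ := ∑ i, τ i / (w i + κ) * w i with hW
    have hW0 : 0 ≤ W := Finset.sum_nonneg fun i _ =>
      mul_nonneg (div_nonneg (hτ i) (hwk i).le) (hw0 i)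
    -- the pointwise inequality
    have hpt : ∀ x : Fin m ⊕ Fin m → ℝ, (δ + W) * |(Hes P x).det| ≤
        ∑ i, τ i / (w i + κ) * |(jac (Yi P (fun k => X k) (σ i)) x).det| := by
      intro x
      by_cases hx : (Hes P x).det = 0
      · rw [hx, abs_zero, mul_zero]
        exact Finset.sum_nonneg fun i _ => mul_nonneg (div_nonneg (hτ i) (hwk i).le) (abs_nonneg _)
      · obtain ⟨q, hq1, hq2, hq3⟩ := exists_q P x hx
        have h1 : ∑ i, τ i / (w i + κ) * |(jac (Yi P (fun k => X k) (σ i)) x).det| =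
            (∑ i, τ i / (w i + κ) * |q.eval (σ i)|) * |(Hes P x).det| := by
          rw [Finset.sum_mul]
          refine Finset.sum_congr rfl fun i _ => ?_
          rw [hq3, abs_mul]
          ring
        rw [h1]
        refine mul_le_mul_of_nonneg_right ?_ (abs_nonneg _)
        have h2 := hc q hq1 hq2
        have h3 : ∀ i, τ i * Real.log (|q.eval (σ i)| + κ) ≤ τ i * Real.log (w i + κ) +
            (τ i / (w i + κ) * |q.eval (σ i)| - τ i / (w i + κ) * w i) := by
          intro i
          have hy : 0 < |q.eval (σ i)| + κ := by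
            have := abs_nonneg (q.eval (σ i))
            linarith
          have h4 := Real.log_le_sub_one_of_pos (div_pos hy (hwk i))
          rw [Real.log_div hy.ne' (hwk i).ne'] at h4
          have h5 : (|q.eval (σ i)| + κ) / (w i + κ) - 1 =
              (|q.eval (σ i)| - w i) / (w i + κ) := by
            have := (hwk i).ne'
            field_simp
            ring
          rw [h5] at h4
          have h6 := mul_le_mul_of_nonneg_left h4 (hτ i)
          have h7 : τ i * ((|q.eval (σ i)| - w i) / (w i + κ)) =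
              τ i / (w i + κ) * |q.eval (σ i)| - τ i / (w i + κ) * w i := by
            ring
          rw [h7] at h6
          linarith
        have h8 := Finset.sum_le_sum fun i (_ : i ∈ Finset.univ) => h3 i
        rw [Finset.sum_add_distrib, Finset.sum_sub_distrib] at h8
        rw [hδ]
        linarith
    -- integrate
    have hint : ENNReal.ofReal (δ + W) * ar P 0 K ≤
        ∑ i, ENNReal.ofReal (τ i / (w i + κ)) * ar P (σ i) K := by
      unfold ar
      rw [← lintegral_const_mul _ (meas_jac P 0)]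
      simp_rw [← lintegral_const_mul _ (meas_jac P _)]
      rw [← lintegral_finsetSum _ fun i _ => (meas_jac P _).const_mul _]
      refine lintegral_mono fun x => ?_
      rw [jac_zero, ← ENNReal.ofReal_mul (by positivity)]
      simp_rw [← ENNReal.ofReal_mul (div_nonneg (hτ _) (hwk _).le)]
      rw [← ENNReal.ofReal_sum_of_nonneg fun i _ =>
        mul_nonneg (div_nonneg (hτ i) (hwk i).le) (abs_nonneg _)]
      exact ENNReal.ofReal_le_ofReal (hpt x)
    have h9 : ∀ s, ar P s K = ENNReal.ofReal (ar P s K).toReal := fun s =>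
      (ENNReal.ofReal_toReal (hfin s)).symm
    have h10 : ∀ i, (ar P (σ i) K).toReal = w i * a0 := fun i => by
      rw [hw]
      field_simp
    rw [h9 0, ← ha0, ← ENNReal.ofReal_mul (by positivity)] at hint
    have h11 : ∑ i, ENNReal.ofReal (τ i / (w i + κ)) * ar P (σ i) K =
        ENNReal.ofReal (W * a0) := by
      rw [hW, Finset.sum_mul, ENNReal.ofReal_sum_of_nonneg fun i _ =>
        mul_nonneg (mul_nonneg (div_nonneg (hτ i) (hwk i).le) (hw0 i)) ha0'.le]
      refine Finset.sum_congr rfl fun i _ => ?_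
      rw [h9 (σ i), h10 i, ← ENNReal.ofReal_mul (div_nonneg (hτ i) (hwk i).le)]
      congr 1
      ring
    rw [h11, ENNReal.ofReal_le_ofReal_iff (by positivity)] at hint
    nlinarith
  exact hgoal

end Pool.FIL
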