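import Pool.Agent.H53.BE.ThinB
import Pool.Agent.H9.SH.Defs

/-!
# THIN: a deep label is expensive

The line is `l₀ + 2 ^ (-(J + g)) ξ` with a uniform noise `ξ` on a grid of `2 ^ g` points per
coordinate, and `W` is a label of the line whose body has the functions `F W`, up to `1` along the
window `[α, α + h]`, a Jacobian at least `1 / ρ` somewhere in the window, and a function which
varies by at least `2 ^ s` in the space. Then the entropy of `W` is at least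
`s log 2 / (E m) + m log h - log ρ - (m + 2) J log 2 - C` on average (`thin`).
-/

set_option autoImplicit false

namespace Pool.THIN

open Finset MvPolynomial
open Pool.Agent.H49.Ent Pool.Agent.H32.Dense Pool.STK
open Pool.SH (Ln lpos)
open Pool.GEN (pnt)
open Pool.BJ

variable {N m n E : ℕ}

/-- The noises. -/
abbrev Nz (m g : ℕ) : Type := (Fin m → Fin (2 ^ g)) × (Fin m → Fin (2 ^ g))

/-- The line of the grid. -/
noncomputable def gl {m : ℕ} (J g : ℕ) (l₀ : Ln m) (ξ : Nz m g) : Ln m :=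
  (fun k => l₀.1 k + ((ξ.1 k : ℕ) : ℝ) / 2 ^ (J + g), fun k => l₀.2 k + ((ξ.2 k : ℕ) : ℝ) / 2 ^ (J + g))

theorem noise_le (J g : ℕ) (x : Fin (2 ^ g)) : |((x : ℕ) : ℝ) / 2 ^ (J + g)| ≤ 1 := by
  rw [abs_of_nonneg (by positivity), div_le_one (by positivity)]
  have h1 : ((x : ℕ) : ℝ) ≤ 2 ^ g := by exact_mod_cast x.2.le
  refine h1.trans (pow_le_pow_right₀ (by norm_num) (Nat.le_add_left _ _))

/-- **The count of a class.** -/
theorem ccount (n N E : ℕ) (hE : 1 ≤ E) (b : ℝ) (hb : 0 ≤ b) : ∃ C : ℝ, 1 ≤ C ∧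
    ∀ (F : Fin N → MvPolynomial (Option (Fin (n + 1))) ℝ), (∀ a, (F a).totalDegree ≤ E) →
    ∀ M : ℝ, 0 ≤ M → (∀ a, ∀ t ∈ Set.Icc (0 : ℝ) 1, ∀ y : Fin (n + 1) → ℝ, (∀ k, |y k| ≤ 1) →
      |eval (pnt t y) (F a)| ≤ M) →
    ∀ (c : Fin N → ℝ → ℝ) (α h ρ : ℝ) (J g : ℕ), 0 ≤ α → 1 / 2 ^ J ≤ h → α + h ≤ 1 → 0 < ρ →
    C * M ≤ 2 ^ (J + g) → C * ρ * M ^ (n + 1) ≤ 2 ^ (J + g) →
    ∀ l₀ : Ln (n + 1), (∀ k, |l₀.1 k| ≤ b) → (∀ k, |l₀.2 k| ≤ b) →
    ∀ S : Finset (Nz (n + 1) g),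
    (∀ ξ ∈ S, (∀ t ∈ Set.Icc α (α + h), ∀ a,
      |eval (pnt t (lpos (gl J g l₀ ξ) t)) (F a) - c a t| ≤ 1) ∧
      ∃ t ∈ Set.Icc α (α + h), 1 / ρ ≤ JF F (pnt t (lpos (gl J g l₀ ξ) t))) →
    ∀ s : ℝ, (∃ a, ∃ t ∈ Set.Icc (0 : ℝ) 1, ∃ x x' : Fin (n + 1) → ℝ, (∀ k, |x k| ≤ 1) ∧
      (∀ k, |x' k| ≤ 1) ∧ (2 : ℝ) ^ s ≤ |eval (pnt t x) (F a) - eval (pnt t x') (F a)|) →
    (S.card : ℝ) * (2 : ℝ) ^ (s / (E * (n + 1) : ℕ)) ≤
      C * (1 / h) ^ (n + 1) * ρ * 2 ^ (J * (n + 3)) * 2 ^ (2 * (n + 1) * g) := by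
  classical
  obtain ⟨Cu, hCu, hu⟩ := ucount (n + 1) N E (b + 1) (by linarith)
  obtain ⟨Cd, hCd, hd⟩ := dcount n E (b + 1) (by linarith)
  obtain ⟨K, hK⟩ : ∃ K : ℝ, K = (Pool.RM.cst n E : ℝ) + 1 := ⟨_, rfl⟩
  have hK1 : 1 ≤ K := by
    rw [hK]
    have : (0 : ℝ) ≤ (Pool.RM.cst n E : ℝ) := Nat.cast_nonneg _
    linarith
  have hCK : 1 ≤ Cd * K := by nlinarith
  refine ⟨2 + Cu * (4 * (Cd * K)), by nlinarith, ?_⟩
  intro F hF M hM0 hM c α h ρ J g hα hh hαh hρ hd1 hd2 l₀ hl1 hl2 S hS s hs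
  have hJ : (0 : ℝ) < 2 ^ J := by positivity
  have hJg : (0 : ℝ) < 2 ^ (J + g) := by positivity
  have hh0 : 0 < h := lt_of_lt_of_le (by positivity) hh
  have hmg : Cu ≤ 2 + Cu * (4 * (Cd * K)) := by nlinarith
  -- the positions
  obtain ⟨U, hU⟩ : ∃ U : Finset (Fin (n + 1) → Fin (2 ^ g)), U = S.image Prod.fst := ⟨_, rfl⟩
  obtain ⟨pos, hpos⟩ : ∃ pos : (Fin (n + 1) → Fin (2 ^ g)) → Fin (n + 1) → ℝ,
      pos = fun v k => l₀.1 k + ((v k : ℕ) : ℝ) / 2 ^ (J + g) := ⟨_, rfl⟩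
  have hsepv : ∀ v v' : Fin (n + 1) → Fin (2 ^ g), v ≠ v' → 1 / 2 ^ (J + g) ≤ dist (pos v) (pos v') := by
    intro v v' hne
    obtain ⟨k, hk⟩ : ∃ k, v k ≠ v' k := by
      by_contra hcon
      push Not at hcon
      exact hne (funext hcon)
    refine le_trans ?_ (dist_le_pi_dist (pos v) (pos v') k)
    rw [Real.dist_eq, hpos]
    have e : l₀.1 k + ((v k : ℕ) : ℝ) / 2 ^ (J + g) - (l₀.1 k + ((v' k : ℕ) : ℝ) / 2 ^ (J + g)) =
        (((v k : ℕ) : ℝ) - ((v' k : ℕ) : ℝ)) / 2 ^ (J + g) := by ring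
    simp only
    rw [e, abs_div, abs_of_pos hJg]
    refine div_le_div_of_nonneg_right ?_ hJg.le
    have h1 : (1 : ℤ) ≤ |((v k : ℕ) : ℤ) - ((v' k : ℕ) : ℤ)| :=
      Int.one_le_abs (sub_ne_zero.2 (by
        intro h0
        exact hk (Fin.ext (by exact_mod_cast h0))))
    exact_mod_cast h1
  have hinj : Function.Injective pos := by
    intro v v' hvv
    by_contra hne
    have h1 := hsepv v v' hne
    rw [hvv, dist_self] at h1
    have : (0 : ℝ) < 1 / 2 ^ (J + g) := by positivity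
    linarith
  have hUc : (U.card : ℝ) ≤ Cu * (1 / h) ^ (n + 1) * ρ * (2 ^ (J + g)) ^ (n + 1) := by
    have h1 := hu F hF M hM0 hM c α h ρ (1 / 2 ^ (J + g)) hα hh0 hαh hρ (by positivity)
      (by rw [div_le_one hJg]; exact one_le_pow₀ (by norm_num))
      (by
        rw [mul_one_div, div_le_one hJg]
        exact (mul_le_mul_of_nonneg_right hmg hM0).trans hd1)
      (by
        rw [mul_one_div, div_le_one hJg]
        refine le_trans ?_ hd2
        rw [mul_assoc, mul_assoc]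
        exact mul_le_mul_of_nonneg_right hmg (by positivity))
      (U.image pos) (by
        intro u hu' u' hu'' hne
        obtain ⟨v, _, rfl⟩ := Finset.mem_image.1 hu'
        obtain ⟨v', _, rfl⟩ := Finset.mem_image.1 hu''
        exact hsepv v v' fun h0 => hne (by rw [h0])) (by
        intro u hu'
        obtain ⟨v, hv, rfl⟩ := Finset.mem_image.1 hu'
        rw [hU] at hv
        obtain ⟨ξ, hξ, rfl⟩ := Finset.mem_image.1 hv
        have h2 := hS ξ hξ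
        refine ⟨(gl J g l₀ ξ).2, fun k => ?_, fun k => ?_, ?_⟩
        · rw [hpos]
          refine (abs_add_le _ _).trans ?_
          linarith [hl1 k, noise_le J g (ξ.1 k)]
        · refine (abs_add_le _ _).trans ?_
          linarith [hl2 k, noise_le J g (ξ.2 k)]
        · have e : (pos ξ.1, (gl J g l₀ ξ).2) = gl J g l₀ ξ := by
            rw [hpos]
            rfl
          rw [e]
          exact h2)
    rw [Finset.card_image_of_injective _ hinj, one_div, inv_pow, ← div_eq_mul_inv,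
      div_le_iff₀ (by positivity)] at h1
    simpa only [one_div] using h1
  -- the velocities
  obtain ⟨a, t, ht, x, x', hx, hx', hosc⟩ := hs
  obtain ⟨κ, hκ⟩ : ∃ κ : ℝ, κ = (2 : ℝ) ^ (s / (E * (n + 1) : ℕ)) := ⟨_, rfl⟩
  have hκ0 : 0 < κ := by rw [hκ]; positivity
  have hEn : 0 < E * (n + 1) := Nat.mul_pos (by omega) (Nat.succ_pos n)
  have hκs : κ ^ (E * (n + 1)) = (2 : ℝ) ^ s := by
    rw [hκ, ← Real.rpow_natCast, ← Real.rpow_mul (by norm_num)]
    congr 1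
    have : (((E * (n + 1) : ℕ) : ℝ)) ≠ 0 := by exact_mod_cast hEn.ne'
    field_simp
  have hfib : ∀ v ∈ U, ((S.filter fun ξ => ξ.1 = v).card : ℝ) * κ ≤
      (2 ^ g) ^ (n + 1) * (4 * (Cd * K)) * (2 ^ J * 2 ^ J) := by
    intro v hv
    obtain ⟨T, hT⟩ : ∃ T : Finset (Fin (n + 1) → Fin (2 ^ g)),
        T = (S.filter fun ξ => ξ.1 = v).image Prod.snd := ⟨_, rfl⟩
    have hTc : T.card = (S.filter fun ξ => ξ.1 = v).card := by
      rw [hT]
      refine Finset.card_image_of_injOn ?_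
      intro ξ hξ ξ' hξ' h0
      rw [Finset.mem_coe, Finset.mem_filter] at hξ hξ'
      exact Prod.ext (by rw [hξ.2, hξ'.2]) h0
    rw [← hTc]
    have hTall : (T.card : ℝ) ≤ (2 ^ g) ^ (n + 1) := by
      have h1 := Finset.card_le_univ T
      rw [Fintype.card_fun, Fintype.card_fin, Fintype.card_fin] at h1
      exact_mod_cast h1
    obtain ⟨y, hy⟩ : ∃ y : ℝ, y = κ / (2 * Cd * (2 ^ J * 2 ^ J)) := ⟨_, rfl⟩
    have hden : 0 < 2 * Cd * ((2 : ℝ) ^ J * 2 ^ J) := by positivity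
    have hκy : κ = y * (2 * Cd * (2 ^ J * 2 ^ J)) := by
      rw [hy]
      field_simp
    rcases le_or_gt y 1 with hy1 | hy1
    · -- trivial
      calc (T.card : ℝ) * κ ≤ (2 ^ g) ^ (n + 1) * κ := mul_le_mul_of_nonneg_right hTall hκ0.le
        _ ≤ (2 ^ g) ^ (n + 1) * (1 * (2 * Cd * (2 ^ J * 2 ^ J))) := by
            refine mul_le_mul_of_nonneg_left ?_ (by positivity)
            rw [hκy]
            exact mul_le_mul_of_nonneg_right hy1 hden.le
        _ ≤ (2 ^ g) ^ (n + 1) * (4 * (Cd * K)) * (2 ^ J * 2 ^ J) := by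
            have h1 : 2 * Cd ≤ 4 * (Cd * K) := by nlinarith
            have h2 : 1 * (2 * Cd * ((2 : ℝ) ^ J * 2 ^ J)) ≤ 4 * (Cd * K) * (2 ^ J * 2 ^ J) := by
              rw [one_mul]
              exact mul_le_mul_of_nonneg_right h1 (by positivity)
            calc ((2 : ℝ) ^ g) ^ (n + 1) * (1 * (2 * Cd * (2 ^ J * 2 ^ J))) ≤
                (2 ^ g) ^ (n + 1) * (4 * (Cd * K) * (2 ^ J * 2 ^ J)) :=
                  mul_le_mul_of_nonneg_left h2 (by positivity)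
              _ = _ := by ring
    · obtain ⟨r, hr1, hr2⟩ := exists_nat_pow_near (x := y) (y := (2 : ℝ)) hy1.le one_lt_two
      have hkey : Cd * 2 ^ (2 * J * E) * 2 ^ (r * E * (n + 1)) < (2 : ℝ) ^ s := by
        rw [← hκs, hκy]
        have h1 : (2 : ℝ) ^ r * (2 * Cd * (2 ^ J * 2 ^ J)) ≤ y * (2 * Cd * (2 ^ J * 2 ^ J)) :=
          mul_le_mul_of_nonneg_right hr1 hden.le
        refine lt_of_lt_of_le ?_ (pow_le_pow_left₀ (by positivity) h1 _)
        rw [mul_pow, mul_pow, mul_pow 2 Cd]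
        have h2 : Cd < (2 : ℝ) ^ (E * (n + 1)) * Cd ^ (E * (n + 1)) := by
          have h3 : Cd ≤ Cd ^ (E * (n + 1)) := le_self_pow₀ hCd hEn.ne'
          have h4 : (1 : ℝ) < 2 ^ (E * (n + 1)) := one_lt_pow₀ one_lt_two hEn.ne'
          nlinarith
        have h5 : (2 : ℝ) ^ (2 * J * E) ≤ (2 ^ J * 2 ^ J) ^ (E * (n + 1)) := by
          rw [← pow_add, ← pow_mul]
          refine pow_le_pow_right₀ (by norm_num) ?_
          have : 2 * J * E ≤ 2 * J * (E * (n + 1)) :=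
            Nat.mul_le_mul_left _ (Nat.le_mul_of_pos_right _ (Nat.succ_pos n))
          calc 2 * J * E ≤ 2 * J * (E * (n + 1)) := this
            _ = (J + J) * (E * (n + 1)) := by ring
        have h6 : ((2 : ℝ) ^ r) ^ (E * (n + 1)) = 2 ^ (r * E * (n + 1)) := by
          rw [← pow_mul]
          congr 1
          ring
        rw [h6]
        have h7 : Cd * 2 ^ (2 * J * E) <
            (2 : ℝ) ^ (E * (n + 1)) * Cd ^ (E * (n + 1)) * (2 ^ J * 2 ^ J) ^ (E * (n + 1)) :=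
          mul_lt_mul h2 h5 (by positivity) (by positivity)
        calc Cd * 2 ^ (2 * J * E) * 2 ^ (r * E * (n + 1)) <
            ((2 : ℝ) ^ (E * (n + 1)) * Cd ^ (E * (n + 1)) * (2 ^ J * 2 ^ J) ^ (E * (n + 1))) *
              2 ^ (r * E * (n + 1)) := mul_lt_mul_of_pos_right h7 (by positivity)
          _ = _ := by ring
      have hrg : r ≤ g := by
        by_contra hcon
        push Not at hcon
        have h1 : |eval (pnt t x) (F a) - eval (pnt t x') (F a)| ≤ 2 ^ (J + g) := by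
          refine (abs_sub _ _).trans ?_
          have h2 := hM a t ht x hx
          have h3 := hM a t ht x' hx'
          have h4 : 2 * M ≤ (2 + Cu * (4 * (Cd * K))) * M := by
            refine mul_le_mul_of_nonneg_right ?_ hM0
            have : 0 ≤ Cu * (4 * (Cd * K)) := by positivity
            linarith
          linarith
        have h2 : (2 : ℝ) ^ (J + g) ≤ Cd * 2 ^ (2 * J * E) * 2 ^ (r * E * (n + 1)) := by
          have h3 : (2 : ℝ) ^ J ≤ Cd * 2 ^ (2 * J * E) := by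
            have h4 : (2 : ℝ) ^ J ≤ 2 ^ (2 * J * E) := by
              refine pow_le_pow_right₀ (by norm_num) ?_
              nlinarith
            have h5 : (0 : ℝ) < 2 ^ (2 * J * E) := by positivity
            nlinarith
          have h4 : (2 : ℝ) ^ g ≤ 2 ^ (r * E * (n + 1)) := by
            refine pow_le_pow_right₀ (by norm_num) ?_
            calc g ≤ r := hcon.le
              _ ≤ r * (E * (n + 1)) := Nat.le_mul_of_pos_right _ hEn
              _ = r * E * (n + 1) := by ring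
          rw [pow_add]
          exact mul_le_mul h3 h4 (by positivity) (by positivity)
        linarith
      have hcard : T.card ≤ Pool.RM.cst n E * (2 ^ r) ^ n * (2 ^ (g - r)) ^ (n + 1) := by
        by_contra hcon
        push Not at hcon
        have h1 := hd (F a) (hF a) (c a) α h J g r hα hh hαh hrg (pos v) l₀.2 (by
          intro k
          rw [hpos]
          refine (abs_add_le _ _).trans ?_
          linarith [hl1 k, noise_le J g (v k)]) (fun k => by linarith [hl2 k]) T (by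
          intro w hw τ hτ
          rw [hT] at hw
          obtain ⟨ξ, hξ, rfl⟩ := Finset.mem_image.1 hw
          rw [Finset.mem_filter] at hξ
          have h2 := (hS ξ hξ.1).1 τ hτ a
          have e : (pos v, fun k => l₀.2 k + (((ξ.2 k : ℕ)) : ℝ) / 2 ^ (J + g)) = gl J g l₀ ξ := by
            rw [hpos, ← hξ.2]
            rfl
          rw [e]
          exact h2) hcon t ht x x' hx hx'
        linarith
      have hcr : (T.card : ℝ) * 2 ^ r ≤ K * (2 ^ g) ^ (n + 1) := by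
        have h1 : (T.card : ℝ) ≤ (Pool.RM.cst n E : ℝ) * (2 ^ r) ^ n * (2 ^ (g - r)) ^ (n + 1) := by
          exact_mod_cast hcard
        have h2 : ((2 : ℝ) ^ r) ^ n * (2 ^ (g - r)) ^ (n + 1) * 2 ^ r = (2 ^ g) ^ (n + 1) := by
          have h3 : (2 : ℝ) ^ g = 2 ^ r * 2 ^ (g - r) := by
            rw [← pow_add]
            congr 1
            omega
          rw [h3, mul_pow, pow_succ ((2 : ℝ) ^ r)]
          ring
        have h4 : (Pool.RM.cst n E : ℝ) ≤ K := by rw [hK]; linarith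
        calc (T.card : ℝ) * 2 ^ r ≤
            (Pool.RM.cst n E : ℝ) * (2 ^ r) ^ n * (2 ^ (g - r)) ^ (n + 1) * 2 ^ r :=
              mul_le_mul_of_nonneg_right h1 (by positivity)
          _ = (Pool.RM.cst n E : ℝ) * (((2 : ℝ) ^ r) ^ n * (2 ^ (g - r)) ^ (n + 1) * 2 ^ r) := by
              ring
          _ = (Pool.RM.cst n E : ℝ) * (2 ^ g) ^ (n + 1) := by rw [h2]
          _ ≤ K * (2 ^ g) ^ (n + 1) := mul_le_mul_of_nonneg_right h4 (by positivity)
      have hyr : y ≤ 2 * 2 ^ r := by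
        have := hr2.le
        rw [pow_succ] at this
        linarith
      have hTn : (0 : ℝ) ≤ T.card := Nat.cast_nonneg _
      calc (T.card : ℝ) * κ = (T.card : ℝ) * (y * (2 * Cd * (2 ^ J * 2 ^ J))) := by rw [← hκy]
        _ ≤ (T.card : ℝ) * (2 * 2 ^ r * (2 * Cd * (2 ^ J * 2 ^ J))) :=
            mul_le_mul_of_nonneg_left (mul_le_mul_of_nonneg_right hyr hden.le) hTn
        _ = ((T.card : ℝ) * 2 ^ r) * (4 * Cd * (2 ^ J * 2 ^ J)) := by ring
        _ ≤ (K * (2 ^ g) ^ (n + 1)) * (4 * Cd * (2 ^ J * 2 ^ J)) :=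
            mul_le_mul_of_nonneg_right hcr (by positivity)
        _ = (2 ^ g) ^ (n + 1) * (4 * (Cd * K)) * (2 ^ J * 2 ^ J) := by ring
  -- together
  have hsum : (S.card : ℝ) = ∑ v ∈ U, ((S.filter fun ξ => ξ.1 = v).card : ℝ) := by
    have h1 := Finset.card_eq_sum_card_image Prod.fst S
    rw [← hU] at h1
    exact_mod_cast h1
  rw [← hκ, hsum, Finset.sum_mul]
  refine (Finset.sum_le_sum hfib).trans ?_
  rw [Finset.sum_const, nsmul_eq_mul]
  obtain ⟨B, hB⟩ : ∃ B : ℝ, B = (2 ^ g) ^ (n + 1) * (4 * (Cd * K)) * (2 ^ J * 2 ^ J) := ⟨_, rfl⟩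
  rw [← hB]
  have hB0 : 0 ≤ B := by rw [hB]; positivity
  refine (mul_le_mul_of_nonneg_right hUc hB0).trans ?_
  have e1 : ((2 : ℝ) ^ (J + g)) ^ (n + 1) * ((2 ^ g) ^ (n + 1) * (2 ^ J * 2 ^ J)) =
      2 ^ (J * (n + 3)) * 2 ^ (2 * (n + 1) * g) := by
    rw [← pow_mul, ← pow_mul, ← pow_add, ← pow_add, ← pow_add, ← pow_add]
    congr 1
    ring
  calc Cu * (1 / h) ^ (n + 1) * ρ * (2 ^ (J + g)) ^ (n + 1) * B =
      Cu * (4 * (Cd * K)) * ((1 / h) ^ (n + 1) * ρ) *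
        (((2 : ℝ) ^ (J + g)) ^ (n + 1) * ((2 ^ g) ^ (n + 1) * (2 ^ J * 2 ^ J))) := by
        rw [hB]; ring
    _ = Cu * (4 * (Cd * K)) * ((1 / h) ^ (n + 1) * ρ) *
        (2 ^ (J * (n + 3)) * 2 ^ (2 * (n + 1) * g)) := by rw [e1]
    _ ≤ (2 + Cu * (4 * (Cd * K))) * ((1 / h) ^ (n + 1) * ρ) *
        (2 ^ (J * (n + 3)) * 2 ^ (2 * (n + 1) * g)) := by
        refine mul_le_mul_of_nonneg_right (mul_le_mul_of_nonneg_right ?_ (by positivity))
          (by positivity)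
        linarith
    _ = _ := by ring

/-- **THIN.** -/
theorem thin (m N E : ℕ) (hm : 1 ≤ m) (hE : 1 ≤ E) (b : ℝ) (hb : 0 ≤ b) : ∃ C : ℝ, 1 ≤ C ∧
    ∀ (Ω A ζ Γ : Type) [Fintype Ω] (p : Ω → ℝ) (_ : IsLaw p) (J g : ℕ) (O : Ω → A) (Z : Ω → ζ)
      (W : Ω → Γ) (ξ : Ω → Nz m g) (l₀ : A → Ln m) (l : Ω → Ln m)
      (F : Γ → Fin N → MvPolynomial (Option (Fin m)) ℝ) (M α h ρ s : Γ → ℝ) (D : ℝ),
      Det p O Z →
      (2 * m * g : ℝ) * Real.log 2 - D ≤ CH p ξ O →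
      (∀ ω, 0 < p ω → (∀ k, |(l₀ (O ω)).1 k| ≤ b) ∧ (∀ k, |(l₀ (O ω)).2 k| ≤ b) ∧
        l ω = gl J g (l₀ (O ω)) (ξ ω)) →
      (∀ w a, (F w a).totalDegree ≤ E) →
      (∀ ω, 0 < p ω → 0 ≤ M (W ω) ∧ ∀ a, ∀ t ∈ Set.Icc (0 : ℝ) 1, ∀ y : Fin m → ℝ,
        (∀ k, |y k| ≤ 1) → |eval (pnt t y) (F (W ω) a)| ≤ M (W ω)) →
      (∀ ω, 0 < p ω → 0 ≤ α (W ω) ∧ 1 / 2 ^ J ≤ h (W ω) ∧ α (W ω) + h (W ω) ≤ 1 ∧ 0 < ρ (W ω)) →
      (∀ ω, 0 < p ω → C * M (W ω) ≤ 2 ^ (J + g) ∧ C * ρ (W ω) * M (W ω) ^ m ≤ 2 ^ (J + g)) →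
      (∀ ω ω', 0 < p ω → 0 < p ω' → O ω = O ω' → W ω = W ω' →
        ∀ t ∈ Set.Icc (α (W ω)) (α (W ω) + h (W ω)), ∀ a,
        |eval (pnt t (lpos (l ω) t)) (F (W ω) a) - eval (pnt t (lpos (l ω') t)) (F (W ω) a)| ≤ 1) →
      (∀ ω, 0 < p ω → ∃ t ∈ Set.Icc (α (W ω)) (α (W ω) + h (W ω)),
        1 / ρ (W ω) ≤ JF (F (W ω)) (pnt t (lpos (l ω) t))) →
      (∀ ω, 0 < p ω → ∃ a, ∃ t ∈ Set.Icc (0 : ℝ) 1, ∃ x x' : Fin m → ℝ, (∀ k, |x k| ≤ 1) ∧
        (∀ k, |x' k| ≤ 1) ∧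
        (2 : ℝ) ^ s (W ω) ≤ |eval (pnt t x) (F (W ω) a) - eval (pnt t x') (F (W ω) a)|) →
      Ex p (fun ω => s (W ω) / (E * m : ℕ) * Real.log 2 + m * Real.log (h (W ω)) -
          Real.log (ρ (W ω))) ≤
        CH p W Z + (J * (m + 2) : ℝ) * Real.log 2 + Real.log C + D := by
  classical
  obtain ⟨n, rfl⟩ : ∃ n, m = n + 1 := ⟨m - 1, by omega⟩
  obtain ⟨C, hC, hcc⟩ := ccount n N E hE b hb
  refine ⟨C, hC, ?_⟩
  intro Ω A ζ Γ _ p hp J g O Z W ξ l₀ l F M α h ρ s D hZ hξ hl hFd hM hI hJg hcell hjac hosc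
  have hp0 := hp.nonneg
  have hlog2 : 0 < Real.log 2 := Real.log_pos (by norm_num)
  obtain ⟨S, hS⟩ : ∃ S : Γ × A → Finset (Nz (n + 1) g), S = fun q => Finset.univ.filter fun x =>
      ∃ ω, 0 < p ω ∧ W ω = q.1 ∧ O ω = q.2 ∧ ξ ω = x := ⟨_, rfl⟩
  have hmem : ∀ ω, 0 < p ω → ξ ω ∈ S (W ω, O ω) := by
    intro ω hω
    rw [hS, Finset.mem_filter]
    exact ⟨Finset.mem_univ _, ω, hω, rfl, rfl, rfl⟩
  have h1 := CH_le_card hp0 hp.sum_one ξ (fun ω => (W ω, O ω)) S hmem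
  have h2 : Ex p (fun ω => Real.log ((S (W ω, O ω)).card)) ≤ Ex p (fun ω =>
      (Real.log C + (J * ((n + 1 : ℕ) + 2) : ℝ) * Real.log 2 + (2 * (n + 1 : ℕ) * g : ℝ) * Real.log 2) -
        (s (W ω) / (E * (n + 1) : ℕ) * Real.log 2 + (n + 1 : ℕ) * Real.log (h (W ω)) -
          Real.log (ρ (W ω)))) := by
    refine Ex_mono hp0 fun ω hω => ?_
    obtain ⟨hl1, hl2, hlω⟩ := hl ω hω
    obtain ⟨hM0, hM1⟩ := hM ω hω
    obtain ⟨hα, hh, hαh, hρ⟩ := hI ω hω
    obtain ⟨hJ1, hJ2⟩ := hJg ω hω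
    have hh0 : 0 < h (W ω) := lt_of_lt_of_le (by positivity) hh
    have h3 := hcc (F (W ω)) (hFd _) (M (W ω)) hM0 hM1
      (fun a t => eval (pnt t (lpos (l ω) t)) (F (W ω) a)) (α (W ω)) (h (W ω)) (ρ (W ω)) J g
      hα hh hαh hρ hJ1 hJ2 (l₀ (O ω)) hl1 hl2 (S (W ω, O ω)) (by
        intro x hx
        rw [hS, Finset.mem_filter] at hx
        obtain ⟨ω', hω', hW', hO', rfl⟩ := hx.2
        simp only at hW' hO'
        have e := (hl ω' hω').2.2
        rw [hO'] at e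
        rw [← e]
        refine ⟨fun t ht a => ?_, ?_⟩
        · have h4 := hcell ω ω' hω hω' hO'.symm hW'.symm t ht a
          rwa [abs_sub_comm] at h4
        · have h4 := hjac ω' hω'
          rwa [hW'] at h4) (s (W ω)) (hosc ω hω)
    have hc0 : (0 : ℝ) < (S (W ω, O ω)).card := by
      exact_mod_cast Finset.card_pos.2 ⟨_, hmem ω hω⟩
    have hC0 : 0 < C := by linarith
    have h4 := Real.log_le_log (by positivity) h3
    rw [Real.log_mul hc0.ne' (by positivity), Real.log_rpow (by norm_num),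
      Real.log_mul (by positivity) (by positivity), Real.log_mul (by positivity) (by positivity),
      Real.log_mul (by positivity) (by positivity), Real.log_mul (by positivity) (by positivity),
      Real.log_pow, Real.log_pow, Real.log_pow, Real.log_div (by norm_num) hh0.ne',
      Real.log_one] at h4
    push_cast at h4 ⊢
    linarith
  rw [Ex_sub, Ex_const hp.sum_one] at h2
  have h3 := CH_le_add hp0 ξ W O
  have h4 : CH p W O ≤ CH p W Z := CH_mono_cond hp0 hZ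
  push_cast at h1 h2 h3 hξ ⊢
  linarith

end Pool.THIN
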