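import Pool.Agent.H32.BJ.Vol
import Pool.Agent.H74.RM.Rm
import Pool.Agent.H40.SLP.TrlP

/-!
# THIN, pure part I: polynomials along lines, extension of bounds, and the Jacobian

Bounds of a polynomial of bounded degree on a small box are extended to a large box, its increments
and derivatives are bounded, and the Jacobian of a body is Lipschitz in the point.
-/

set_option autoImplicit false

namespace Pool.THIN

open Finset MvPolynomial
open Pool.SH (Ln lpos)
open Pool.GEN (pnt sbs eval_sbs deg_sbs)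
open Pool.BJ

variable {N m E : ℕ}

/-- A polynomial along a line. -/
theorem exists_line {σ : Type} {K : ℕ} (P : MvPolynomial σ ℝ) (hP : P.totalDegree ≤ K)
    (x v : σ → ℝ) : ∃ q : Polynomial ℝ, q.natDegree ≤ K ∧
      ∀ τ : ℝ, q.eval τ = eval (fun i => x i + τ * v i) P := by
  obtain ⟨g, hg⟩ : ∃ g : σ → Polynomial ℝ, g = fun i =>
      Polynomial.C (x i) + Polynomial.C (v i) * Polynomial.X := ⟨_, rfl⟩
  have hgd : ∀ j, (g j).natDegree ≤ 1 := by
    intro j
    rw [hg]
    refine (Polynomial.natDegree_add_le _ _).trans (max_le ?_ ?_)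
    · rw [Polynomial.natDegree_C]
      exact Nat.zero_le _
    · exact (Polynomial.natDegree_C_mul_le _ _).trans Polynomial.natDegree_X_le
  refine ⟨aeval g P, Pool.KBX.natDegree_aeval_le P g hgd hP, fun τ => ?_⟩
  rw [Pool.KBX.eval_aeval_poly]
  congr 1
  congr 1
  funext j
  rw [hg]
  simp only [Polynomial.eval_add, Polynomial.eval_C, Polynomial.eval_mul, Polynomial.eval_X]
  ring

/-- Extension of a bound in one variable. -/
theorem ext_one (K : ℕ) : ∃ C : ℝ, 1 ≤ C ∧ ∀ (q : Polynomial ℝ) (S : ℝ), q.natDegree ≤ K →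
    (∀ t ∈ Set.Icc (0 : ℝ) 1, |q.eval t| ≤ S) → ∀ τ : ℝ, 1 ≤ τ → |q.eval τ| ≤ C * τ ^ K * S := by
  obtain ⟨C, hC, h⟩ := Pool.Agent.H40.FR.unit_coef K
  have hK : (0 : ℝ) ≤ K := Nat.cast_nonneg K
  refine ⟨(K + 1) * C, by nlinarith, ?_⟩
  intro q S hq hS τ hτ
  have hS0 : 0 ≤ S := le_trans (abs_nonneg _) (hS 0 ⟨le_refl _, zero_le_one⟩)
  have hco := h q S hq hS
  rw [Polynomial.eval_eq_sum_range' (Nat.lt_succ_of_le hq)]
  refine (Finset.abs_sum_le_sum_abs _ _).trans ?_
  have h1 : ∀ j ∈ Finset.range (K + 1), |q.coeff j * τ ^ j| ≤ C * S * τ ^ K := by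
    intro j hj
    rw [abs_mul, abs_pow, abs_of_pos (by linarith : (0 : ℝ) < τ)]
    exact mul_le_mul (hco j) (pow_le_pow_right₀ hτ (Nat.lt_succ_iff.1 (Finset.mem_range.1 hj)))
      (by positivity) (by positivity)
  refine (Finset.sum_le_sum h1).trans (le_of_eq ?_)
  rw [Finset.sum_const, Finset.card_range, nsmul_eq_mul]
  push_cast
  ring

/-- Extension of a bound from a small box to a large one. -/
theorem ext_box (K : ℕ) : ∃ C : ℝ, 1 ≤ C ∧ ∀ (σ : Type) (P : MvPolynomial σ ℝ) (x : σ → ℝ)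
    (r R M : ℝ), P.totalDegree ≤ K → 0 < r → r ≤ R →
    (∀ y : σ → ℝ, (∀ i, |y i - x i| ≤ r) → |eval y P| ≤ M) →
    ∀ z : σ → ℝ, (∀ i, |z i - x i| ≤ R) → |eval z P| ≤ C * (R / r) ^ K * M := by
  obtain ⟨C, hC, h⟩ := ext_one K
  refine ⟨C, hC, ?_⟩
  intro σ P x r R M hP hr hrR hM z hz
  have hR : 0 < R := hr.trans_le hrR
  obtain ⟨q, hq, hqe⟩ := exists_line P hP x (fun i => (r / R) * (z i - x i))
  have h1 := h q M hq (by
    intro t ht
    rw [hqe]
    refine hM _ fun i => ?_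
    have e : x i + t * ((r / R) * (z i - x i)) - x i = t * (r / R) * (z i - x i) := by ring
    rw [e, abs_mul, abs_of_nonneg (mul_nonneg ht.1 (by positivity))]
    calc t * (r / R) * |z i - x i| ≤ 1 * (r / R) * R := by
          refine mul_le_mul (mul_le_mul_of_nonneg_right ht.2 (by positivity)) (hz i)
            (abs_nonneg _) (by positivity)
      _ = r := by field_simp) (R / r) (by rw [le_div_iff₀ hr]; linarith)
  rw [hqe] at h1
  have e : (fun i => x i + R / r * ((r / R) * (z i - x i))) = z := by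
    funext i
    field_simp
    ring
  rwa [e] at h1

/-- The increments of a polynomial which is bounded on a box. -/
theorem lip_box (K : ℕ) : ∃ C : ℝ, 1 ≤ C ∧ ∀ (σ : Type) (P : MvPolynomial σ ℝ) (x z : σ → ℝ)
    (δ ρ M : ℝ), P.totalDegree ≤ K → 0 < δ → δ ≤ ρ →
    (∀ y : σ → ℝ, (∀ i, |y i - x i| ≤ ρ) → |eval y P| ≤ M) →
    (∀ i, |z i - x i| ≤ δ) → |eval z P - eval x P| ≤ C * M * (δ / ρ) := by
  obtain ⟨C, hC, h⟩ := Pool.Agent.H40.SLP.lip_one K
  refine ⟨C, hC, ?_⟩
  intro σ P x z δ ρ M hP hδ hδρ hM hz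
  have hρ : 0 < ρ := hδ.trans_le hδρ
  obtain ⟨q, hq, hqe⟩ := exists_line P hP x (fun i => (ρ / δ) * (z i - x i))
  have h1 := h q M hq (by
    intro t ht
    rw [hqe]
    refine hM _ fun i => ?_
    have e : x i + t * ((ρ / δ) * (z i - x i)) - x i = t * (ρ / δ) * (z i - x i) := by ring
    rw [e, abs_mul, abs_of_nonneg (mul_nonneg ht.1 (by positivity))]
    calc t * (ρ / δ) * |z i - x i| ≤ 1 * (ρ / δ) * δ := by
          refine mul_le_mul (mul_le_mul_of_nonneg_right ht.2 (by positivity)) (hz i)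
            (abs_nonneg _) (by positivity)
      _ = ρ := by field_simp) (δ / ρ) 0 (by
    rw [abs_of_pos (by positivity)]
    have : δ / ρ ≤ 1 := by rw [div_le_one hρ]; exact hδρ
    linarith) (by simp)
  rw [hqe, hqe, sub_zero, abs_of_pos (by positivity : 0 < δ / ρ)] at h1
  have e : (fun i => x i + δ / ρ * ((ρ / δ) * (z i - x i))) = z := by
    funext i
    field_simp
    ring
  have e0 : (fun i => x i + 0 * ((ρ / δ) * (z i - x i))) = x := by
    funext i
    ring
  rwa [e, e0] at h1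

/-- The derivatives at the centre of a box. -/
theorem der_box (K : ℕ) : ∃ C : ℝ, 1 ≤ C ∧ ∀ (m : ℕ) (P : MvPolynomial (Fin m) ℝ)
    (x : Fin m → ℝ) (M : ℝ), P.totalDegree ≤ K →
    (∀ y : Fin m → ℝ, (∀ i, |y i - x i| ≤ 1) → |eval y P| ≤ M) →
    ∀ j, |eval x (pderiv j P)| ≤ C * M := by
  obtain ⟨C, hC, h⟩ := Pool.Agent.H40.FR.unit_coef K
  refine ⟨C, hC, ?_⟩
  intro m P x M hP hM j
  obtain ⟨q, hq, hqe⟩ := exists_line P hP x (Pi.single j 1)
  have h1 := h q M hq (by
    intro t ht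
    rw [hqe]
    refine hM _ fun i => ?_
    by_cases hi : i = j
    · subst hi
      rw [Pi.single_eq_same, mul_one, add_sub_cancel_left, abs_of_nonneg ht.1]
      exact ht.2
    · rw [Pi.single_eq_of_ne hi, mul_zero, add_zero, sub_self, abs_zero]
      exact zero_le_one) 1
  have h2 : HasDerivAt (fun s => q.eval s) (q.coeff 1) 0 := by
    have h3 := q.hasDerivAt 0
    have e : q.derivative.eval 0 = q.coeff 1 := by
      rw [← Polynomial.coeff_zero_eq_eval_zero, Polynomial.coeff_derivative]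
      simp
    rwa [e] at h3
  have h4 : (fun s => q.eval s) = fun s => eval (Function.update x j (x j + s)) P := by
    funext s
    rw [hqe]
    congr 2
    funext i
    by_cases hi : i = j
    · subst hi
      rw [Pi.single_eq_same, mul_one, Function.update_self]
    · rw [Pi.single_eq_of_ne hi, mul_zero, add_zero, Function.update_of_ne hi]
  rw [h4] at h2
  have h5 := Pool.RM.hasDerivAt_update P x j (x j + 0)
  have h6 : HasDerivAt (fun s : ℝ => eval (Function.update x j (x j + s)) P)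
      (eval (Function.update x j (x j + 0)) (pderiv j P)) 0 :=
    HasDerivAt.comp_const_add (x j) 0 h5
  have h7 := h2.unique h6
  rw [add_zero, Function.update_eq_self] at h7
  rw [← h7]
  exact h1

/-- The functions at a fixed time. -/
noncomputable def ft (t : ℝ) (P : MvPolynomial (Option (Fin m)) ℝ) : MvPolynomial (Fin m) ℝ :=
  bind₁ (sbs t 1 0) P

theorem eval_ft (t : ℝ) (P : MvPolynomial (Option (Fin m)) ℝ) (x : Fin m → ℝ) :
    eval x (ft t P) = eval (pnt t x) P := by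
  unfold ft
  rw [eval_sbs]
  congr 2
  funext k
  simp

theorem deg_ft (t : ℝ) {P : MvPolynomial (Option (Fin m)) ℝ} {K : ℕ} (hP : P.totalDegree ≤ K) :
    (ft t P).totalDegree ≤ K :=
  (Pool.Agent.H50.PW.totalDegree_bind₁_le _ (deg_sbs t 1 0) P).trans hP

theorem eval_pd_ft (t : ℝ) (P : MvPolynomial (Option (Fin m)) ℝ) (x : Fin m → ℝ) (j : Fin m) :
    eval x (pderiv j (ft t P)) = eval (pnt t x) (pderiv (some j) P) := by
  have h := pderiv_sbs t 1 0 P j
  unfold ft
  rw [h, map_mul, eval_C, one_mul]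
  exact eval_ft t _ x

/-- The determinant of a matrix with bounded entries. -/
theorem det_le (A : Matrix (Fin m) (Fin m) ℝ) {M : ℝ} (h : ∀ i j, |A i j| ≤ M) :
    |A.det| ≤ (m.factorial : ℝ) * M ^ m := by
  rw [Matrix.det_apply]
  refine (Finset.abs_sum_le_sum_abs _ _).trans ?_
  have h1 : ∀ π ∈ (Finset.univ : Finset (Equiv.Perm (Fin m))),
      |Equiv.Perm.sign π • ∏ i, A (π i) i| ≤ M ^ m := by
    intro π _
    have e : |Equiv.Perm.sign π • ∏ i, A (π i) i| = ∏ i, |A (π i) i| := by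
      rcases Int.units_eq_one_or (Equiv.Perm.sign π) with h0 | h0
      · rw [h0, one_smul, Finset.abs_prod]
      · rw [h0, Units.neg_smul, one_smul, abs_neg, Finset.abs_prod]
    rw [e]
    refine (Finset.prod_le_prod (fun i _ => abs_nonneg _) fun i _ => h (π i) i).trans
      (le_of_eq ?_)
    rw [Finset.prod_const, Finset.card_univ, Fintype.card_fin]
  refine (Finset.sum_le_sum h1).trans (le_of_eq ?_)
  rw [Finset.sum_const, Finset.card_univ, Fintype.card_perm, Fintype.card_fin, nsmul_eq_mul]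

/-- **The Jacobian is Lipschitz in the point.** -/
theorem jac_lip (m E : ℕ) : ∃ C : ℝ, 1 ≤ C ∧ ∀ (N : ℕ)
    (F : Fin N → MvPolynomial (Option (Fin m)) ℝ), (∀ a, (F a).totalDegree ≤ E) →
    ∀ (t : ℝ) (x z : Fin m → ℝ) (M δ : ℝ), 0 ≤ M → 0 < δ → δ ≤ 1 →
    (∀ a, ∀ y : Fin m → ℝ, (∀ k, |y k - x k| ≤ 2) → |eval (pnt t y) (F a)| ≤ M) →
    (∀ k, |z k - x k| ≤ δ) →
    JF F (pnt t x) ≤ JF F (pnt t z) + C * M ^ m * δ := by
  classical
  obtain ⟨C₁, hC₁, hmk⟩ := der_box E
  obtain ⟨C₂, hC₂, hlip⟩ := lip_box (m * E)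
  refine ⟨C₂ * ((m.factorial : ℝ) * C₁ ^ m), ?_, ?_⟩
  · have h1 : (1 : ℝ) ≤ m.factorial := by exact_mod_cast Nat.succ_le_of_lt m.factorial_pos
    have h2 : (1 : ℝ) ≤ C₁ ^ m := one_le_pow₀ hC₁
    have h3 : (1 : ℝ) ≤ (m.factorial : ℝ) * C₁ ^ m := by nlinarith
    nlinarith
  intro N F hF t x z M δ hM0 hδ hδ1 hM hz
  refine jm_le (add_nonneg (JF_nonneg _ _) (by positivity)) fun S => ?_
  -- the entries
  have hent : ∀ y : Fin m → ℝ, (∀ k, |y k - x k| ≤ 1) → ∀ a j,
      |eval (pnt t y) (pderiv (some j) (F a))| ≤ C₁ * M := by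
    intro y hy a j
    have h1 := hmk m (ft t (F a)) y M (deg_ft t (hF a)) (by
      intro w hw
      rw [eval_ft]
      refine hM a w fun k => ?_
      have e : w k - x k = (w k - y k) + (y k - x k) := by ring
      rw [e]
      refine (abs_add_le _ _).trans ?_
      linarith [hw k, hy k]) j
    rwa [eval_pd_ft] at h1
  have h2 := hlip (Fin m) (ft t (mq F S)) x z δ 1 ((m.factorial : ℝ) * (C₁ * M) ^ m)
    (deg_ft t (deg_mq F S hF)) hδ hδ1 (by
      intro y hy
      rw [eval_ft, eval_mq]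
      exact det_le _ fun i j => hent y hy (S i) j) hz
  rw [eval_ft, eval_ft, eval_mq, eval_mq, div_one] at h2
  have h3 := le_jm (dM F (pnt t z)) S
  have h4 : |mnr (dM F (pnt t x)) S| ≤ |mnr (dM F (pnt t z)) S| +
      |mnr (dM F (pnt t z)) S - mnr (dM F (pnt t x)) S| := by
    have := abs_sub_abs_le_abs_sub (mnr (dM F (pnt t x)) S) (mnr (dM F (pnt t z)) S)
    rw [abs_sub_comm] at this
    linarith
  refine h4.trans (add_le_add h3 (h2.trans (le_of_eq ?_)))
  rw [mul_pow]
  ring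

end Pool.THIN
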