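import Pool.Agent.H53.BE.ThinA

/-!
# THIN, pure part II: the count of the lines of a class on a grid

A class of lines of the grid `l₀ + 2 ^ (-(J + g)) ξ` on which the functions of a body vary by at
most `1` along a window: the positions at the time `0` are counted by the volume of the section
(`ucount`), the velocities for a given position by the inequality of Remez (`dcount`).
-/

set_option autoImplicit false

namespace Pool.THIN

open Finset MvPolynomial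
open Pool.SH (Ln lpos)
open Pool.GEN (pnt sbs eval_sbs deg_sbs)
open Pool.BJ
open Pool.BE (Bx)

variable {N m n E : ℕ}

theorem lpos_le {l : Ln m} {b t : ℝ} (h1 : ∀ k, |l.1 k| ≤ b) (h2 : ∀ k, |l.2 k| ≤ b)
    (ht : t ∈ Set.Icc (0 : ℝ) 1) (k : Fin m) : |lpos l t k| ≤ 2 * b := by
  unfold lpos
  refine (abs_add_le _ _).trans ?_
  rw [abs_mul, abs_of_nonneg ht.1]
  have h3 : t * |l.2 k| ≤ 1 * b :=
    mul_le_mul ht.2 (h2 k) (abs_nonneg _) zero_le_one
  linarith [h1 k]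

/-- **The positions.** -/
theorem ucount (m N E : ℕ) (b : ℝ) (hb : 0 ≤ b) : ∃ C : ℝ, 1 ≤ C ∧
    ∀ (F : Fin N → MvPolynomial (Option (Fin m)) ℝ), (∀ a, (F a).totalDegree ≤ E) →
    ∀ (M : ℝ), 0 ≤ M → (∀ a, ∀ t ∈ Set.Icc (0 : ℝ) 1, ∀ y : Fin m → ℝ, (∀ k, |y k| ≤ 1) →
      |eval (pnt t y) (F a)| ≤ M) →
    ∀ (c : Fin N → ℝ → ℝ) (α h ρ δ : ℝ), 0 ≤ α → 0 < h → α + h ≤ 1 → 0 < ρ → 0 < δ → δ ≤ 1 →
    C * M * δ ≤ 1 → C * ρ * M ^ m * δ ≤ 1 →
    ∀ S : Finset (Fin m → ℝ), (∀ u ∈ S, ∀ u' ∈ S, u ≠ u' → δ ≤ dist u u') →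
    (∀ u ∈ S, ∃ D : Fin m → ℝ, (∀ k, |u k| ≤ b) ∧ (∀ k, |D k| ≤ b) ∧
      (∀ t ∈ Set.Icc α (α + h), ∀ a, |eval (pnt t (lpos (u, D) t)) (F a) - c a t| ≤ 1) ∧
      ∃ t ∈ Set.Icc α (α + h), 1 / ρ ≤ JF F (pnt t (lpos (u, D) t))) →
    (S.card : ℝ) * δ ^ m ≤ C * (1 / h) ^ m * ρ := by
  classical
  obtain ⟨Cv, hCv, hvol⟩ := vol_sec m N E
  obtain ⟨Ce, hCe, hext⟩ := ext_box E
  obtain ⟨Cl, hCl, hlip⟩ := lip_box E
  obtain ⟨Cj, hCj, hjac⟩ := jac_lip m E
  obtain ⟨Q, hQ⟩ : ∃ Q : ℝ, Q = Ce * (2 * b + 3) ^ E := ⟨_, rfl⟩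
  have hb3 : (1 : ℝ) ≤ (2 * b + 3) ^ E := one_le_pow₀ (by linarith only [hb])
  have hQ1 : 1 ≤ Q := by rw [hQ]; nlinarith only [hCe, hb3]
  have hQm : (1 : ℝ) ≤ Q ^ m := one_le_pow₀ hQ1
  obtain ⟨A, hA⟩ : ∃ A : ℝ, A = Cv * 2 ^ (m + 1) + Cl * Q + 2 * (Cj * Q ^ m) := ⟨_, rfl⟩
  have hA1 : 0 ≤ Cv * 2 ^ (m + 1) := by positivity
  have hA2 : 1 ≤ Cl * Q := by nlinarith only [hCl, hQ1]
  have hA3 : 0 ≤ Cj * Q ^ m := by positivity
  refine ⟨A, by rw [hA]; linarith, ?_⟩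
  intro F hF M hM0 hM c α h ρ δ hα hh hαh hρ hδ hδ1 hd1 hd2 S hsep hS
  -- the bounds in the large box
  have hbig : ∀ a, ∀ t ∈ Set.Icc (0 : ℝ) 1, ∀ y : Fin m → ℝ, (∀ k, |y k| ≤ 2 * b + 3) →
      |eval (pnt t y) (F a)| ≤ Q * M := by
    intro a t ht y hy
    have h1 := hext (Fin m) (ft t (F a)) 0 1 (2 * b + 3) M (deg_ft t (hF a)) one_pos
      (by linarith) (fun y hy => by
        rw [eval_ft]
        exact hM a t ht y fun k => by simpa using hy k) y (fun k => by simpa using hy k)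
    rw [eval_ft, div_one] at h1
    rw [hQ]
    exact h1
  have hA' := Pool.Agent.H50.PW.card_mul_le_volume S hδ hsep
    ((fun l => lpos l 0) '' LV F c (Set.Icc α (α + h)) (b + 1) 2 (1 / (2 * ρ))) (by
    intro u hu y hy
    obtain ⟨D, hu1, hD1, hcl, t₀, ht₀, hj⟩ := hS u hu
    rw [Metric.mem_ball, dist_pi_lt_iff (by linarith only [hδ])] at hy
    have hy1 : ∀ k, |y k - u k| ≤ δ := fun k => by
      have := hy k
      rw [Real.dist_eq] at this
      linarith only [hδ, this]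
    have hIcc : ∀ t ∈ Set.Icc α (α + h), t ∈ Set.Icc (0 : ℝ) 1 := fun t ht =>
      ⟨hα.trans ht.1, ht.2.trans hαh⟩
    have hdiff : ∀ t, ∀ k, |lpos (y, D) t k - lpos (u, D) t k| ≤ δ := by
      intro t k
      have e : lpos (y, D) t k - lpos (u, D) t k = y k - u k := by
        unfold lpos
        ring
      rw [e]
      exact hy1 k
    refine ⟨(y, D), ⟨⟨fun k => ?_, fun k => ?_⟩, fun t ht a => ?_, t₀, ht₀, ?_⟩, ?_⟩
    · have e : y k = (y k - u k) + u k := by ring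
      show |y k| ≤ b + 1
      rw [e]
      refine (abs_add_le _ _).trans ?_
      linarith only [hδ1, hy1, hu1, hy1 k, hu1 k]
    · show |D k| ≤ b + 1
      linarith [hD1 k]
    · have h1 := hlip (Fin m) (ft t (F a)) (lpos (u, D) t) (lpos (y, D) t) δ 1 (Q * M)
        (deg_ft t (hF a)) hδ hδ1 (by
          intro z hz
          rw [eval_ft]
          refine hbig a t (hIcc t ht) z fun k => ?_
          have e : z k = (z k - lpos (u, D) t k) + lpos (u, D) t k := by ring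
          rw [e]
          refine (abs_add_le _ _).trans ?_
          have := lpos_le (l := (u, D)) hu1 hD1 (hIcc t ht) k
          linarith only [this, hz, hz k]) (hdiff t)
      rw [eval_ft, eval_ft, div_one] at h1
      have h2 := hcl t ht a
      have h3 : Cl * (Q * M) * δ ≤ 1 := by
        refine le_trans ?_ hd1
        have : Cl * Q ≤ A := by rw [hA]; linarith
        calc Cl * (Q * M) * δ = (Cl * Q) * (M * δ) := by ring
          _ ≤ A * (M * δ) := mul_le_mul_of_nonneg_right this (by positivity)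
          _ = A * M * δ := by ring
      have e : eval (pnt t (lpos (y, D) t)) (F a) - c a t =
          (eval (pnt t (lpos (y, D) t)) (F a) - eval (pnt t (lpos (u, D) t)) (F a)) +
            (eval (pnt t (lpos (u, D) t)) (F a) - c a t) := by ring
      rw [e]
      refine (abs_add_le _ _).trans ?_
      linarith only [h1, h2, h3]
    · have h1 := hjac N F hF t₀ (lpos (u, D) t₀) (lpos (y, D) t₀) (Q * M) δ (by positivity) hδ hδ1
        (by
          intro a z hz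
          refine hbig a t₀ (hIcc t₀ ht₀) z fun k => ?_
          have e : z k = (z k - lpos (u, D) t₀ k) + lpos (u, D) t₀ k := by ring
          rw [e]
          refine (abs_add_le _ _).trans ?_
          have := lpos_le (l := (u, D)) hu1 hD1 (hIcc t₀ ht₀) k
          linarith [hz k]) (hdiff t₀)
      have h3 : Cj * (Q * M) ^ m * δ ≤ 1 / (2 * ρ) := by
        rw [le_div_iff₀ (by positivity)]
        refine le_trans ?_ hd2
        have : 2 * (Cj * Q ^ m) ≤ A := by rw [hA]; linarith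
        calc Cj * (Q * M) ^ m * δ * (2 * ρ) = 2 * (Cj * Q ^ m) * (ρ * M ^ m * δ) := by
              rw [mul_pow]; ring
          _ ≤ A * (ρ * M ^ m * δ) := mul_le_mul_of_nonneg_right this (by positivity)
          _ = A * ρ * M ^ m * δ := by ring
      have e : 1 / ρ = 1 / (2 * ρ) + 1 / (2 * ρ) := by
        field_simp
        norm_num
      linarith only [hj, h1, h3, e]
    · funext k
      simp [lpos])
  have hv := hvol F hF c α h 1 0 (b + 1) 2 (1 / (2 * ρ)) hh (by linarith) (by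
    rw [zero_sub, abs_neg, abs_of_nonneg hα]
    linarith) two_pos (by positivity)
  have h1 := hA'.trans hv
  rw [Fintype.card_fin, ← ENNReal.ofReal_pow hδ.le, ← ENNReal.ofReal_natCast,
    ← ENNReal.ofReal_mul (Nat.cast_nonneg _), ENNReal.ofReal_le_ofReal_iff (by positivity)] at h1
  refine h1.trans ?_
  have e : Cv * (1 / h) ^ m * 2 ^ m / (1 / (2 * ρ)) = Cv * 2 ^ (m + 1) * ((1 / h) ^ m * ρ) := by
    rw [div_div_eq_mul_div, div_one, pow_succ]
    ring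
  rw [e]
  have : Cv * 2 ^ (m + 1) ≤ A := by rw [hA]; linarith only [hA2, hA3]
  calc Cv * 2 ^ (m + 1) * ((1 / h) ^ m * ρ) ≤ A * ((1 / h) ^ m * ρ) :=
        mul_le_mul_of_nonneg_right this (by positivity)
    _ = A * (1 / h) ^ m * ρ := by ring

/-- The number of points of a fine grid in the coarse cells. -/
theorem card_coarse {n g r : ℕ} (S : Finset (Fin n → Fin (2 ^ g))) :
    S.card ≤ (2 ^ (g - r)) ^ n *
      (S.image fun ξ (k : Fin n) => ((((ξ k : ℕ) / 2 ^ (g - r) : ℕ)) : ℤ)).card := by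
  classical
  refine Finset.card_le_mul_card_image S _ fun a _ => ?_
  have h1 : (S.filter fun ξ => (fun (k : Fin n) => ((((ξ k : ℕ) / 2 ^ (g - r) : ℕ)) : ℤ)) = a).card ≤
      (Finset.univ : Finset (Fin n → Fin (2 ^ (g - r)))).card := by
    refine Finset.card_le_card_of_injOn
      (fun ξ k => ⟨(ξ k : ℕ) % 2 ^ (g - r), Nat.mod_lt _ (by positivity)⟩)
      (fun _ _ => Finset.mem_univ _) ?_
    intro ξ hξ ξ' hξ' h
    rw [Finset.mem_coe, Finset.mem_filter] at hξ hξ'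
    funext k
    have h2 := congrArg Fin.val (congrFun h k)
    have h3 : ((((ξ k : ℕ) / 2 ^ (g - r) : ℕ)) : ℤ) = (((ξ' k : ℕ) / 2 ^ (g - r) : ℕ)) := by
      rw [congrFun hξ.2 k, congrFun hξ'.2 k]
    have h4 : (ξ k : ℕ) / 2 ^ (g - r) = (ξ' k : ℕ) / 2 ^ (g - r) := by exact_mod_cast h3
    simp only at h2
    refine Fin.ext ?_
    rw [← Nat.div_add_mod (ξ k : ℕ) (2 ^ (g - r)), ← Nat.div_add_mod (ξ' k : ℕ) (2 ^ (g - r)),
      h2, h4]
  refine h1.trans (le_of_eq ?_)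
  rw [Finset.card_univ, Fintype.card_fun, Fintype.card_fin, Fintype.card_fin]

/-- The coarse cell of a point of the grid. -/
theorem cell_grid {n g r : ℕ} (hr : r ≤ g) (ξ : Fin n → Fin (2 ^ g)) :
    Pool.RM.cell (2 ^ r) (fun k => ((ξ k : ℕ) : ℝ) / 2 ^ g) =
      fun k => ((((ξ k : ℕ) / 2 ^ (g - r) : ℕ)) : ℤ) := by
  funext k
  unfold Pool.RM.cell
  have e : ((2 ^ r : ℕ) : ℝ) * (((ξ k : ℕ) : ℝ) / 2 ^ g) = ((ξ k : ℕ) : ℝ) / ((2 ^ (g - r) : ℕ) : ℝ) := by
    have h2 : (2 : ℝ) ^ g = 2 ^ (g - r) * 2 ^ r := by rw [← pow_add]; congr 1; omega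
    push_cast
    rw [h2]
    field_simp
  rw [e]
  rw [← Int.natCast_floor_eq_floor (by positivity), Nat.floor_div_eq_div]

/-- **The velocities.** -/
theorem dcount (n E : ℕ) (b : ℝ) (hb : 0 ≤ b) : ∃ C : ℝ, 1 ≤ C ∧
    ∀ F : MvPolynomial (Option (Fin (n + 1))) ℝ, F.totalDegree ≤ E →
    ∀ (c : ℝ → ℝ) (α h : ℝ) (J g r : ℕ), 0 ≤ α → 1 / 2 ^ J ≤ h → α + h ≤ 1 → r ≤ g →
    ∀ u D₀ : Fin (n + 1) → ℝ, (∀ k, |u k| ≤ b) → (∀ k, |D₀ k| ≤ b) →
    ∀ S : Finset (Fin (n + 1) → Fin (2 ^ g)),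
    (∀ ξ ∈ S, ∀ t ∈ Set.Icc α (α + h),
      |eval (pnt t (lpos (u, fun k => D₀ k + ((ξ k : ℕ) : ℝ) / 2 ^ (J + g)) t)) F - c t| ≤ 1) →
    Pool.RM.cst n E * (2 ^ r) ^ n * (2 ^ (g - r)) ^ (n + 1) < S.card →
    ∀ t ∈ Set.Icc (0 : ℝ) 1, ∀ x x' : Fin (n + 1) → ℝ, (∀ k, |x k| ≤ 1) → (∀ k, |x' k| ≤ 1) →
    |eval (pnt t x) F - eval (pnt t x') F| ≤
      C * 2 ^ (2 * J * E) * 2 ^ (r * E * (n + 1)) := by
  classical
  obtain ⟨Ce, hCe, hext⟩ := ext_one E
  obtain ⟨B, hB⟩ : ∃ B : ℝ, B = (2 * b + 2) * (4 * (b + 2)) := ⟨_, rfl⟩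
  have hB1 : 1 ≤ B := by rw [hB]; nlinarith only [hb]
  have hBE : 1 ≤ B ^ E := one_le_pow₀ hB1
  obtain ⟨P, hP⟩ : ∃ P : ℝ, P = (((E + 1 : ℕ) : ℝ)) ^ (n + 1) := ⟨_, rfl⟩
  have hP1 : 1 ≤ P := by
    rw [hP]
    exact one_le_pow₀ (by exact_mod_cast Nat.succ_le_succ (Nat.zero_le _))
  have h2P : 1 ≤ 2 * P := by linarith
  have hCB : 1 ≤ Ce * B ^ E := by nlinarith only [hCe, hBE]
  refine ⟨Ce * B ^ E * (2 * P), by nlinarith only [hP1, hCB], ?_⟩
  intro F hF c α h J g r hα hh hαh hr u D₀ hu hD S hS hcard t ht x x' hx hx'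
  have hJ : (0 : ℝ) < 2 ^ J := by positivity
  have hJ1 : (1 : ℝ) ≤ 2 ^ J := one_le_pow₀ (by norm_num)
  have hh0 : 0 < h := lt_of_lt_of_le (by positivity) hh
  -- step 1: the values in the cube of the velocities
  obtain ⟨Λ, hΛ⟩ : ∃ Λ : ℝ, Λ = (((E + 1 : ℕ) : ℝ) * ((2 ^ r : ℕ) : ℝ) ^ E) ^ (n + 1) := ⟨_, rfl⟩
  have hΛ0 : 0 ≤ Λ := by rw [hΛ]; positivity
  have hstep : ∀ s ∈ Set.Icc α (α + h), ∀ y : Fin (n + 1) → ℝ, (∀ k, 0 ≤ y k ∧ y k ≤ 1) →
      |eval (pnt s fun k => u k + s * (D₀ k + y k / 2 ^ J)) F - c s| ≤ Λ := by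
    intro s hs y hy
    obtain ⟨f, hf⟩ : ∃ f : MvPolynomial (Fin (n + 1)) ℝ,
        f = bind₁ (sbs s (s / 2 ^ J) fun k => u k + s * D₀ k) F - C (c s) := ⟨_, rfl⟩
    have hfe : ∀ w : Fin (n + 1) → ℝ,
        eval w f = eval (pnt s fun k => u k + s * (D₀ k + w k / 2 ^ J)) F - c s := by
      intro w
      have e : (fun k => u k + s * D₀ k + s / 2 ^ J * w k) =
          fun k => u k + s * (D₀ k + w k / 2 ^ J) := by
        funext k
        ring
      rw [hf, map_sub, eval_C, eval_sbs, e]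
    have hfd : f.totalDegree ≤ E := by
      rw [hf]
      refine (totalDegree_sub _ _).trans (max_le ?_ ?_)
      · exact (Pool.Agent.H50.PW.totalDegree_bind₁_le _ (deg_sbs _ _ _) F).trans hF
      · rw [totalDegree_C]
        exact Nat.zero_le _
    have h1 := card_coarse (r := r) S
    have h2 := Pool.RM.remez_cell n (M := 2 ^ r) (by positivity) E f hfd 1
      (S.image fun ξ (k : Fin (n + 1)) => ((((ξ k : ℕ) / 2 ^ (g - r) : ℕ)) : ℤ)) (by
        intro q hq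
        obtain ⟨ξ, hξ, rfl⟩ := Finset.mem_image.1 hq
        refine ⟨fun k => ((ξ k : ℕ) : ℝ) / 2 ^ g, fun k => ⟨by positivity, ?_⟩, cell_grid hr ξ, ?_⟩
        · rw [div_lt_one (by positivity)]
          exact_mod_cast (ξ k).2
        · rw [hfe]
          have h3 := hS ξ hξ s hs
          have e : (fun k => u k + s * (D₀ k + ((ξ k : ℕ) : ℝ) / 2 ^ g / 2 ^ J)) =
              lpos (u, fun k => D₀ k + ((ξ k : ℕ) : ℝ) / 2 ^ (J + g)) s := by
            funext k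
            unfold lpos
            simp only
            rw [div_div, ← pow_add, Nat.add_comm g J]
          rw [e]
          exact h3) (by
        by_contra hcon
        push Not at hcon
        have h3 := Nat.mul_le_mul_left ((2 ^ (g - r)) ^ (n + 1)) hcon
        have h4 : (2 ^ (g - r)) ^ (n + 1) * (Pool.RM.cst n E * (2 ^ r) ^ n) =
            Pool.RM.cst n E * (2 ^ r) ^ n * (2 ^ (g - r)) ^ (n + 1) := by ring
        omega) y hy
    rw [hfe, mul_one] at h2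
    rw [hΛ]
    exact h2
  -- step 2: a small box in the space-time
  obtain ⟨tc, htc⟩ : ∃ tc : ℝ, tc = α + 3 / 4 * h := ⟨_, rfl⟩
  obtain ⟨xc, hxc⟩ : ∃ xc : Fin (n + 1) → ℝ, xc = fun k => u k + tc * D₀ k + tc / 2 ^ J / 2 :=
    ⟨_, rfl⟩
  obtain ⟨r₀, hr₀⟩ : ∃ r₀ : ℝ, r₀ = 1 / (4 * (b + 2)) / (2 ^ J * 2 ^ J) := ⟨_, rfl⟩
  have hr₀0 : 0 < r₀ := by rw [hr₀]; positivity
  have htc0 : 3 / 4 * h ≤ tc := by rw [htc]; linarith only [hα]
  have htc1 : tc ≤ 1 := by rw [htc]; linarith only [hαh, hh0]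
  have hr₁ : r₀ * (b + 2) = 1 / 4 / (2 ^ J * 2 ^ J) := by
    rw [hr₀]
    field_simp
  have hr₂ : r₀ * (b + 2) ≤ h / 4 := by
    rw [hr₁, div_div, div_le_iff₀ (by positivity)]
    have h1 : 1 ≤ h * 2 ^ J := by rwa [div_le_iff₀ hJ] at hh
    nlinarith only [hJ1, hJ, h1]
  have hr₃ : r₀ * (b + 2) ≤ tc / 2 ^ J / 2 := by
    have h1 : h / 2 ^ J ≥ 1 / (2 ^ J * 2 ^ J) := by
      rw [ge_iff_le, div_le_div_iff₀ (by positivity) hJ]
      have h1 : 1 ≤ h * 2 ^ J := by rwa [div_le_iff₀ hJ] at hh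
      nlinarith only [hJ, h1]
    have h2 : 3 / 4 * h / 2 ^ J ≤ tc / 2 ^ J := div_le_div_of_nonneg_right htc0 hJ.le
    have h3 : 3 / 4 * h / 2 ^ J = 3 / 4 * (h / 2 ^ J) := by ring
    have h4 : 1 / 4 / ((2 : ℝ) ^ J * 2 ^ J) = 1 / 4 * (1 / (2 ^ J * 2 ^ J)) := by ring
    rw [hr₁, h4]
    have h5 : (0 : ℝ) ≤ 1 / (2 ^ J * 2 ^ J) := by positivity
    linarith only [h1, h2, h3, h5]
  have hr₄ : r₀ ≤ h / 4 := by nlinarith only [hr₀0, hr₂, hb]
  have hbox : ∀ (s : ℝ) (w : Fin (n + 1) → ℝ), |s - tc| ≤ r₀ → (∀ k, |w k - xc k| ≤ r₀) →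
      |eval (pnt s w) F - c s| ≤ Λ := by
    intro s w hs hw
    have hs1 := abs_le.1 hs
    have hs2 : s ∈ Set.Icc α (α + h) := by
      constructor <;> linarith [hs1.1, hs1.2]
    have hs0 : 0 < s := by
      have : h / 2 ≤ s := by linarith only [hα, htc, hr₄, hs1, hs1.1]
      linarith only [hα, htc, hr₀0, hr₄, hs1]
    have h1 := hstep s hs2 (fun k => (w k - u k - s * D₀ k) * 2 ^ J / s) (by
      intro k
      have e : w k - u k - s * D₀ k = (w k - xc k) + tc / 2 ^ J / 2 - (s - tc) * D₀ k := by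
        rw [hxc]
        ring
      have h2 := abs_le.1 (hw k)
      have h3 : |(s - tc) * D₀ k| ≤ r₀ * b := by
        rw [abs_mul]
        exact mul_le_mul hs (hD k) (abs_nonneg _) hr₀0.le
      have h4 := abs_le.1 h3
      have h5 : 0 ≤ w k - u k - s * D₀ k := by
        rw [e]
        linarith only [hr₀0, hr₃, h2, h4, h2.1, h4.2]
      have h6 : (w k - u k - s * D₀ k) * 2 ^ J ≤ s := by
        have h7 : w k - u k - s * D₀ k ≤ r₀ * (b + 1) + tc / 2 ^ J / 2 := by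
          rw [e]
          linarith only [h2, h4, h2.2, h4.1]
        have h8 : s ≥ tc - r₀ := by linarith only [hs1, hs1.1]
        have h9 : (r₀ * (b + 1) + tc / 2 ^ J / 2) * 2 ^ J ≤ tc - r₀ := by
          have h10 : tc / 2 ^ J * 2 ^ J = tc := by field_simp
          have h11 : r₀ * (b + 2) * 2 ^ J ≤ tc / 2 := by
            calc r₀ * (b + 2) * 2 ^ J ≤ tc / 2 ^ J / 2 * 2 ^ J :=
                  mul_le_mul_of_nonneg_right hr₃ hJ.le
              _ = tc / 2 := by field_simp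
          have h12 : r₀ ≤ r₀ * 2 ^ J := by nlinarith only [hJ1, hr₀0]
          nlinarith only [h10, h11, h12]
        calc (w k - u k - s * D₀ k) * 2 ^ J ≤ (r₀ * (b + 1) + tc / 2 ^ J / 2) * 2 ^ J :=
              mul_le_mul_of_nonneg_right h7 hJ.le
          _ ≤ tc - r₀ := h9
          _ ≤ s := h8
      exact ⟨by positivity, by rw [div_le_one hs0]; exact h6⟩)
    have e : (fun k => u k + s * (D₀ k + (w k - u k - s * D₀ k) * 2 ^ J / s / 2 ^ J)) = w := by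
      funext k
      field_simp
      ring
    rwa [e] at h1
  -- step 3: extension along a line
  obtain ⟨R, hR⟩ : ∃ R : ℝ, R = 2 * b + 2 := ⟨_, rfl⟩
  have hR0 : 0 < R := by rw [hR]; linarith only [hb, hα, hαh, hr₀0, hr₄]
  have hcR : ∀ w : Fin (n + 1) → ℝ, (∀ k, |w k| ≤ 1) → ∀ k, |w k - xc k| ≤ R := by
    intro w hw k
    have h1 : |xc k| ≤ 2 * b + 1 := by
      rw [hxc]
      simp only
      refine (abs_add_le _ _).trans ?_
      have h2 : |u k + tc * D₀ k| ≤ 2 * b := by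
        have := lpos_le (l := (u, D₀)) (t := tc) hu hD ⟨by linarith only [hα, htc, hr₀0, hr₄], htc1⟩ k
        simpa [lpos] using this
      have h3 : |tc / 2 ^ J / 2| ≤ 1 := by
        rw [abs_of_nonneg (div_nonneg (div_nonneg (by linarith only [hα, htc, hr₀0, hr₄]) hJ.le) two_pos.le)]
        have h4 : tc / 2 ^ J ≤ 1 := by
          rw [div_le_one hJ]
          linarith only [hαh, hJ1, htc, hr₀0, hr₄]
        have : 0 ≤ tc / 2 ^ J := div_nonneg (by linarith only [hα, htc, hr₀0, hr₄]) hJ.le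
        linarith only [hα, hαh, hr₀0, hr₄, h4]
      linarith only [h2, h3]
    calc |w k - xc k| ≤ |w k| + |xc k| := abs_sub _ _
      _ ≤ R := by rw [hR]; linarith only [h1, hw, hw k]
  have htR : |t - tc| ≤ R := by
    rw [hR, abs_le]
    constructor <;> linarith only [hb, hα, hαh, htc, hr₀0, hr₄, ht, ht.1, ht.2]
  obtain ⟨q₁, hq₁, hq₁e⟩ := exists_line F hF (pnt tc xc)
    (fun o => (r₀ / R) * (pnt t x o - pnt tc xc o))
  obtain ⟨q₂, hq₂, hq₂e⟩ := exists_line F hF (pnt tc xc)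
    (fun o => (r₀ / R) * (pnt t x' o - pnt tc xc o))
  have hpnt : ∀ (w : Fin (n + 1) → ℝ) (τ : ℝ),
      (fun o => pnt tc xc o + τ * ((r₀ / R) * (pnt t w o - pnt tc xc o))) =
        pnt (tc + τ * ((r₀ / R) * (t - tc))) fun k => xc k + τ * ((r₀ / R) * (w k - xc k)) := by
    intro w τ
    funext o
    cases o with
    | none => rfl
    | some k => rfl
  have hval : ∀ w : Fin (n + 1) → ℝ, (∀ k, |w k| ≤ 1) → ∀ τ ∈ Set.Icc (0 : ℝ) 1,
      |eval (fun o => pnt tc xc o + τ * ((r₀ / R) * (pnt t w o - pnt tc xc o))) F -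
        c (tc + τ * ((r₀ / R) * (t - tc)))| ≤ Λ := by
    intro w hw τ hτ
    rw [hpnt]
    have key : ∀ z : ℝ, |z| ≤ R → |τ * ((r₀ / R) * z)| ≤ r₀ := by
      intro z hz
      rw [abs_mul, abs_mul, abs_of_nonneg hτ.1, abs_of_pos (by positivity : 0 < r₀ / R)]
      calc τ * (r₀ / R * |z|) ≤ 1 * (r₀ / R * R) :=
            mul_le_mul hτ.2 (mul_le_mul_of_nonneg_left hz (by positivity)) (by positivity)
              zero_le_one
        _ = r₀ := by field_simp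
    refine hbox _ _ ?_ fun k => ?_
    · rw [add_sub_cancel_left]
      exact key _ htR
    · rw [add_sub_cancel_left]
      exact key _ (hcR w hw k)
  have h5 := hext (q₁ - q₂) (2 * Λ) ((Polynomial.natDegree_sub_le _ _).trans (max_le hq₁ hq₂)) (by
    intro τ hτ
    rw [Polynomial.eval_sub, hq₁e, hq₂e]
    have h6 := hval x hx τ hτ
    have h7 := hval x' hx' τ hτ
    have e : ∀ a b c : ℝ, a - b = (a - c) - (b - c) := fun a b c => by ring
    rw [e _ _ (c (tc + τ * ((r₀ / R) * (t - tc))))]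
    refine (abs_sub _ _).trans ?_
    linarith only [h6, h7]) (R / r₀) (by
    rw [le_div_iff₀ hr₀0, one_mul]
    have : r₀ ≤ 1 := by linarith only [hα, hαh, hr₀0, hr₄]
    have : (1 : ℝ) ≤ R := by rw [hR]; linarith only [hb, hα, hαh, hr₀0, hr₄]
    linarith only [hb, hα, hαh, hr₀0, hr₄, hR])
  rw [Polynomial.eval_sub, hq₁e, hq₂e, hpnt, hpnt] at h5
  have e1 : tc + R / r₀ * ((r₀ / R) * (t - tc)) = t := by
    field_simp
    ring
  have e2 : ∀ w : Fin (n + 1) → ℝ, (fun k => xc k + R / r₀ * ((r₀ / R) * (w k - xc k))) = w := by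
    intro w
    funext k
    field_simp
    ring
  rw [e1, e2, e2] at h5
  refine h5.trans (le_of_eq ?_)
  have e3 : R / r₀ = B * (2 ^ J * 2 ^ J) := by
    rw [hR, hr₀, hB]
    field_simp
  rw [e3, hΛ, hP, mul_pow B, mul_pow (((E + 1 : ℕ) : ℝ))]
  have e4 : ((2 : ℝ) ^ J * 2 ^ J) ^ E = 2 ^ (2 * J * E) := by
    rw [← pow_add, ← pow_mul]
    congr 1
    ring
  have e5 : ((((2 ^ r : ℕ) : ℝ)) ^ E) ^ (n + 1) = 2 ^ (r * E * (n + 1)) := by
    push_cast
    rw [← pow_mul, ← pow_mul]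
    congr 1
    ring
  rw [e4, e5]
  ring

end Pool.THIN
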