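import Pool.Agent.H53.BE.Thin
import Pool.Agent.H58.KNB.Box
import Pool.Agent.H86.FRW.Coef

/-!
# THIN for the bodies of the class `V_E`

The bodies are given by matrices on the monomials with a space variable.
-/

set_option autoImplicit false

namespace Pool.THIN

open Finset MvPolynomial
open Pool.Agent.H49.Ent Pool.Agent.H32.Dense Pool.STK
open Pool.SH (Ln lpos)
open Pool.GEN (pnt)
open Pool.BJ
open Pool.KNB (Jx nJ mo cmb)

variable {m E : ℕ}

/-- The exponent as a finitely supported function. -/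
noncomputable def ex (α : Ix m E) : Option (Fin m) →₀ ℕ :=
  Finsupp.equivFunOnFinite.symm fun o => (α o : ℕ)

theorem mon_eq (α : Ix m E) : mon α = monomial (ex α) (1 : ℝ) := by
  classical
  rw [monomial_eq, C_1, one_mul, Finsupp.prod_fintype _ _ fun _ => pow_zero _]
  rfl

theorem ex_inj : Function.Injective (ex : Ix m E → Option (Fin m) →₀ ℕ) := by
  intro α β h
  funext o
  have h1 := DFunLike.congr_fun h o
  exact Fin.ext h1

/-- The exponent of a function of the class. -/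
noncomputable def eb (b : Fin (nJ m E)) : Option (Fin m) →₀ ℕ :=
  ex ((Fintype.equivFin (Jx m E)).symm b).1

theorem eb_inj : Function.Injective (eb : Fin (nJ m E) → Option (Fin m) →₀ ℕ) := by
  intro b b' h
  exact (Fintype.equivFin (Jx m E)).symm.injective (Subtype.ext (ex_inj h))

/-- A combination of the functions of the class. -/
noncomputable def cv (v : Fin (nJ m E) → ℝ) : MvPolynomial (Option (Fin m)) ℝ :=
  ∑ b, C (v b) * mo b

theorem coeff_cv (v : Fin (nJ m E) → ℝ) (b : Fin (nJ m E)) : coeff (eb b) (cv v) = v b := by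
  classical
  unfold cv
  rw [coeff_sum, Finset.sum_eq_single b]
  · unfold mo
    rw [mon_eq, coeff_C_mul, coeff_monomial]
    unfold eb
    rw [if_pos rfl, mul_one]
  · intro b' _ hb
    unfold mo
    rw [mon_eq, coeff_C_mul, coeff_monomial, if_neg, mul_zero]
    intro h
    exact hb (eb_inj h)
  · intro h
    exact absurd (Finset.mem_univ b) h

theorem deg_mon (α : Ix m E) : (mon α).totalDegree ≤ (m + 1) * E := by
  unfold mon
  refine (totalDegree_finsetProd _ _).trans ?_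
  refine (Finset.sum_le_sum fun o _ => ?_ : _ ≤ ∑ _o : Option (Fin m), E).trans (le_of_eq ?_)
  · refine (totalDegree_pow _ _).trans ?_
    rw [totalDegree_X, mul_one]
    exact Nat.lt_succ_iff.1 (α o).2
  · rw [Finset.sum_const, Finset.card_univ, Fintype.card_option, Fintype.card_fin, smul_eq_mul]

theorem deg_cv (v : Fin (nJ m E) → ℝ) : (cv v).totalDegree ≤ (m + 1) * E := by
  unfold cv
  refine (totalDegree_finsetSum _ _).trans (Finset.sup_le fun b _ => ?_)
  refine (totalDegree_mul _ _).trans ?_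
  rw [totalDegree_C, zero_add]
  exact deg_mon _

theorem mo_le (b : Fin (nJ m E)) {z : Option (Fin m) → ℝ} (hz : ∀ o, |z o| ≤ 1) :
    |eval z (mo b)| ≤ 1 := by
  unfold mo
  rw [eval_mon]
  unfold phi
  rw [Finset.abs_prod]
  refine Finset.prod_le_one (fun o _ => abs_nonneg _) fun o _ => ?_
  rw [abs_pow]
  exact pow_le_one₀ (abs_nonneg _) (hz o)

theorem mo_zero (b : Fin (nJ m E)) (t : ℝ) : eval (pnt t (0 : Fin m → ℝ)) (mo b) = 0 := by
  unfold mo
  rw [eval_mon]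
  unfold phi
  obtain ⟨k, hk⟩ := ((Fintype.equivFin (Jx m E)).symm b).2
  refine Finset.prod_eq_zero (Finset.mem_univ (some k)) ?_
  have h0 : (pnt t (0 : Fin m → ℝ)) (some k) = 0 := rfl
  rw [h0]
  refine zero_pow ?_
  intro h
  exact hk (Fin.ext h)

theorem cv_le (v : Fin (nJ m E) → ℝ) {M : ℝ} (hv : ∀ b, |v b| ≤ M) {z : Option (Fin m) → ℝ}
    (hz : ∀ o, |z o| ≤ 1) : |eval z (cv v)| ≤ nJ m E * M := by
  unfold cv
  rw [map_sum]
  refine (Finset.abs_sum_le_sum_abs _ _).trans ?_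
  have h1 : ∀ b ∈ (Finset.univ : Finset (Fin (nJ m E))), |eval z (C (v b) * mo b)| ≤ M := by
    intro b _
    rw [map_mul, eval_C, abs_mul]
    calc |v b| * |eval z (mo b)| ≤ |v b| * 1 :=
          mul_le_mul_of_nonneg_left (mo_le b hz) (abs_nonneg _)
      _ ≤ M := by rw [mul_one]; exact hv b
  refine (Finset.sum_le_sum h1).trans (le_of_eq ?_)
  rw [Finset.sum_const, Finset.card_univ, Fintype.card_fin, nsmul_eq_mul]

theorem cv_zero (v : Fin (nJ m E) → ℝ) (t : ℝ) : eval (pnt t (0 : Fin m → ℝ)) (cv v) = 0 := by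
  unfold cv
  rw [map_sum]
  refine Finset.sum_eq_zero fun b _ => ?_
  rw [map_mul, mo_zero, mul_zero]

/-- The coefficients are bounded by the values on the unit box of the space-time. -/
theorem coef_box (m E : ℕ) : ∃ C : ℝ, 1 ≤ C ∧ ∀ (v : Fin (nJ m E) → ℝ) (S : ℝ),
    (∀ t ∈ Set.Icc (0 : ℝ) 1, ∀ x : Fin m → ℝ, (∀ k, |x k| ≤ 1) →
      |eval (pnt t x) (cv v)| ≤ S) → ∀ b, |v b| ≤ C * S := by
  classical
  obtain ⟨C₁, hC₁, hext⟩ := ext_box ((m + 1) * E)
  obtain ⟨C₂, hC₂, hco⟩ := Pool.FRP.coeff_le_box (m + 1) ((m + 1) * E)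
  obtain ⟨Q, hQ⟩ : ∃ Q : ℝ, Q = C₁ * (3 / 2 / (1 / 2)) ^ ((m + 1) * E) := ⟨_, rfl⟩
  have hQ1 : 1 ≤ Q := by
    have h1 : (1 : ℝ) ≤ (3 / 2 / (1 / 2)) ^ ((m + 1) * E) := one_le_pow₀ (by norm_num)
    rw [hQ]
    nlinarith
  refine ⟨C₂ * Q, by nlinarith, ?_⟩
  intro v S hS b
  have h1 : ∀ z : Option (Fin m) → ℝ, (∀ o, |z o| ≤ 1) → |eval z (cv v)| ≤ Q * S := by
    intro z hz
    have h2 := hext (Option (Fin m)) (cv v) (pnt (1 / 2) 0) (1 / 2) (3 / 2) S (deg_cv v)
      (by norm_num) (by norm_num) (by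
        intro y hy
        have e : y = pnt (y none) fun k => y (some k) := by
          funext o
          cases o with
          | none => rfl
          | some k => rfl
        rw [e]
        have h3 := abs_le.1 (hy none)
        have h4 : (pnt (1 / 2 : ℝ) (0 : Fin m → ℝ)) none = 1 / 2 := rfl
        rw [h4] at h3
        refine hS _ ⟨by linarith [h3.1], by linarith [h3.2]⟩ _ fun k => ?_
        have h5 := hy (some k)
        have h6 : (pnt (1 / 2 : ℝ) (0 : Fin m → ℝ)) (some k) = 0 := rfl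
        rw [h6, sub_zero] at h5
        linarith) z (by
        intro o
        have h3 := abs_le.1 (hz o)
        cases o with
        | none =>
          have h4 : (pnt (1 / 2 : ℝ) (0 : Fin m → ℝ)) none = 1 / 2 := rfl
          rw [h4, abs_le]
          constructor <;> linarith [h3.1, h3.2]
        | some k =>
          have h4 : (pnt (1 / 2 : ℝ) (0 : Fin m → ℝ)) (some k) = 0 := rfl
          rw [h4, abs_le]
          constructor <;> linarith [h3.1, h3.2])
    rw [hQ]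
    exact h2
  obtain ⟨e, he⟩ : ∃ e : Option (Fin m) ≃ Fin (m + 1), e = (finSuccEquiv m).symm := ⟨_, rfl⟩
  have h2 := hco (rename e (cv v)) (Q * S) ((totalDegree_rename_le _ _).trans (deg_cv v)) (by
    intro z hz
    rw [eval_rename]
    exact h1 _ fun o => hz (e o)) (Finsupp.mapDomain e (eb b))
  rw [coeff_rename_mapDomain _ e.injective, coeff_cv] at h2
  linarith

/-- **THIN for the bodies of the class.** `A w` is the matrix of the body; its entries are at most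
`M`, and some entry is at least `2 ^ s`. -/
theorem thinM (m E : ℕ) (hm : 1 ≤ m) (hE : 1 ≤ E) (b : ℝ) (hb : 0 ≤ b) : ∃ C : ℝ, 1 ≤ C ∧
    ∀ (Ω A ζ Γ : Type) [Fintype Ω] (p : Ω → ℝ) (_ : IsLaw p) (J g : ℕ) (O : Ω → A) (Z : Ω → ζ)
      (W : Ω → Γ) (ξ : Ω → Nz m g) (l₀ : A → Ln m) (l : Ω → Ln m)
      (B : Γ → Matrix (Fin (nJ m E)) (Fin (nJ m E)) ℝ) (M α h ρ s : Γ → ℝ) (D : ℝ),
      Det p O Z →
      (2 * m * g : ℝ) * Real.log 2 - D ≤ CH p ξ O →
      (∀ ω, 0 < p ω → (∀ k, |(l₀ (O ω)).1 k| ≤ b) ∧ (∀ k, |(l₀ (O ω)).2 k| ≤ b) ∧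
        l ω = gl J g (l₀ (O ω)) (ξ ω)) →
      (∀ ω, 0 < p ω → 0 ≤ M (W ω) ∧ ∀ i j, |B (W ω) i j| ≤ M (W ω)) →
      (∀ ω, 0 < p ω → 0 ≤ α (W ω) ∧ 1 / 2 ^ J ≤ h (W ω) ∧ α (W ω) + h (W ω) ≤ 1 ∧ 0 < ρ (W ω)) →
      (∀ ω, 0 < p ω → C * M (W ω) ≤ 2 ^ (J + g) ∧ C * ρ (W ω) * M (W ω) ^ m ≤ 2 ^ (J + g)) →
      (∀ ω ω', 0 < p ω → 0 < p ω' → O ω = O ω' → W ω = W ω' →
        ∀ t ∈ Set.Icc (α (W ω)) (α (W ω) + h (W ω)), ∀ a,
        |eval (pnt t (lpos (l ω) t)) (cmb (B (W ω)) mo a) -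
          eval (pnt t (lpos (l ω') t)) (cmb (B (W ω)) mo a)| ≤ 1) →
      (∀ ω, 0 < p ω → ∃ t ∈ Set.Icc (α (W ω)) (α (W ω) + h (W ω)),
        1 / ρ (W ω) ≤ JF (cmb (B (W ω)) mo) (pnt t (lpos (l ω) t))) →
      (∀ ω, 0 < p ω → ∃ i j, (2 : ℝ) ^ s (W ω) ≤ |B (W ω) i j|) →
      Ex p (fun ω => s (W ω) / ((m + 1) * E * m : ℕ) * Real.log 2 + m * Real.log (h (W ω)) -
          Real.log (ρ (W ω))) ≤
        CH p W Z + (J * (m + 2) : ℝ) * Real.log 2 + C + D := by
  classical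
  have hE' : 1 ≤ (m + 1) * E := Nat.mul_pos (Nat.succ_pos m) hE
  obtain ⟨C₁, hC₁, hthin⟩ := thin m (nJ m E) ((m + 1) * E) hm hE' b hb
  obtain ⟨C₂, hC₂, hco⟩ := coef_box m E
  obtain ⟨d, hd⟩ : ∃ d : ℝ, d = (nJ m E : ℝ) + 1 := ⟨_, rfl⟩
  have hn0 : (0 : ℝ) ≤ (nJ m E : ℝ) := Nat.cast_nonneg _
  have hd1 : 1 ≤ d := by rw [hd]; linarith
  have hdm : 1 ≤ d ^ m := one_le_pow₀ hd1
  -- the constant of the oscillation
  obtain ⟨κ, hκ⟩ : ∃ κ : ℝ, κ = Real.log (2 * C₂) / Real.log 2 := ⟨_, rfl⟩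
  have hlog2 : 0 < Real.log 2 := Real.log_pos (by norm_num)
  have hκ2 : (2 : ℝ) ^ κ = 2 * C₂ := by
    rw [hκ, Real.rpow_def_of_pos (by norm_num), mul_div_cancel₀ _ hlog2.ne',
      Real.exp_log (by linarith)]
  obtain ⟨n₀, hn₀⟩ : ∃ n₀ : ℝ, n₀ = (((m + 1) * E * m : ℕ) : ℝ) := ⟨_, rfl⟩
  have hn₀1 : 1 ≤ n₀ := by
    rw [hn₀]
    exact_mod_cast Nat.mul_pos hE' (by omega)
  have hκ0 : 0 ≤ Real.log (2 * C₂) := Real.log_nonneg (by linarith)
  refine ⟨C₁ * d + C₁ * d ^ m + Real.log C₁ + Real.log (2 * C₂), ?_, ?_⟩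
  · have : 0 ≤ Real.log C₁ := Real.log_nonneg hC₁
    nlinarith
  intro Ω A ζ Γ _ p hp J g O Z W ξ l₀ l B M α h ρ s D hZ hξ hl hM hI hJg hcell hjac hbig
  have hlC : 0 ≤ Real.log C₁ := Real.log_nonneg hC₁
  have hcmb : ∀ w a, cmb (B w) mo a = cv (B w a) := fun w a => rfl
  have key := hthin Ω A ζ Γ p hp J g O Z W ξ l₀ l (fun w => cmb (B w) mo) (fun w => d * M w) α h ρ
    (fun w => s w - κ) D hZ hξ hl (fun w a => by rw [hcmb]; exact deg_cv _) (by
      intro ω hω
      obtain ⟨hM0, hM1⟩ := hM ω hω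
      refine ⟨by positivity, fun a t ht y hy => ?_⟩
      rw [hcmb]
      refine (cv_le (B (W ω) a) (hM1 a) (fun o => ?_)).trans ?_
      · cases o with
        | none =>
          have h4 : (pnt t y) none = t := rfl
          rw [h4, abs_of_nonneg ht.1]
          exact ht.2
        | some k => exact hy k
      · refine mul_le_mul_of_nonneg_right ?_ hM0
        rw [hd]
        linarith) hI (by
      intro ω hω
      obtain ⟨hM0, hM1⟩ := hM ω hω
      obtain ⟨h1, h2⟩ := hJg ω hω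
      have hρ := (hI ω hω).2.2.2
      constructor
      · refine le_trans ?_ h1
        have h3 : C₁ * d ≤ C₁ * d + C₁ * d ^ m + Real.log C₁ + Real.log (2 * C₂) := by
          have : 0 ≤ C₁ * d ^ m := by positivity
          linarith
        calc C₁ * (d * M (W ω)) = C₁ * d * M (W ω) := by ring
          _ ≤ _ := mul_le_mul_of_nonneg_right h3 hM0
      · refine le_trans ?_ h2
        have h3 : C₁ * d ^ m ≤ C₁ * d + C₁ * d ^ m + Real.log C₁ + Real.log (2 * C₂) := by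
          have : 0 ≤ C₁ * d := by positivity
          linarith
        have h4 : 0 ≤ ρ (W ω) * M (W ω) ^ m := by positivity
        calc C₁ * ρ (W ω) * (d * M (W ω)) ^ m = C₁ * d ^ m * (ρ (W ω) * M (W ω) ^ m) := by
              rw [mul_pow]; ring
          _ ≤ _ := mul_le_mul_of_nonneg_right h3 h4
          _ = _ := by ring) (fun ω ω' hω hω' _ hW => hcell ω ω' hω hω' ‹_› hW) hjac (by
      intro ω hω
      obtain ⟨i, j, hij⟩ := hbig ω hω
      -- some value is large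
      by_contra hcon
      push Not at hcon
      have h1 := hco (B (W ω) i) ((2 : ℝ) ^ (s (W ω) - κ)) (by
        intro t ht x hx
        have h2 := hcon i t ht x 0 hx (fun k => by simp)
        rw [hcmb, cv_zero, sub_zero] at h2
        exact h2.le) j
      rw [Real.rpow_sub (by norm_num), hκ2] at h1
      have h3 : C₂ * ((2 : ℝ) ^ s (W ω) / (2 * C₂)) = (2 : ℝ) ^ s (W ω) / 2 := by
        field_simp
      rw [h3] at h1
      have h4 : (0 : ℝ) < (2 : ℝ) ^ s (W ω) := by positivity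
      linarith)
  have e1 : Ex p (fun ω => s (W ω) / ((m + 1) * E * m : ℕ) * Real.log 2 +
      m * Real.log (h (W ω)) - Real.log (ρ (W ω))) ≤
      Ex p (fun ω => (fun w => s w - κ) (W ω) / (((m + 1) * E * m : ℕ)) * Real.log 2 +
        m * Real.log (h (W ω)) - Real.log (ρ (W ω))) + Real.log (2 * C₂) := by
    rw [← Ex_const hp.sum_one (Real.log (2 * C₂)), ← Ex_add]
    refine Ex_mono hp.nonneg fun ω hω => ?_
    have h1 : κ / n₀ * Real.log 2 ≤ Real.log (2 * C₂) := by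
      rw [hκ, div_mul_eq_mul_div, div_mul_cancel₀ _ hlog2.ne']
      exact div_le_self hκ0 hn₀1
    rw [← hn₀]
    have h2 : (s (W ω) - κ) / n₀ * Real.log 2 = s (W ω) / n₀ * Real.log 2 - κ / n₀ * Real.log 2 := by
      ring
    simp only
    rw [h2]
    linarith
  refine e1.trans ?_
  have h5 : 0 ≤ C₁ * d := by positivity
  have h6 : 0 ≤ C₁ * d ^ m := by positivity
  linarith

end Pool.THIN
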